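import Pool.Agent.Y255.FR.Core

/-!
The potentials for which `a_n / c_n` has a positive limit form a closed set in the uniform topology.
-/

open Polynomial MeasureTheory Filter Topology
open Pool.Agent.Results.MP_e8d659_an.NoLimit

namespace Pool.Agent.Y255.FR

theorem hn_compare {w w' : ℝ → ℝ} (hw : IsWeight w) (hw' : IsWeight w') (K : ℝ)
    (h : ∀ x, w' x ≤ K * w x) (n : ℕ) : hn w' n ≤ K * hn w n := by
  have h1 := hn_le hw' (op_monic w n).1 (op_monic w n).2
  refine h1.trans ?_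
  rw [hn, B, B, ← integral_const_mul]
  refine integral_mono (hw'.integrable₂ _ _) ((hw.integrable₂ _ _).const_mul _) fun x => ?_
  simp only
  have := mul_le_mul_of_nonneg_left (h x) (mul_self_nonneg ((op w n).eval x))
  linarith

theorem weight_le {Q Q' : ℝ → ℝ} {r : ℝ} (h : ∀ x, |Q x - Q' x| ≤ r) (x : ℝ) :
    weight Q x ≤ Real.exp (2 * r) * weight Q' x := by
  rw [weight, weight, ← Real.exp_add]
  refine Real.exp_le_exp.2 ?_
  have := (abs_le.1 (h x)).1
  linarith

theorem log_hn_close {Q Q' : ℝ → ℝ} {r : ℝ} (hw : IsWeight (weight Q)) (hw' : IsWeight (weight Q'))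
    (h : ∀ x, |Q x - Q' x| ≤ r) (n : ℕ) :
    |Real.log (hn (weight Q) n) - Real.log (hn (weight Q') n)| ≤ 2 * r := by
  have h1 := hn_compare hw' hw _ (weight_le h) n
  have h2 := hn_compare hw hw' _ (weight_le (fun x => by rw [abs_sub_comm]; exact h x)) n
  have p1 := hn_pos hw n
  have p2 := hn_pos hw' n
  have h3 := Real.log_le_log p1 h1
  have h4 := Real.log_le_log p2 h2
  rw [Real.log_mul (Real.exp_pos _).ne' p2.ne', Real.log_exp] at h3
  rw [Real.log_mul (Real.exp_pos _).ne' p1.ne', Real.log_exp] at h4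
  rw [abs_le]
  constructor <;> linarith

theorem log_an_close {Q Q' : ℝ → ℝ} {r : ℝ} (hw : IsWeight (weight Q)) (hw' : IsWeight (weight Q'))
    (h : ∀ x, |Q x - Q' x| ≤ r) (n : ℕ) :
    |Real.log (an (weight Q) n) - Real.log (an (weight Q') n)| ≤ 2 * r := by
  have e : ∀ w : ℝ → ℝ, IsWeight w → Real.log (an w n) =
      (Real.log (hn w n) - Real.log (hn w (n - 1))) / 2 := by
    intro w hw
    rw [an, Real.log_sqrt (div_pos (hn_pos hw _) (hn_pos hw _)).le,
      Real.log_div (hn_pos hw _).ne' (hn_pos hw _).ne']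
  rw [e _ hw, e _ hw']
  have h1 := abs_le.1 (log_hn_close hw hw' h n)
  have h2 := abs_le.1 (log_hn_close hw hw' h (n - 1))
  rw [abs_le]
  constructor <;> linarith [h1.1, h1.2, h2.1, h2.2]

/-- Closedness. -/
theorem closed_a (cs : ℕ → ℝ) (hcs : ∀ᶠ n in atTop, 0 < cs n) (Q₀ : ℝ → ℝ)
    (hw : IsWeight (weight Q₀))
    (h : ∀ r : ℝ, 0 < r → ∃ Q, IsWeight (weight Q) ∧ (∀ x, |Q x - Q₀ x| ≤ r) ∧
      ∃ ℓ : ℝ, 0 < ℓ ∧ Tendsto (fun n => an (weight Q) n / cs n) atTop (𝓝 ℓ)) :
    ∃ ℓ : ℝ, 0 < ℓ ∧ Tendsto (fun n => an (weight Q₀) n / cs n) atTop (𝓝 ℓ) := by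
  have hc : CauchySeq fun n => Real.log (an (weight Q₀) n / cs n) := by
    rw [Metric.cauchySeq_iff']
    intro ε hε
    obtain ⟨Q, hwQ, hQ, ℓ, hℓ, hlim⟩ := h (ε / 16) (by positivity)
    have h1 := (Real.continuousAt_log hℓ.ne').tendsto.comp hlim
    have h2 := (Metric.tendsto_atTop.1 h1) (ε / 4) (by positivity)
    obtain ⟨N, hN⟩ := h2
    obtain ⟨N', hN'⟩ := eventually_atTop.1 hcs
    have key : ∀ n, max N N' ≤ n → |Real.log (an (weight Q₀) n / cs n) - Real.log ℓ| < 3 * ε / 8 := by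
      intro n hn
      have h3 := hN n ((le_max_left _ _).trans hn)
      have h4 := hN' n ((le_max_right _ _).trans hn)
      rw [Real.dist_eq, Function.comp] at h3
      have h5 := log_an_close hwQ hw hQ n
      rw [Real.log_div (an_pos hwQ n).ne' h4.ne'] at h3
      rw [Real.log_div (an_pos hw n).ne' h4.ne']
      have h6 := abs_lt.1 h3
      have h7 := abs_le.1 h5
      rw [abs_lt]
      constructor <;> linarith [h6.1, h6.2, h7.1, h7.2]
    refine ⟨max N N', fun n hn => ?_⟩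
    have h8 := abs_lt.1 (key n hn)
    have h9 := abs_lt.1 (key (max N N') le_rfl)
    rw [Real.dist_eq, abs_lt]
    constructor <;> linarith [h8.1, h8.2, h9.1, h9.2]
  obtain ⟨l, hl⟩ := cauchySeq_tendsto_of_complete hc
  refine ⟨Real.exp l, Real.exp_pos l, ?_⟩
  have h1 := (Real.continuous_exp.tendsto l).comp hl
  refine h1.congr' ?_
  filter_upwards [hcs] with n hn
  simp only [Function.comp]
  exact Real.exp_log (div_pos (an_pos hw n) hn)

end Pool.Agent.Y255.FR
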