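import Pool.Agent.Y255.FR.SV

/-!
The class (H): stability under bounded perturbations, non-emptiness, uniqueness of the recurrence
coefficients, positivity of the conjectured limit.
-/

open Polynomial MeasureTheory Filter Topology
open Pool.Agent.Results.MP_e8d659_an.NoLimit

namespace Pool.Agent.Y255.FR

theorem isWeight_of_fm {Q : ℝ → ℝ} (hQ : FiniteMoments Q) : IsWeight (weight Q) :=
  ⟨Real.measurable_exp.comp (hQ.1.const_mul (-2)), fun _ => Real.exp_pos _, hQ.2⟩

/-- Finite moments are stable under bounded perturbations. -/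
theorem fm_of_close {Q₁ Q : ℝ → ℝ} (K : ℝ) (h : FiniteMoments Q₁) (hQ : Measurable Q)
    (hK : ∀ x, |Q x - Q₁ x| ≤ K) : FiniteMoments Q := by
  refine ⟨hQ, fun k => ?_⟩
  have hm : Measurable fun x : ℝ => x ^ k * weight Q x :=
    (measurable_id.pow_const k).mul (Real.measurable_exp.comp (hQ.const_mul (-2)))
  refine Integrable.mono' (((h.2 k).norm).const_mul (Real.exp (2 * K))) hm.aestronglyMeasurable ?_
  refine Filter.Eventually.of_forall fun x => ?_
  rw [norm_mul, norm_mul]
  have e1 : ‖weight Q x‖ = weight Q x := Real.norm_of_nonneg (Real.exp_pos _).le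
  have e2 : ‖weight Q₁ x‖ = weight Q₁ x := Real.norm_of_nonneg (Real.exp_pos _).le
  rw [e1, e2]
  have e3 : weight Q x ≤ Real.exp (2 * K) * weight Q₁ x := by
    rw [weight, weight, ← Real.exp_add]
    refine Real.exp_le_exp.2 ?_
    have := (abs_le.1 (hK x)).1
    linarith
  have e4 := mul_le_mul_of_nonneg_left e3 (norm_nonneg (x ^ k))
  linarith

/-- `x^α L(x)^α` tends to infinity. -/
theorem base_tendsto {L : ℝ → ℝ} (hL : SlowlyVarying L) {α A : ℝ} (hα : 0 < α) (hA : 0 < A) :
    Tendsto (fun x => A * x ^ α * L x ^ α) atTop atTop := by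
  have h1 := ((tendsto_rpow_atTop hα).comp (mul_L_tendsto hL)).const_mul_atTop hA
  refine h1.congr' ?_
  filter_upwards [eventually_gt_atTop 0] with x hx
  simp only [Function.comp]
  rw [Real.mul_rpow hx.le (hL.2.1 x hx).le]
  ring

/-- Hypothesis (H) is stable under bounded perturbations. -/
theorem hypH_of_close {Q₁ Q L : ℝ → ℝ} {α A B : ℝ} (K : ℝ) (h : HypH Q₁ α A B L)
    (hK : ∀ x, |Q x - Q₁ x| ≤ K) : HypH Q α A B L := by
  have key : ∀ (D : ℝ) (_ : 0 < D) (R S : ℝ → ℝ) (_ : ∀ x, |S x - R x| ≤ K)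
      (_ : Tendsto (fun x => R x / (D * x ^ α * L x ^ α)) atTop (𝓝 1)),
      Tendsto (fun x => S x / (D * x ^ α * L x ^ α)) atTop (𝓝 1) := by
    intro D hD R S hRS hR
    have h1 := base_tendsto h.slow h.α_pos hD
    have h2 : Tendsto (fun x => (S x - R x) / (D * x ^ α * L x ^ α)) atTop (𝓝 0) := by
      have h3 : Tendsto (fun x => K / (D * x ^ α * L x ^ α)) atTop (𝓝 0) :=
        h1.const_div_atTop K
      refine squeeze_zero_norm' ?_ h3
      filter_upwards [h1.eventually (eventually_gt_atTop 0)] with x hx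
      rw [Real.norm_eq_abs, abs_div, abs_of_pos hx]
      exact div_le_div_of_nonneg_right (hRS x) hx.le
    have h4 := hR.add h2
    rw [add_zero] at h4
    refine h4.congr fun x => ?_
    rw [← add_div]
    congr 1
    ring
  exact ⟨h.α_pos, h.A_pos, h.B_pos, h.AB_le, h.slow, key A h.A_pos Q₁ Q hK h.right,
    key B h.B_pos (fun x => Q₁ (-x)) (fun x => Q (-x)) (fun x => hK (-x)) h.left⟩

/-- The class is non-empty for all parameters. -/
theorem class_nonempty (α A B : ℝ) (L : ℝ → ℝ) (hα : 0 < α) (hA : 0 < A) (hB : 0 < B)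
    (hAB : A / B ≤ 1) (hL : SlowlyVarying L) : ∃ Q, FiniteMoments Q ∧ HypH Q α A B L := by
  set Q : ℝ → ℝ := fun x => if 0 < x then A * x ^ α * L x ^ α else
    if x < 0 then B * (-x) ^ α * L (-x) ^ α else 0 with hQ
  have hLm := hL.1
  have hm : Measurable Q := by
    refine Measurable.ite measurableSet_Ioi ?_ (Measurable.ite measurableSet_Iio ?_ measurable_const)
    · exact ((measurable_id.pow_const α).const_mul A).mul (hLm.pow_const α)
    · exact ((measurable_neg.pow_const α).const_mul B).mul ((hLm.comp measurable_neg).pow_const α)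
  have hnn : ∀ x, 0 ≤ Q x := by
    intro x
    simp only [hQ]
    split_ifs with h1 h2
    · have := hL.2.1 x h1
      positivity
    · have h3 : 0 < -x := by linarith
      have := hL.2.1 (-x) h3
      positivity
    · exact le_rfl
  -- lower growth
  have hgrow : ∀ D : ℝ, 0 < D → ∃ X : ℝ, 0 < X ∧ ∀ x, X ≤ x →
      x ^ (α / 4) ≤ D * x ^ α * L x ^ α := by
    intro D hD
    obtain ⟨C, hC⟩ := lf_growth hL
    have h1 : ∀ᶠ y : ℝ in atTop, α / 4 * y ≤ Real.log D + α * (y + lf L y) := by
      filter_upwards [hC, eventually_ge_atTop (4 / α * (α * C - Real.log D))] with y e1 e2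
      have e3 : α * (y / 2 - C) ≤ α * (y + lf L y) := mul_le_mul_of_nonneg_left e1 hα.le
      have e4 : α * C - Real.log D ≤ α / 4 * y := by
        have := mul_le_mul_of_nonneg_left e2 (by positivity : 0 ≤ α / 4)
        have e5 : α / 4 * (4 / α * (α * C - Real.log D)) = α * C - Real.log D := by field_simp
        rwa [e5] at this
      linarith
    have h2 := Real.tendsto_log_atTop.eventually h1
    obtain ⟨X, hX⟩ := eventually_atTop.1 h2
    refine ⟨max X 1, by positivity, fun x hx => ?_⟩
    have hx1 : 0 < x := lt_of_lt_of_le one_pos ((le_max_right _ _).trans hx)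
    have h3 := hX x ((le_max_left _ _).trans hx)
    have hLx := hL.2.1 x hx1
    have h4 := Real.exp_le_exp.2 h3
    have e1 : Real.exp (α / 4 * Real.log x) = x ^ (α / 4) := by
      rw [Real.rpow_def_of_pos hx1, mul_comm]
    have e2 : Real.exp (Real.log D + α * (Real.log x + lf L (Real.log x))) =
        D * x ^ α * L x ^ α := by
      rw [lf, Real.exp_log hx1, Real.exp_add, Real.exp_log hD, mul_add, Real.exp_add,
        Real.rpow_def_of_pos hx1, Real.rpow_def_of_pos hLx, mul_comm α (Real.log x),
        mul_comm α (Real.log (L x))]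
      ring
    rwa [e1, e2] at h4
  obtain ⟨X1, hX1, hg1⟩ := hgrow A hA
  obtain ⟨X2, hX2, hg2⟩ := hgrow B hB
  have hlow : ∀ x, max X1 X2 ≤ |x| → |x| ^ (α / 4) ≤ Q x := by
    intro x hx
    have hx0 : 0 < |x| := lt_of_lt_of_le hX1 ((le_max_left _ _).trans hx)
    rcases lt_or_gt_of_ne (abs_pos.1 hx0) with h | h
    · rw [abs_of_neg h] at hx ⊢
      simp only [hQ]
      rw [if_neg (by linarith), if_pos h]
      exact hg2 _ ((le_max_right _ _).trans hx)
    · rw [abs_of_pos h] at hx ⊢
      simp only [hQ]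
      rw [if_pos h]
      exact hg1 _ ((le_max_left _ _).trans hx)
  have hα4 : 0 < α / 4 := by positivity
  refine ⟨Q, ⟨hm, fun k => ?_⟩, ⟨hα, hA, hB, hAB, hL, ?_, ?_⟩⟩
  · have hmm : Measurable fun x : ℝ => x ^ k * weight Q x :=
      (measurable_id.pow_const k).mul (Real.measurable_exp.comp (hm.const_mul (-2)))
    set X := max X1 X2 with hX
    have hX0 : 0 < X := lt_of_lt_of_le hX1 (le_max_left _ _)
    refine Integrable.mono' ((((weight_base_isWeight (α / 4) hα4).mom k).norm).const_mul
      (Real.exp (2 * X ^ (α / 4)))) hmm.aestronglyMeasurable ?_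
    refine Filter.Eventually.of_forall fun x => ?_
    rw [norm_mul, norm_mul]
    have e1 : ‖weight Q x‖ = weight Q x := Real.norm_of_nonneg (Real.exp_pos _).le
    have e2 : ‖weight (fun x => |x| ^ (α / 4)) x‖ = weight (fun x => |x| ^ (α / 4)) x :=
      Real.norm_of_nonneg (Real.exp_pos _).le
    rw [e1, e2]
    have e3 : weight Q x ≤ Real.exp (2 * X ^ (α / 4)) * weight (fun x => |x| ^ (α / 4)) x := by
      rw [weight, weight, ← Real.exp_add]
      refine Real.exp_le_exp.2 ?_
      rcases le_total X |x| with h | h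
      · have := hlow x h
        have h5 : 0 ≤ X ^ (α / 4) := by positivity
        linarith
      · have h5 : |x| ^ (α / 4) ≤ X ^ (α / 4) := Real.rpow_le_rpow (abs_nonneg x) h hα4.le
        have := hnn x
        linarith
    have e4 := mul_le_mul_of_nonneg_left e3 (norm_nonneg (x ^ k))
    linarith
  · refine tendsto_const_nhds.congr' ?_
    filter_upwards [eventually_gt_atTop 0] with x hx
    have := hL.2.1 x hx
    simp only [hQ]
    rw [if_pos hx, div_self (by positivity)]
  · refine tendsto_const_nhds.congr' ?_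
    filter_upwards [eventually_gt_atTop 0] with x hx
    have := hL.2.1 x hx
    simp only [hQ]
    rw [if_neg (by linarith), if_pos (by linarith), neg_neg, div_self (by positivity)]

/-! Uniqueness of the orthonormal polynomials and of the recurrence coefficients. -/

theorem orth_lower' {Q : ℝ → ℝ} (hw : IsWeight (weight Q)) {p : ℕ → ℝ[X]}
    (hp : IsOrthonormal Q p) (n : ℕ) : ∀ m, m ≤ n → ∀ R : ℝ[X], R.degree < (m : WithBot ℕ) →
      B (weight Q) R (p n) = 0 := by
  intro m
  induction m with
  | zero =>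
    intro _ R hR
    have : R = 0 := by
      rw [← degree_eq_bot]
      exact Nat.WithBot.lt_zero_iff.1 (by exact_mod_cast hR)
    rw [this]
    simp [B]
  | succ m ih =>
    intro hm R hR
    have hl := (hp.1 m).2
    set c := R.coeff m / (p m).leadingCoeff with hc
    have hR' : (R - C c * p m).degree < (m : WithBot ℕ) := by
      rw [degree_lt_iff_coeff_zero]
      intro k hk
      rw [coeff_sub, coeff_C_mul]
      rcases Nat.lt_or_ge m k with h | h
      · rw [(degree_lt_iff_coeff_zero R (m + 1)).1 hR k h,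
          coeff_eq_zero_of_natDegree_lt (p := p m) (by rw [(hp.1 m).1]; exact h)]
        ring
      · have hkm : k = m := by omega
        rw [hkm]
        have h1 : (p m).coeff m = (p m).leadingCoeff := by
          rw [leadingCoeff, (hp.1 m).1]
        rw [h1, hc]
        field_simp
        ring
    have h2 := ih (by omega) _ hR'
    have h3 : B (weight Q) (p m) (p n) = 0 := by
      have := hp.2 m n
      rw [if_neg (by omega)] at this
      exact this
    rw [B_sub_left hw, B_C_mul_left, h3] at h2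
    linarith

theorem p_unique {Q : ℝ → ℝ} (hw : IsWeight (weight Q)) {p : ℕ → ℝ[X]}
    (hp : IsOrthonormal Q p) (n : ℕ) : p n = pn (weight Q) n := by
  set w := weight Q with hwdef
  have hl := (hp.1 n).2
  set l := (p n).leadingCoeff with hldef
  have hh := hn_pos hw n
  have hqd : (C l⁻¹ * p n).natDegree = n := by
    rw [natDegree_C_mul (inv_ne_zero hl.ne'), (hp.1 n).1]
  have hqm : (C l⁻¹ * p n).Monic := by
    rw [Monic, leadingCoeff_mul, leadingCoeff_C, ← hldef]
    exact inv_mul_cancel₀ hl.ne'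
  set R := C l⁻¹ * p n - op w n with hR
  have hdeg : R.degree < (n : WithBot ℕ) :=
    degree_monic_sub_lt hqm (op_monic w n).1 hqd (op_monic w n).2
  have h1 : B w R (p n) = 0 := orth_lower' hw hp n n le_rfl R hdeg
  have h2 : B w R (op w n) = 0 := op_orth_lower hw n n le_rfl R hdeg
  have h3 : B w R R = 0 := by
    have : B w R R = B w R (C l⁻¹ * p n) - B w R (op w n) := by rw [← B_sub_right hw]
    rw [this, B_C_mul_right, h1, h2]
    ring
  have hR0 : R = 0 := by
    by_contra hne
    have := B_pos hw hne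
    linarith
  have h4 : C l⁻¹ * p n = op w n := sub_eq_zero.1 hR0
  have h5 : p n = C l * op w n := by
    rw [← h4, ← mul_assoc, ← C_mul, mul_inv_cancel₀ hl.ne', C_1, one_mul]
  have h6 : l ^ 2 * hn w n = 1 := by
    have h7 : B w (p n) (p n) = 1 := by
      have := hp.2 n n
      rw [if_pos rfl] at this
      exact this
    rw [h5, B_C_mul_left, B_C_mul_right] at h7
    rw [hn]
    linarith
  have h8 : l = 1 / √(hn w n) := by
    have s0 := Real.sqrt_pos.2 hh
    have h9 : (l * √(hn w n)) ^ 2 = 1 := by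
      rw [mul_pow, Real.sq_sqrt hh.le]; exact h6
    have h10 : l * √(hn w n) = 1 := by
      have h11 : 0 < l * √(hn w n) := by positivity
      nlinarith only [h9, h11]
    field_simp
    linarith
  rw [h5, pn, ← h8]

theorem coeff_unique {Q : ℝ → ℝ} (hw : IsWeight (weight Q)) {p : ℕ → ℝ[X]} {a b : ℕ → ℝ}
    (hp : IsOrthonormal Q p) (hr : IsRecurrence p a b) :
    (∀ n, a (n + 1) = an (weight Q) (n + 1)) ∧ ∀ n, b n = bn (weight Q) n := by
  set w := weight Q with hwdef
  have hpe : ∀ n, p n = pn w n := p_unique hw hp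
  -- the relation for n + 1
  have h1 : ∀ n, a (n + 2) = an w (n + 2) ∧ b (n + 1) = bn w (n + 1) := by
    intro n
    have h2 := hr.2.2 n
    rw [hpe, hpe, hpe, X_mul_pn hw] at h2
    have h3 := congrArg (fun q => B w q (pn w (n + 2))) h2
    have h4 := congrArg (fun q => B w q (pn w (n + 1))) h2
    simp only [B_add_left hw, B_C_mul_left, pn_orthonormal hw] at h3 h4
    have f1 : ¬ (n + 1 = n + 2) := by omega
    have f2 : ¬ (n = n + 2) := by omega
    have f3 : ¬ (n + 2 = n + 1) := by omega
    have f4 : ¬ (n = n + 1) := by omega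
    simp only [f1, f2, f3, f4, if_true, if_false] at h3 h4
    constructor <;> linarith
  have h5 : a 1 = an w 1 ∧ b 0 = bn w 0 := by
    have h2 := hr.2.1
    rw [hpe, hpe, X_mul_pn_zero hw] at h2
    have h3 := congrArg (fun q => B w q (pn w 1)) h2
    have h4 := congrArg (fun q => B w q (pn w 0)) h2
    simp only [B_add_left hw, B_C_mul_left, pn_orthonormal hw] at h3 h4
    have f1 : ¬ ((0 : ℕ) = 1) := by omega
    have f2 : ¬ ((1 : ℕ) = 0) := by omega
    simp only [f1, f2, if_true, if_false] at h3 h4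
    constructor <;> linarith
  constructor
  · intro n
    rcases n with _ | n
    · exact h5.1
    · exact (h1 n).1
  · intro n
    rcases n with _ | n
    · exact h5.2
    · exact (h1 n).2

/-! Positivity of the conjectured limit of `a_n / c_n`. -/

theorem F21_pos' (α : ℝ) (hα : 0 < α) (c : ℝ) (hc : 0 ≤ c) : 0 < F21 α (-c) := by
  rw [F21]
  refine mul_pos (div_pos (Real.Gamma_pos_of_pos (by linarith))
    (mul_pos (Real.Gamma_pos_of_pos hα) (Real.Gamma_pos_of_pos (by norm_num)))) ?_
  have h1 : IntervalIntegrable (fun t : ℝ => t ^ (α - 1) * (1 - t) ^ (-(1 / 2) : ℝ)) volume 0 1 := by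
    have h2 := Complex.betaIntegral_convergent (u := (α : ℂ)) (v := ((1 / 2 : ℝ) : ℂ))
      (by simpa using hα) (by rw [Complex.ofReal_re]; norm_num)
    have h3 := h2.norm
    rw [intervalIntegrable_iff_integrableOn_Ioo_of_le zero_le_one] at h3 ⊢
    refine h3.congr_fun (fun t ht => ?_) measurableSet_Ioo
    obtain ⟨ht0, ht1⟩ := ht
    have ht1' : 0 < 1 - t := by linarith
    simp only [norm_mul]
    have e1 : ‖(t : ℂ) ^ ((α : ℂ) - 1)‖ = t ^ (α - 1) := by
      rw [Complex.norm_cpow_eq_rpow_re_of_pos ht0]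
      simp
    have e2 : ‖(1 - (t : ℂ)) ^ (((1 / 2 : ℝ) : ℂ) - 1)‖ = (1 - t) ^ (-(1 / 2) : ℝ) := by
      have : (1 - (t : ℂ)) = ((1 - t : ℝ) : ℂ) := by push_cast; ring
      rw [this, Complex.norm_cpow_eq_rpow_re_of_pos ht1']
      congr 1
      rw [Complex.sub_re, Complex.ofReal_re, Complex.one_re]
      norm_num
    rw [e1, e2]
  refine intervalIntegral.intervalIntegral_pos_of_pos_on (h1.mul_continuousOn ?_) ?_ zero_lt_one
  · refine ContinuousOn.rpow_const (by fun_prop) fun t ht => ?_
    left
    rw [Set.uIcc_of_le zero_le_one] at ht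
    have h2 := mul_nonneg hc ht.1
    have : 0 < 1 - -c * t := by linarith
    exact this.ne'
  · intro t ht
    obtain ⟨ht0, ht1⟩ := ht
    have h1 : 0 < 1 - t := by linarith
    have h2 : 0 < 1 - -c * t := by
      have := mul_nonneg hc ht0.le
      linarith
    positivity

theorem limA_pos' (α A B c : ℝ) (hα : 0 < α) (hA : 0 < A) (hc : IsC α A B c) : 0 < limA α A c := by
  have hc0 : 0 < c := by
    rcases lt_or_ge (1 / 2) α with h | h
    · exact (hc.1 (Or.inl h)).1
    · rcases lt_or_ge (Real.cos (Real.pi * α)) (A / B) with h2 | h2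
      · exact (hc.1 (Or.inr ⟨h, h2⟩)).1
      · rw [hc.2 ⟨h, h2⟩]; exact one_pos
  have h1 : 0 < Kconst α A c := by
    rw [Kconst]
    have h2 := F21_pos' α hα c hc0.le
    have h3 := Real.Gamma_pos_of_pos hα
    have h4 := Real.Gamma_pos_of_pos (by linarith : 0 < α + 1 / 2)
    have h5 := Real.sqrt_pos.2 Real.pi_pos
    have : 0 < √Real.pi / A * (Real.Gamma α / Real.Gamma (α + 1 / 2)) := by positivity
    exact mul_pos this h2
  rw [limA]
  have := Real.rpow_pos_of_pos h1 (1 / α)
  positivity

end Pool.Agent.Y255.FR
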