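import Pool.Agent.Y255.FR.StepC

/-!
Lower bound for the distance of consecutive densities outside a bounded set, for every weight with
`a_{n+1}/a_n → 1` and `a_n → ∞`. Nothing is assumed about the diagonal coefficients `b_n`.
-/

open Polynomial MeasureTheory Filter Topology
open Pool.Agent.Results.MP_e8d659_an.NoLimit

namespace Pool.Agent.Y255.FR

theorem num_contra (r3 r4 r1 p q θ D1 D2 m : ℝ) (h3 : |r3 - 1| ≤ 1 / 10000)
    (h4 : |r4 - 1| ≤ 1 / 10000) (h1 : |r1 - 1| ≤ 1 / 10000) (hp : |p| ≤ 1 / 10) (hq : |q| ≤ 1 / 10)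
    (hθ : |θ| ≤ 3) (hD1 : D1 ≤ 1 / 20000) (hD2 : D2 ≤ 1 / 20000) (hm : m ≤ 1 / 10000)
    (h : 4 * (r3 ^ 2 + 1) - ((r3 * r4) ^ 2 + (r3 * p) ^ 2 + (r3 ^ 2 + 1) ^ 2 + q ^ 2 + r1 ^ 2) +
      θ * (r3 ^ 2 * p + q) ≤ 136 * (r3 ^ 2 * D2 + D1 + |r3 ^ 2 - 1|) + 48 * m +
        1 / 4 * (r3 ^ 2 + 1)) : False := by
  have a3 := abs_le.1 h3
  have a4 := abs_le.1 h4
  have a1 := abs_le.1 h1
  have ap := abs_le.1 hp
  have aq := abs_le.1 hq
  have b3 : r3 ^ 2 ≤ 10003 / 10000 := by nlinarith only [a3.1, a3.2]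
  have b3' : 9997 / 10000 ≤ r3 ^ 2 := by nlinarith only [a3.1, a3.2]
  have b4 : r4 ^ 2 ≤ 10003 / 10000 := by nlinarith only [a4.1, a4.2]
  have b1 : r1 ^ 2 ≤ 10003 / 10000 := by nlinarith only [a1.1, a1.2]
  have bp : p ^ 2 ≤ 1 / 100 := by nlinarith only [ap.1, ap.2]
  have bq : q ^ 2 ≤ 1 / 100 := by nlinarith only [aq.1, aq.2]
  have c1 : (r3 * r4) ^ 2 ≤ 10007 / 10000 := by
    rw [mul_pow]
    nlinarith only [b3, b4, b3', sq_nonneg r4]
  have c2 : (r3 * p) ^ 2 ≤ 11 / 1000 := by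
    rw [mul_pow]
    nlinarith only [b3, bp, b3', sq_nonneg p]
  have c3 : (r3 ^ 2 + 1) ^ 2 ≤ 40013 / 10000 := by nlinarith only [b3, b3']
  have c4 : |r3 ^ 2 - 1| ≤ 3 / 10000 := by rw [abs_le]; constructor <;> linarith only [b3, b3']
  have c5 : |r3 ^ 2 * p + q| ≤ 201 / 1000 := by
    refine (abs_add_le _ _).trans ?_
    rw [abs_mul, abs_of_nonneg (sq_nonneg r3)]
    nlinarith only [b3, hp, hq, abs_nonneg p, b3']
  have c6 : -(603 / 1000) ≤ θ * (r3 ^ 2 * p + q) := by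
    have h5 := neg_abs_le (θ * (r3 ^ 2 * p + q))
    rw [abs_mul] at h5
    have h6 : |θ| * |r3 ^ 2 * p + q| ≤ 3 * (201 / 1000) :=
      mul_le_mul hθ c5 (abs_nonneg _) (by norm_num)
    linarith only [h5, h6]
  have c7 : r3 ^ 2 * D2 ≤ 2 / 20000 := by nlinarith only [b3, b3', hD2]
  linarith only [h, c1, c2, c3, c4, c6, c7, b3, b3', b1, bq, hD1, hm]

variable {w : ℝ → ℝ}

theorem D_lower_gen (hw : IsWeight w)
    (h1 : Tendsto (fun n => an w (n + 1) / an w n) atTop (𝓝 1))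
    (h2 : Tendsto (an w) atTop atTop) (M : ℝ) (hM : 0 ≤ M) :
    ∀ᶠ n in atTop, 1 / 20000 ≤ Dn w M (n + 1) ∨ 1 / 20000 ≤ Dn w M (n + 2) := by
  have r3 : Tendsto (fun n => an w (n + 3) / an w (n + 2)) atTop (𝓝 1) :=
    h1.comp (tendsto_add_atTop_nat 2)
  have r3' : Tendsto (fun n => an w (n + 4) / an w (n + 3)) atTop (𝓝 1) :=
    h1.comp (tendsto_add_atTop_nat 3)
  have r4 : Tendsto (fun n => an w (n + 4) / an w (n + 2)) atTop (𝓝 1) := by
    have := r3'.mul r3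
    rw [mul_one] at this
    refine this.congr fun n => ?_
    have := (an_pos hw (n + 3)).ne'
    have := (an_pos hw (n + 2)).ne'
    field_simp
  have r1 : Tendsto (fun n => an w (n + 1) / an w (n + 2)) atTop (𝓝 1) := by
    have := (h1.comp (tendsto_add_atTop_nat 1)).inv₀ one_ne_zero
    rw [inv_one] at this
    refine this.congr fun n => ?_
    simp only [Function.comp]
    rw [inv_div]
  have hball : ∀ u : ℕ → ℝ, Tendsto u atTop (𝓝 1) → ∀ᶠ n in atTop, |u n - 1| ≤ 1 / 10000 := by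
    intro u hu
    have h3 := (hu.sub_const 1).abs
    rw [sub_self, abs_zero] at h3
    exact h3.eventually (ge_mem_nhds (by norm_num))
  have hlarge : ∀ᶠ n in atTop, M * 10000 ≤ an w (n + 2) :=
    (h2.comp (tendsto_add_atTop_nat 2)).eventually (eventually_ge_atTop _)
  filter_upwards [hball _ r3, hball _ r4, hball _ r1, hlarge] with n e3 e4 e1 hMa
  by_contra hcon
  rw [not_or, not_le, not_le] at hcon
  obtain ⟨hD1, hD2⟩ := hcon
  have hD1n : 0 ≤ Dn w M (n + 1) := integral_nonneg fun x => abs_nonneg _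
  have hD2n : 0 ≤ Dn w M (n + 2) := integral_nonneg fun x => abs_nonneg _
  have hG := G_ineq hw M n
  have hb1 := bdiff hw M hM n (200 * an w (n + 2)) (by have := an_pos hw (n + 2); positivity)
  have hb2 := bdiff hw M hM (n + 1) (200 * an w (n + 2)) (by have := an_pos hw (n + 2); positivity)
  have f1 : n + 1 + 1 = n + 2 := rfl
  have f2 : n + 1 + 2 = n + 3 := rfl
  have f3 : n + 1 + 3 = n + 4 := rfl
  rw [f1, f2, f3] at hb2
  have hapos : 0 < an w (n + 2) := an_pos hw _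
  have g3 : an w (n + 3) = an w (n + 3) / an w (n + 2) * an w (n + 2) := by field_simp
  have g4 : an w (n + 4) = an w (n + 4) / an w (n + 2) * an w (n + 2) := by field_simp
  have g1 : an w (n + 1) = an w (n + 1) / an w (n + 2) * an w (n + 2) := by field_simp
  generalize an w (n + 3) / an w (n + 2) = ρ3 at *
  generalize an w (n + 4) / an w (n + 2) = ρ4 at *
  generalize an w (n + 1) / an w (n + 2) = ρ1 at *
  rw [g3, g4, g1] at hG
  rw [g3, g1] at hb1
  rw [g3, g4] at hb2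
  generalize an w (n + 2) = a at *
  generalize bn w (n + 2) = b at *
  generalize bn w (n + 3) = b3 at *
  generalize bn w (n + 1) = b1 at *
  generalize Dn w M (n + 1) = D1 at *
  generalize Dn w M (n + 2) = D2 at *
  have a3 := abs_le.1 e3
  have a4 := abs_le.1 e4
  have a1 := abs_le.1 e1
  have s3 : ρ3 ^ 2 ≤ 10003 / 10000 := by nlinarith only [a3.1, a3.2]
  have s4 : ρ4 ^ 2 ≤ 10003 / 10000 := by nlinarith only [a4.1, a4.2]
  have s1 : ρ1 ^ 2 ≤ 10003 / 10000 := by nlinarith only [a1.1, a1.2]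
  have hfrac : ∀ c : ℝ, c ≤ 4002 / 1000 → (c * a ^ 2) / (200 * a) ≤ 21 / 1000 * a := by
    intro c hc
    rw [div_le_iff₀ (by positivity)]
    nlinarith only [hc, sq_nonneg a]
  -- bounds for the differences of diagonal coefficients
  have hp : |b3 - b| ≤ 1 / 10 * a := by
    have h5 := hfrac ((ρ4 ^ 2 + ρ3 ^ 2) + (ρ3 ^ 2 + 1)) (by linarith only [s3, s4])
    have h6 : ((ρ4 * a) ^ 2 + (ρ3 * a) ^ 2 + ((ρ3 * a) ^ 2 + a ^ 2)) / (200 * a) =
        (((ρ4 ^ 2 + ρ3 ^ 2) + (ρ3 ^ 2 + 1)) * a ^ 2) / (200 * a) := by ring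
    rw [h6] at hb2
    have h7 : (|b3 - b| + 2 * (200 * a)) * D2 ≤ (|b3 - b| + 2 * (200 * a)) * (1 / 20000) :=
      mul_le_mul_of_nonneg_left hD2.le (by positivity)
    linarith only [hb2, h5, h7, hMa, hapos]
  have hq : |b1 - b| ≤ 1 / 10 * a := by
    have h5 := hfrac ((ρ3 ^ 2 + 1) + (1 + ρ1 ^ 2)) (by linarith only [s3, s1])
    have h6 : ((ρ3 * a) ^ 2 + a ^ 2 + (a ^ 2 + (ρ1 * a) ^ 2)) / (200 * a) =
        (((ρ3 ^ 2 + 1) + (1 + ρ1 ^ 2)) * a ^ 2) / (200 * a) := by ring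
    rw [h6] at hb1
    have h7 : (|b - b1| + 2 * (200 * a)) * D1 ≤ (|b - b1| + 2 * (200 * a)) * (1 / 20000) :=
      mul_le_mul_of_nonneg_left hD1.le (by positivity)
    rw [abs_sub_comm]
    linarith only [hb1, h5, h7, hMa, hapos]
  -- the choice of θ
  obtain ⟨θ, hθ, hin⟩ : ∃ θ : ℝ, |θ| ≤ 3 ∧ ∀ x, |x| ≤ M → (x - b) * (x - b - θ * a) *
      (4 * a ^ 2 - (x - b) ^ 2) ≤ 48 * M * a ^ 3 := by
    have hκ : 0 ≤ 48 * M * a ^ 3 := by positivity
    rcases le_or_gt (|b|) (3 * a) with hc | hc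
    · refine ⟨-(b / a), ?_, ?_⟩
      · rw [abs_neg, abs_div, abs_of_pos hapos, div_le_iff₀ hapos]
        exact hc
      · intro x hx
        have h5 : x - b - -(b / a) * a = x := by field_simp; ring
        rw [h5]
        have h6 : |x - b| ≤ 4 * a := by
          have := abs_sub x b
          linarith only [this, hc, hx, hMa, hM, hapos]
        have h7 : |4 * a ^ 2 - (x - b) ^ 2| ≤ 12 * a ^ 2 := by
          have h8 := abs_le.1 h6
          rw [abs_le]
          constructor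
          · nlinarith only [h8.1, h8.2]
          · nlinarith only [sq_nonneg (x - b), sq_nonneg a]
        have h9 : |(x - b) * x * (4 * a ^ 2 - (x - b) ^ 2)| ≤ (4 * a * M) * (12 * a ^ 2) := by
          rw [abs_mul, abs_mul]
          exact mul_le_mul (mul_le_mul h6 hx (abs_nonneg _) (by positivity)) h7 (abs_nonneg _)
            (by positivity)
        have h10 := le_abs_self ((x - b) * x * (4 * a ^ 2 - (x - b) ^ 2))
        linarith only [h9, h10]
    · refine ⟨0, by norm_num, ?_⟩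
      intro x hx
      have h5 : (2 * a) ^ 2 ≤ (x - b) ^ 2 := by
        have h6 : |b| ≤ |x - b| + |x| := by
          have := abs_sub (x - b) x
          have e : x - b - x = -b := by ring
          rw [e, abs_neg] at this
          exact this
        have h7 : 2 * a ≤ |x - b| := by linarith only [h6, hc, hx, hMa, hM, hapos]
        rw [← sq_abs (x - b)]
        exact pow_le_pow_left₀ (by positivity) h7 2
      have h8 : (x - b) * (x - b - 0 * a) * (4 * a ^ 2 - (x - b) ^ 2) =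
          -((x - b) ^ 2 * ((x - b) ^ 2 - (2 * a) ^ 2)) := by ring
      rw [h8]
      have h9 : 0 ≤ (x - b) ^ 2 * ((x - b) ^ 2 - (2 * a) ^ 2) :=
        mul_nonneg (sq_nonneg _) (sub_nonneg.2 h5)
      linarith only [h9, hκ]
  have hG' := hG θ (48 * M * a ^ 3) hθ (by positivity) hin
  -- scaling
  have ha4 : 0 < a ^ 4 := by positivity
  have hb3' : b3 - b = (b3 - b) / a * a := by field_simp
  have hb1' : b1 - b = (b1 - b) / a * a := by field_simp
  have hM' : M = M / a * a := by field_simp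
  have hp' : |(b3 - b) / a| ≤ 1 / 10 := by
    rw [abs_div, abs_of_pos hapos, div_le_iff₀ hapos]; exact hp
  have hq' : |(b1 - b) / a| ≤ 1 / 10 := by
    rw [abs_div, abs_of_pos hapos, div_le_iff₀ hapos]; exact hq
  have hm' : M / a ≤ 1 / 10000 := by
    rw [div_le_iff₀ hapos]; linarith only [hMa]
  rw [hb3', hb1'] at hG'
  have hκ' : 48 * M * a ^ 3 = 48 * (M / a) * a ^ 4 := by field_simp
  rw [hκ'] at hG'
  generalize (b3 - b) / a = p at *
  generalize (b1 - b) / a = q at *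
  generalize M / a = m at *
  have hsq : |(ρ3 * a) ^ 2 - a ^ 2| = |ρ3 ^ 2 - 1| * a ^ 2 := by
    rw [show (ρ3 * a) ^ 2 - a ^ 2 = (ρ3 ^ 2 - 1) * a ^ 2 by ring, abs_mul,
      abs_of_nonneg (sq_nonneg a)]
  rw [hsq] at hG'
  have hfin : a ^ 4 * (4 * (ρ3 ^ 2 + 1) - ((ρ3 * ρ4) ^ 2 + (ρ3 * p) ^ 2 + (ρ3 ^ 2 + 1) ^ 2 + q ^ 2 +
      ρ1 ^ 2) + θ * (ρ3 ^ 2 * p + q)) ≤ a ^ 4 * (136 * (ρ3 ^ 2 * D2 + D1 + |ρ3 ^ 2 - 1|) + 48 * m +
        1 / 4 * (ρ3 ^ 2 + 1)) := by
    linarith only [hG']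
  exact num_contra ρ3 ρ4 ρ1 p q θ D1 D2 m e3 e4 e1 hp' hq' hθ hD1.le hD2.le hm'
    (le_of_mul_le_mul_left hfin ha4)

end Pool.Agent.Y255.FR
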