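import Pool.Agent.Results.MP_e8d659_an.NoLimit

/-!
A smooth gliding hump for two sequences of integrable functions whose mass outside every bounded
set does not tend to zero.
-/

open Polynomial MeasureTheory Filter Topology
open Pool.Agent.Results.MP_e8d659_an.NoLimit
open scoped ContDiff Convolution

namespace Pool.Agent.Y255.FR

/-- Mollification of a bounded function. -/
theorem smooth_hump (f : ℝ → ℝ) (hf : Integrable f) (hfm : Measurable f) (M : ℝ)
    (δ : ℝ) (h : δ ≤ ∫ x in {x : ℝ | M < |x|}, |f x|) (η : ℝ) (hη : 0 < η) :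
    ∃ (M' : ℝ) (g : ℝ → ℝ), ContDiff ℝ ∞ g ∧ (∀ x, |g x| ≤ 1) ∧ (∀ x, |x| ≤ M → g x = 0) ∧
      (∀ x, M' ≤ |x| → g x = 0) ∧ δ - η ≤ ∫ x, f x * g x := by
  -- the annulus
  set A : ℕ → Set ℝ := fun k => {x : ℝ | M + 1 / ((k : ℝ) + 1) < |x| ∧ |x| < (k : ℝ)} with hA
  have hAm : ∀ k, MeasurableSet (A k) := fun k =>
    (measurableSet_lt measurable_const measurable_norm).inter
      (measurableSet_lt measurable_norm measurable_const)
  have hmono : Monotone A := by
    intro i j hij x hx
    have h1 : (i : ℝ) ≤ j := by exact_mod_cast hij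
    refine ⟨lt_of_le_of_lt ?_ hx.1, lt_of_lt_of_le hx.2 h1⟩
    have : 1 / ((j : ℝ) + 1) ≤ 1 / ((i : ℝ) + 1) :=
      one_div_le_one_div_of_le (by positivity) (by linarith)
    linarith
  have hU : (⋃ k, A k) = {x : ℝ | M < |x|} := by
    ext x
    simp only [hA, Set.mem_iUnion, Set.mem_ofPred_eq]
    constructor
    · rintro ⟨k, hk, -⟩
      have : 0 < 1 / ((k : ℝ) + 1) := by positivity
      linarith
    · intro hx
      obtain ⟨k1, hk1⟩ := exists_nat_one_div_lt (sub_pos.2 hx)
      obtain ⟨k2, hk2⟩ := exists_nat_gt |x|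
      refine ⟨max k1 k2, ?_, ?_⟩
      · have h1 : (k1 : ℝ) ≤ ((max k1 k2 : ℕ) : ℝ) := by exact_mod_cast le_max_left _ _
        have h2 : 1 / (((max k1 k2 : ℕ) : ℝ) + 1) ≤ 1 / ((k1 : ℝ) + 1) :=
          one_div_le_one_div_of_le (by positivity) (by linarith)
        linarith
      · have h1 : (k2 : ℝ) ≤ ((max k1 k2 : ℕ) : ℝ) := by exact_mod_cast le_max_right _ _
        linarith
  have hlim := tendsto_setIntegral_of_monotone (μ := volume) (f := fun x => |f x|) hAm hmono
    hf.abs.integrableOn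
  rw [hU] at hlim
  obtain ⟨k, hk⟩ := (hlim.eventually (lt_mem_nhds (by linarith : δ - η / 2 <
    ∫ x in {x : ℝ | M < |x|}, |f x|))).exists
  -- the sign function on the annulus
  set s : ℝ → ℝ := (A k).indicator (fun x => sg (f x)) with hs
  have hsm : Measurable s := (sg_meas.comp hfm).indicator (hAm k)
  have hs1 : ∀ x, |s x| ≤ 1 := by
    intro x
    simp only [hs, Set.indicator_apply]
    split_ifs
    · exact abs_sg _
    · simp
  have hfs : ∫ x, f x * s x = ∫ x in A k, |f x| := by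
    rw [← integral_indicator (hAm k)]
    congr 1
    funext x
    simp only [hs, Set.indicator_apply]
    split_ifs
    · exact mul_sg _
    · ring
  have hsloc : LocallyIntegrable s := by
    refine (locallyIntegrable_const (1 : ℝ)).mono hsm.aestronglyMeasurable ?_
    exact Filter.Eventually.of_forall fun x => by
      rw [Real.norm_eq_abs, norm_one]; exact hs1 x
  -- bump functions
  have hr : ∀ i : ℕ, 0 < 1 / (2 * ((i : ℝ) + 1)) ∧ 1 / (2 * ((i : ℝ) + 1)) < 1 / ((i : ℝ) + 1) := by
    intro i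
    refine ⟨by positivity, ?_⟩
    exact one_div_lt_one_div_of_lt (by positivity) (by linarith [Nat.cast_nonneg (α := ℝ) i])
  set φ : ℕ → ContDiffBump (0 : ℝ) := fun i =>
    ⟨1 / (2 * ((i : ℝ) + 1)), 1 / ((i : ℝ) + 1), (hr i).1, (hr i).2⟩ with hφ
  have hφ0 : Tendsto (fun i => (φ i).rOut) atTop (𝓝 0) := tendsto_one_div_add_atTop_nhds_zero_nat
  have hφ1 : ∀ᶠ i in atTop, (φ i).rOut ≤ 2 * (φ i).rIn := by
    refine Filter.Eventually.of_forall fun i => ?_
    show 1 / ((i : ℝ) + 1) ≤ 2 * (1 / (2 * ((i : ℝ) + 1)))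
    refine le_of_eq ?_
    field_simp
  have hae := ContDiffBump.ae_convolution_tendsto_right_of_locallyIntegrable (μ := volume) hφ0 hφ1
    hsloc
  set g : ℕ → ℝ → ℝ := fun i => ((φ i).normed volume ⋆[ContinuousLinearMap.lsmul ℝ ℝ, volume] s)
    with hg
  have hgc : ∀ i, ContDiff ℝ ∞ (g i) := fun i =>
    (φ i).hasCompactSupport_normed.contDiff_convolution_left _ (φ i).contDiff_normed hsloc
  have hg1 : ∀ i x, |g i x| ≤ 1 := by
    intro i x
    have h1 := dist_convolution_le (μ := volume) (f := (φ i).normed volume) (x₀ := x) (z₀ := (0 : ℝ))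
      (g := s) zero_le_one (φ i).support_normed_eq.subset (φ i).nonneg_normed (φ i).integral_normed
      hsm.aestronglyMeasurable (fun y _ => by rw [dist_zero_right]; exact hs1 y)
    rw [dist_zero_right] at h1
    exact h1
  have hdct : Tendsto (fun i => ∫ x, f x * g i x) atTop (𝓝 (∫ x, f x * s x)) := by
    refine tendsto_integral_of_dominated_convergence (fun x => |f x|) ?_ hf.abs ?_ ?_
    · intro i
      exact (hf.aestronglyMeasurable).mul (hgc i).continuous.aestronglyMeasurable
    · intro i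
      refine Filter.Eventually.of_forall fun x => ?_
      rw [Real.norm_eq_abs, abs_mul]
      calc |f x| * |g i x| ≤ |f x| * 1 := mul_le_mul_of_nonneg_left (hg1 i x) (abs_nonneg _)
        _ = |f x| := mul_one _
    · filter_upwards [hae] with x hx
      exact hx.const_mul (f x)
  rw [hfs] at hdct
  obtain ⟨i, hi1, hi2⟩ := ((hdct.eventually (lt_mem_nhds (by linarith : δ - η <
    ∫ x in A k, |f x|))).and (eventually_ge_atTop k)).exists
  have hik : 1 / ((i : ℝ) + 1) ≤ 1 / ((k : ℝ) + 1) := by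
    have : (k : ℝ) ≤ i := by exact_mod_cast hi2
    exact one_div_le_one_div_of_le (by positivity) (by linarith)
  have hi0 : 1 / ((i : ℝ) + 1) ≤ 1 := by
    rw [div_le_one (by positivity)]
    linarith [Nat.cast_nonneg (α := ℝ) i]
  refine ⟨(k : ℝ) + 1, g i, hgc i, hg1 i, ?_, ?_, hi1.le⟩
  · intro x hx
    have h0 : ∀ y ∈ Metric.ball x (φ i).rOut, s y = 0 := by
      intro y hy
      rw [Metric.mem_ball, Real.dist_eq] at hy
      have hy' : |y - x| < 1 / ((i : ℝ) + 1) := hy
      simp only [hs]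
      refine Set.indicator_of_notMem ?_ _
      rintro ⟨hy1, -⟩
      have h3 : |y| ≤ |y - x| + |x| := by
        have := abs_add_le (y - x) x
        rwa [sub_add_cancel] at this
      linarith
    have h1 := ContDiffBump.normed_convolution_eq_right (φ := φ i) (μ := volume) (g := s) (x₀ := x)
      (fun y hy => by rw [h0 y hy, h0 x (Metric.mem_ball_self (φ i).rOut_pos)])
    show g i x = 0
    rw [← h0 x (Metric.mem_ball_self (φ i).rOut_pos)]
    exact h1
  · intro x hx
    have h0 : ∀ y ∈ Metric.ball x (φ i).rOut, s y = 0 := by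
      intro y hy
      rw [Metric.mem_ball, Real.dist_eq] at hy
      have hy' : |y - x| < 1 / ((i : ℝ) + 1) := hy
      simp only [hs]
      refine Set.indicator_of_notMem ?_ _
      rintro ⟨-, hy1⟩
      have h3 : |x| ≤ |y - x| + |y| := by
        have := abs_sub y (y - x)
        have e : y - (y - x) = x := by ring
        rw [e] at this
        linarith
      linarith
    have h1 := ContDiffBump.normed_convolution_eq_right (φ := φ i) (μ := volume) (g := s) (x₀ := x)
      (fun y hy => by rw [h0 y hy, h0 x (Metric.mem_ball_self (φ i).rOut_pos)])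
    show g i x = 0
    rw [← h0 x (Metric.mem_ball_self (φ i).rOut_pos)]
    exact h1

/-- State of the smooth gliding hump construction. -/
structure St2 where
  M : ℝ
  N : ℕ
  G : ℝ → ℝ
  smooth : ContDiff ℝ ∞ G
  bd : ∀ x, |G x| ≤ 1
  zero : ∀ x, M ≤ |x| → G x = 0
  nonneg : 0 ≤ M

/-- One step of the construction. -/
theorem hump_step2 (F : ℕ → ℝ → ℝ) (hF : ∀ n, Integrable (F n)) (hFm : ∀ n, Measurable (F n))
    (δ : ℝ) (hδ : 0 < δ)
    (h : ∀ M : ℝ, 0 ≤ M → ∀ N : ℕ, ∃ n, N ≤ n ∧ δ ≤ ∫ x in {x : ℝ | M < |x|}, |F n x|) (s : St2) :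
    ∃ s' : St2, s.N < s'.N ∧ s.M + 1 ≤ s'.M ∧ (∀ x, |x| ≤ s.M → s'.G x = s.G x) ∧
      3 * δ / 4 ≤ |∫ x, F s'.N x * s'.G x| ∧
      ∫ x in {x : ℝ | s'.M < |x|}, |F s'.N x| ≤ δ / 4 := by
  obtain ⟨n, hn, hnδ⟩ := h s.M s.nonneg (s.N + 1)
  obtain ⟨M₁, htail1, htail⟩ := tail_small (F n) (hF n) (δ / 4) (by positivity) s.M
  obtain ⟨M₂, g, hgc, hg1, hg0, hg2, hgi⟩ := smooth_hump (F n) (hF n) (hFm n) s.M δ hnδ (δ / 4)
    (by positivity)
  set t := ∫ x, F n x * s.G x with ht
  set e : ℝ := sg t with he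
  have he1 : e = 1 ∨ e = -1 := by
    rw [he, sg]; split_ifs <;> simp
  have hbound : ∀ x, |s.G x + e * g x| ≤ 1 := by
    intro x
    rcases le_or_gt |x| s.M with hx | hx
    · rw [hg0 x hx, mul_zero, add_zero]; exact s.bd x
    · rw [s.zero x hx.le, zero_add, abs_mul]
      rcases he1 with h1 | h1 <;> rw [h1] <;> simp [hg1 x]
  refine ⟨⟨max M₁ M₂, n, fun x => s.G x + e * g x, s.smooth.add (contDiff_const.mul hgc), hbound,
    ?_, ?_⟩, ?_, ?_, ?_, ?_, ?_⟩
  · intro x hx
    have h1 : s.M ≤ |x| := by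
      have := le_max_left M₁ M₂
      linarith
    rw [s.zero x h1, hg2 x ((le_max_right _ _).trans hx)]
    ring
  · have := le_max_left M₁ M₂
    linarith [s.nonneg]
  · simp only; omega
  · exact htail1.trans (le_max_left _ _)
  · intro x hx
    simp only
    rw [hg0 x hx]; ring
  · simp only
    have i1 : Integrable (fun x => F n x * s.G x) := integrable_mul_bdd (hF n)
      s.smooth.continuous.measurable s.bd
    have i2 : Integrable (fun x => F n x * g x) := integrable_mul_bdd (hF n)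
      hgc.continuous.measurable hg1
    have h1 : ∫ x, F n x * (s.G x + e * g x) = t + e * ∫ x, F n x * g x := by
      rw [ht, ← integral_const_mul, ← integral_add i1 (i2.const_mul e)]
      congr 1
      funext x
      ring
    rw [h1]
    set m := ∫ x, F n x * g x with hm
    have hm0 : 0 ≤ m := by linarith
    have habs : |t + e * m| = |t| + m := by
      rw [he, sg]
      split_ifs with h4
      · rw [one_mul, abs_of_nonneg h4, abs_of_nonneg (by linarith)]
      · rw [abs_of_neg (not_le.1 h4), abs_of_neg (by linarith [not_le.1 h4])]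
        ring
    rw [habs]
    linarith [abs_nonneg t]
  · refine le_trans ?_ htail
    refine setIntegral_mono_set (hF n).abs.integrableOn ?_ ?_
    · exact Filter.Eventually.of_forall fun x => abs_nonneg _
    · refine LE.le.eventuallyLE ?_
      intro x hx
      have hx' : max M₁ M₂ < |x| := hx
      exact lt_of_le_of_lt (le_max_left _ _) hx'

/-- Smooth gliding hump for two sequences. -/
theorem gliding2 (F : Bool → ℕ → ℝ → ℝ) (hF : ∀ c n, Integrable (F c n))
    (hFm : ∀ c n, Measurable (F c n)) (δ : ℝ) (hδ : 0 < δ)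
    (h : ∀ c, ∀ M : ℝ, 0 ≤ M → ∀ N : ℕ, ∃ n, N ≤ n ∧ δ ≤ ∫ x in {x : ℝ | M < |x|}, |F c n x|) :
    ∃ g : ℝ → ℝ, ContDiff ℝ ∞ g ∧ (∀ x, |g x| ≤ 1) ∧
      ∀ c, ∀ N : ℕ, ∃ n, N ≤ n ∧ δ / 2 ≤ |∫ x, F c n x * g x| := by
  choose f hf using fun c => hump_step2 (F c) (hF c) (hFm c) δ hδ (h c)
  let s₀ : St2 := ⟨0, 0, fun _ => 0, contDiff_const, by simp, by simp, le_rfl⟩
  let S : ℕ → St2 := fun k => Nat.rec s₀ (fun j s => f (Nat.bodd j) s) k
  have hS : ∀ k, S (k + 1) = f (Nat.bodd k) (S k) := fun k => rfl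
  have hM1 : ∀ k, (S k).M + 1 ≤ (S (k + 1)).M := fun k => by rw [hS]; exact (hf _ (S k)).2.1
  have hN1 : ∀ k, (S k).N < (S (k + 1)).N := fun k => by rw [hS]; exact (hf _ (S k)).1
  have hMk : ∀ k : ℕ, (k : ℝ) ≤ (S k).M := by
    intro k
    induction k with
    | zero => simp [S, s₀]
    | succ k ih => push_cast; linarith [hM1 k]
  have hNk : ∀ k : ℕ, k ≤ (S k).N := by
    intro k
    induction k with
    | zero => simp
    | succ k ih => have := hN1 k; omega
  have hMmono : Monotone fun k => (S k).M := monotone_nat_of_le_succ fun k => by linarith [hM1 k]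
  have hG : ∀ j k, j ≤ k → ∀ x, |x| ≤ (S j).M → (S k).G x = (S j).G x := by
    intro j k hjk
    induction k, hjk using Nat.le_induction with
    | base => intro x _; rfl
    | succ k hk ih =>
      intro x hx
      rw [← ih x hx, hS]
      exact (hf _ (S k)).2.2.1 x (hx.trans (hMmono hk))
  let g : ℝ → ℝ := fun x => (S ⌈|x|⌉₊).G x
  have hxm : ∀ x : ℝ, |x| ≤ (S ⌈|x|⌉₊).M := fun x => (Nat.le_ceil _).trans (hMk _)
  have hgS : ∀ k x, |x| ≤ (S k).M → g x = (S k).G x := by
    intro k x hx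
    rcases le_total ⌈|x|⌉₊ k with h1 | h1
    · exact (hG _ _ h1 x (hxm x)).symm
    · exact hG _ _ h1 x hx
  have hgc : ContDiff ℝ ∞ g := by
    rw [contDiff_iff_contDiffAt]
    intro x
    obtain ⟨k, hk⟩ := exists_nat_gt |x|
    have h1 : ∀ᶠ y in 𝓝 x, |y| < (k : ℝ) :=
      (continuous_abs.tendsto x).eventually (gt_mem_nhds hk)
    refine (S k).smooth.contDiffAt.congr_of_eventuallyEq ?_
    filter_upwards [h1] with y hy
    exact hgS k y (hy.le.trans (hMk k))
  have hgb : ∀ x, |g x| ≤ 1 := fun x => (S _).bd x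
  refine ⟨g, hgc, hgb, ?_⟩
  intro c N
  obtain ⟨k, hkN, hkc⟩ : ∃ k, N ≤ k ∧ Nat.bodd k = c := by
    rcases eq_or_ne (Nat.bodd N) c with h1 | h1
    · exact ⟨N, le_rfl, h1⟩
    · refine ⟨N + 1, Nat.le_succ N, ?_⟩
      rw [Nat.bodd_succ]
      revert h1
      cases Nat.bodd N <;> cases c <;> simp
  refine ⟨(S (k + 1)).N, (hkN.trans (Nat.le_succ k)).trans (hNk _), ?_⟩
  have h3 : 3 * δ / 4 ≤ |∫ x, F c (S (k + 1)).N x * (S (k + 1)).G x| := by
    rw [hS, hkc]; exact (hf c (S k)).2.2.2.1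
  have h4 : ∫ x in {x : ℝ | (S (k + 1)).M < |x|}, |F c (S (k + 1)).N x| ≤ δ / 4 := by
    rw [hS, hkc]; exact (hf c (S k)).2.2.2.2
  have hz := (S (k + 1)).zero
  have hgS' := hgS (k + 1)
  have hsm := (S (k + 1)).smooth
  have hbd := (S (k + 1)).bd
  set n := (S (k + 1)).N
  set M := (S (k + 1)).M
  set G := (S (k + 1)).G
  have i1 : Integrable (fun x => F c n x * g x) :=
    integrable_mul_bdd (hF c n) hgc.continuous.measurable hgb
  have i2 : Integrable (fun x => F c n x * G x) :=
    integrable_mul_bdd (hF c n) hsm.continuous.measurable hbd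
  have hms : MeasurableSet {x : ℝ | M < |x|} := measurableSet_tail M
  have h5 : |∫ x, (F c n x * g x - F c n x * G x)| ≤ δ / 4 := by
    refine abs_integral_le_integral_abs.trans (le_trans ?_ h4)
    rw [← integral_indicator hms]
    refine integral_mono (i1.sub i2).abs ((hF c n).abs.indicator hms) fun x => ?_
    simp only
    by_cases hx : x ∈ {x : ℝ | M < |x|}
    · rw [Set.indicator_of_mem hx]
      have hx' : M < |x| := hx
      rw [hz x hx'.le, mul_zero, sub_zero, abs_mul]
      calc |F c n x| * |g x| ≤ |F c n x| * 1 := mul_le_mul_of_nonneg_left (hgb x) (abs_nonneg _)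
        _ = |F c n x| := mul_one _
    · rw [Set.indicator_of_notMem hx]
      have hx' : |x| ≤ M := not_lt.1 hx
      rw [hgS' x hx', sub_self, abs_zero]
  rw [integral_sub i1 i2] at h5
  have h8 := abs_sub_abs_le_abs_sub (∫ x, F c n x * G x) (∫ x, F c n x * g x)
  rw [abs_sub_comm] at h5
  linarith

end Pool.Agent.Y255.FR
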