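import Pool.Agent.Results.MP_e8d659_an.NoLimit

/-!
Oscillation of the off-diagonal recurrence coefficients, for general normalizing sequences.
-/

open Polynomial MeasureTheory Filter Topology
open Pool.Agent.Results.MP_e8d659_an.NoLimit

namespace Pool.Agent.Y255.FR

variable {w g : ℝ → ℝ}

/-- The perturbed weight cannot have regular recurrence coefficients as well. -/
theorem no_limit_a (cs : ℕ → ℝ) (hcs : ∀ᶠ n in atTop, 0 < cs n) (hw : IsWeight w)
    (hg : Measurable g) (hg1 : ∀ x, |g x| ≤ 1) (σ δ : ℝ) (hσ0 : 0 < σ) (hσ1 : σ ≤ 1 / 100)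
    (hσδ : 8 * σ ≤ δ) (ℓ₀ ℓ₁ : ℝ) (hℓ₀ : 0 < ℓ₀) (hℓ₁ : 0 < ℓ₁)
    (h0 : Tendsto (fun n => an w n / cs n) atTop (𝓝 ℓ₀))
    (h1 : Tendsto (fun n => an (pw w g σ) n / cs n) atTop (𝓝 ℓ₁))
    (hosc : ∀ N : ℕ, ∃ n, N ≤ n ∧ δ ≤ |∫ x, Fn w n x * g x|) : False := by
  have hσ1' : σ < 1 := by linarith
  have hw1 : IsWeight (pw w g σ) := isWeight_pw hw hg hg1 hσ0 hσ1'
  have hss : σ ^ 2 / (1 - σ) ≤ 2 * σ ^ 2 := by
    rw [div_le_iff₀ (by linarith)]
    nlinarith only [sq_nonneg σ, hσ1, hσ0]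
  have hs2 : σ ^ 2 ≤ 1 / 100 * σ := by nlinarith only [hσ0, hσ1]
  set r : ℕ → ℝ := fun n => hn (pw w g σ) n / hn w n with hr
  have hup : ∀ n, r n ≤ 1 + σ * en w g n := by
    intro n
    rw [hr]
    simp only
    rw [div_le_iff₀ (hn_pos hw n), mul_comm]
    exact pert_upper hw hg hg1 hσ0 hσ1' n
  have hlo : ∀ n, 1 + σ * en w g n - 2 * σ ^ 2 ≤ r n := by
    intro n
    have h5 : 1 + σ * en w g n - σ ^ 2 / (1 - σ) ≤ r n := by
      rw [hr]
      simp only
      rw [le_div_iff₀ (hn_pos hw n), mul_comm]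
      exact pert_lower hw hg hg1 hσ0 hσ1' n
    linarith
  have hse : ∀ n, |σ * en w g n| ≤ σ := by
    intro n
    rw [abs_mul, abs_of_pos hσ0]
    have := abs_en_le hw hg hg1 n
    nlinarith only [this, hσ0]
  have hr1 : ∀ n, r n ≤ 2 := by
    intro n
    have := (abs_le.1 (hse n)).2
    linarith [hup n]
  have hr2 : ∀ n, 1 / 2 ≤ r n := by
    intro n
    have := (abs_le.1 (hse n)).1
    have h3 := hlo n
    linarith
  have hratio : Tendsto (fun n => r (n + 1) / r n) atTop (𝓝 ((ℓ₁ / ℓ₀) ^ 2)) := by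
    have h3 := ((h1.div h0 hℓ₀.ne').pow 2).comp (tendsto_add_atTop_nat 1)
    refine h3.congr' ?_
    filter_upwards [(tendsto_add_atTop_nat 1).eventually hcs] with n hn
    simp only [Function.comp, Pi.div_apply]
    have e1 : cs (n + 1) ≠ 0 := hn.ne'
    have e2 := (an_pos hw (n + 1)).ne'
    have e3 : (an (pw w g σ) (n + 1) / cs (n + 1) / (an w (n + 1) / cs (n + 1))) ^ 2 =
        an (pw w g σ) (n + 1) ^ 2 / an w (n + 1) ^ 2 := by
      field_simp
    rw [e3, an_sq hw1, an_sq hw, hr]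
    have f1 := (hn_pos hw n).ne'
    have f2 := (hn_pos hw (n + 1)).ne'
    have f3 := (hn_pos hw1 n).ne'
    have f4 := (hn_pos hw1 (n + 1)).ne'
    field_simp
  have hρ : (ℓ₁ / ℓ₀) ^ 2 = 1 := by
    have hpos : (0 : ℝ) < (ℓ₁ / ℓ₀) ^ 2 := by positivity
    have hlog : Tendsto (fun n => Real.log (r (n + 1)) - Real.log (r n)) atTop
        (𝓝 (Real.log ((ℓ₁ / ℓ₀) ^ 2))) := by
      have := (Real.continuousAt_log hpos.ne').tendsto.comp hratio
      refine this.congr fun n => ?_
      simp only [Function.comp]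
      rw [Real.log_div (by linarith [hr2 (n + 1)]) (by linarith [hr2 n])]
    have hces := hlog.cesaro
    have hzero : Tendsto (fun n : ℕ => (n⁻¹ : ℝ) * ∑ i ∈ Finset.range n,
        (Real.log (r (i + 1)) - Real.log (r i))) atTop (𝓝 0) := by
      have hb : ∀ n : ℕ, |(n⁻¹ : ℝ) * ∑ i ∈ Finset.range n,
          (Real.log (r (i + 1)) - Real.log (r i))| ≤ (n⁻¹ : ℝ) * 4 := by
        intro n
        rw [Finset.sum_range_sub (fun i => Real.log (r i)), abs_mul,
          abs_of_nonneg (by positivity : (0 : ℝ) ≤ (n⁻¹ : ℝ))]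
        refine mul_le_mul_of_nonneg_left ?_ (by positivity)
        have hl : ∀ m, |Real.log (r m)| ≤ 1 := by
          intro m
          have p1 := hr1 m
          have p2 := hr2 m
          rw [abs_le]
          constructor
          · have : Real.log (1 / 2) ≤ Real.log (r m) := Real.log_le_log (by norm_num) p2
            have h5 : Real.log (1 / 2) = -Real.log 2 := by
              rw [one_div, Real.log_inv]
            have := Real.log_two_lt_d9
            linarith
          · have : Real.log (r m) ≤ Real.log 2 := Real.log_le_log (by linarith) p1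
            have := Real.log_two_lt_d9
            linarith
        have a1 := abs_le.1 (hl n)
        have a2 := abs_le.1 (hl 0)
        rw [abs_le]
        constructor <;> linarith [a1.1, a1.2, a2.1, a2.2]
      have hinv : Tendsto (fun n : ℕ => (n⁻¹ : ℝ) * 4) atTop (𝓝 0) := by
        have := (tendsto_inv_atTop_nhds_zero_nat (𝕜 := ℝ)).mul_const 4
        rwa [zero_mul] at this
      exact squeeze_zero_norm hb hinv
    have huniq := tendsto_nhds_unique hces hzero
    exact Real.eq_one_of_pos_of_log_eq_zero hpos huniq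
  rw [hρ] at hratio
  have hdiff : Tendsto (fun n => r (n + 1) - r n) atTop (𝓝 0) := by
    have h3 : Tendsto (fun n => 2 * |r (n + 1) / r n - 1|) atTop (𝓝 0) := by
      have := ((hratio.sub_const 1).abs).const_mul 2
      simpa using this
    refine squeeze_zero_norm (fun n => ?_) h3
    have p1 := hr1 n
    have p2 := hr2 n
    have h4 : r (n + 1) - r n = r n * (r (n + 1) / r n - 1) := by
      have : r n ≠ 0 := by linarith
      field_simp
    rw [Real.norm_eq_abs, h4, abs_mul, abs_of_pos (by linarith : 0 < r n)]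
    exact mul_le_mul_of_nonneg_right p1 (abs_nonneg _)
  have hδ0 : 0 < δ := by linarith
  have hsmall : ∀ᶠ n in atTop, |r (n + 1) - r n| < σ * δ / 4 := by
    have := hdiff.abs
    rw [abs_zero] at this
    exact this.eventually (gt_mem_nhds (by positivity))
  obtain ⟨N, hN⟩ := eventually_atTop.1 hsmall
  obtain ⟨n, hn, hosc'⟩ := hosc N
  have h5 := hN n hn
  rw [int_Fn_mul hw hg hg1] at hosc'
  have u1 := hup n
  have u2 := hup (n + 1)
  have l1 := hlo n
  have l2 := hlo (n + 1)
  have hs3 : 2 * σ ^ 2 ≤ σ * δ / 4 := by nlinarith only [hσ0, hσδ]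
  have hmul := mul_le_mul_of_nonneg_left hosc' hσ0.le
  have hσd : 0 < σ * δ := by positivity
  rw [abs_lt] at h5
  rcases abs_cases (en w g (n + 1) - en w g n) with ⟨h6, _⟩ | ⟨h6, _⟩
  · rw [h6] at hmul
    nlinarith only [h5.1, h5.2, hmul, u1, u2, l1, l2, hs3, hσd]
  · rw [h6] at hmul
    nlinarith only [h5.1, h5.2, hmul, u1, u2, l1, l2, hs3, hσd]

end Pool.Agent.Y255.FR
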