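import Pool.Agent.Y255.FR.HLow

/-!
Oscillation of the diagonal recurrence coefficients.
-/

open Polynomial MeasureTheory Filter Topology
open Pool.Agent.Results.MP_e8d659_an.NoLimit

namespace Pool.Agent.Y255.FR

variable {w g : ℝ → ℝ}

/-- Coordinates of the perturbed orthogonal polynomial. -/
noncomputable def yn (w w' : ℝ → ℝ) (n : ℕ) : ℝ := B w (op w' (n + 1)) (op w n) / hn w n

theorem natDegree_lt_degree {n m : ℕ} (w : ℝ → ℝ) (h : n < m) :
    (op w n).degree < (m : WithBot ℕ) := by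
  rw [degree_eq_natDegree (op_ne_zero w n), (op_monic w n).2]
  exact_mod_cast h

/-- The change of the diagonal coefficients in terms of the coordinates. -/
theorem yn_rec {w' : ℝ → ℝ} (hw : IsWeight w) (n : ℕ) :
    bn w' (n + 1) - bn w (n + 1) = yn w w' n - yn w w' (n + 1) := by
  have hh0 := hn_pos hw n
  have hh1 := hn_pos hw (n + 1)
  have e1 : B w (op w' (n + 2)) (op w (n + 1)) =
      B w (op w' (n + 1)) (X * op w (n + 1)) - bn w' (n + 1) * B w (op w' (n + 1)) (op w (n + 1)) -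
        hn w' (n + 1) / hn w' n * B w (op w' n) (op w (n + 1)) := by
    rw [op_succ_succ w', B_sub_left hw, B_C_mul_left, sub_mul, B_sub_left hw, B_C_mul_left, B_X_mul]
  have e2 : B w (op w' n) (op w (n + 1)) = 0 :=
    op_orth_lower hw (n + 1) (n + 1) le_rfl _ (natDegree_lt_degree w' (Nat.lt_succ_self n))
  have e3 : B w (op w' (n + 1)) (op w (n + 1)) = hn w (n + 1) := by
    have h1 : B w (op w' (n + 1) - op w (n + 1)) (op w (n + 1)) = 0 :=
      op_orth_lower hw (n + 1) (n + 1) le_rfl _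
        (degree_monic_sub_lt (op_monic _ _).1 (op_monic _ _).1 (op_monic _ _).2 (op_monic _ _).2)
    rw [B_sub_left hw] at h1
    rw [hn]
    linarith
  have e4 : B w (op w' (n + 1)) (X * op w (n + 1)) = bn w (n + 1) * hn w (n + 1) +
      hn w (n + 1) / hn w n * B w (op w' (n + 1)) (op w n) := by
    have h1 : B w (op w' (n + 1)) (op w (n + 2)) = 0 :=
      op_orth_lower hw (n + 2) (n + 2) le_rfl _ (natDegree_lt_degree w' (Nat.lt_succ_self (n + 1)))
    rw [X_mul_op, B_add_right hw, B_add_right hw, B_C_mul_right, B_C_mul_right, h1, e3]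
    ring
  rw [e2, e3, e4] at e1
  rw [yn, yn, e1]
  field_simp
  ring

/-- The pairing for the perturbed weight. -/
theorem B_pw (hw : IsWeight w) (hg : Measurable g) (hg1 : ∀ x, |g x| ≤ 1) (σ : ℝ) (p q : ℝ[X]) :
    B (pw w g σ) p q = B w p q + σ * ∫ x, p.eval x * q.eval x * w x * g x := by
  rw [B, B, ← integral_const_mul, ← integral_add (hw.integrable₂ _ _)
    ((integrable_mul_bdd (hw.integrable₂ p q) hg hg1).const_mul σ)]
  congr 1
  funext x
  simp only [pw]
  ring

theorem int_abs_le (hw : IsWeight w) (hg : Measurable g) (hg1 : ∀ x, |g x| ≤ 1) (p q : ℝ[X])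
    (l : ℝ) (hl : 0 < l) :
    |∫ x, p.eval x * q.eval x * w x * g x| ≤ l / 2 * B w p p + 1 / (2 * l) * B w q q := by
  refine abs_integral_le_integral_abs.trans ?_
  rw [B, B, ← integral_const_mul, ← integral_const_mul,
    ← integral_add ((hw.integrable₂ p p).const_mul _) ((hw.integrable₂ q q).const_mul _)]
  refine integral_mono (integrable_mul_bdd (hw.integrable₂ p q) hg hg1).abs
    (((hw.integrable₂ p p).const_mul _).add ((hw.integrable₂ q q).const_mul _)) fun x => ?_
  simp only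
  have hwx := (hw.pos x).le
  rw [abs_mul, abs_mul _ (w x), abs_of_nonneg hwx, abs_mul]
  set a := |p.eval x| with ha
  set b := |q.eval x| with hb
  have e1 : p.eval x * p.eval x = a ^ 2 := by rw [ha, sq_abs]; ring
  have e2 : q.eval x * q.eval x = b ^ 2 := by rw [hb, sq_abs]; ring
  rw [e1, e2]
  have ha0 : 0 ≤ a := abs_nonneg _
  have hb0 : 0 ≤ b := abs_nonneg _
  have h1 : a * b ≤ l / 2 * a ^ 2 + 1 / (2 * l) * b ^ 2 := by
    have h2 : 0 ≤ (l * a - b) ^ 2 / (2 * l) := by positivity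
    have h3 : (l * a - b) ^ 2 / (2 * l) = l / 2 * a ^ 2 + 1 / (2 * l) * b ^ 2 - a * b := by
      field_simp
      ring
    linarith only [h2, h3]
  have h4 : a * b * w x * |g x| ≤ a * b * w x * 1 :=
    mul_le_mul_of_nonneg_left (hg1 x) (by positivity)
  have h5 := mul_le_mul_of_nonneg_right h1 hwx
  calc a * b * w x * |g x| ≤ a * b * w x * 1 := h4
    _ = a * b * w x := mul_one _
    _ ≤ (l / 2 * a ^ 2 + 1 / (2 * l) * b ^ 2) * w x := h5
    _ = l / 2 * (a ^ 2 * w x) + 1 / (2 * l) * (b ^ 2 * w x) := by ring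

/-- Size of the change of the monic orthogonal polynomial. -/
theorem R_bound (hw : IsWeight w) (hg : Measurable g) (hg1 : ∀ x, |g x| ≤ 1) (σ : ℝ)
    (hσ0 : 0 < σ) (hσ1 : σ < 1) (n : ℕ) :
    B w (op (pw w g σ) n - op w n) (op (pw w g σ) n - op w n) ≤
      (σ / (1 - σ)) ^ 2 * hn w n := by
  have hw1 := isWeight_pw hw hg hg1 hσ0 hσ1
  set P := op w n with hP
  set R := op (pw w g σ) n - P with hR
  have hdeg : R.degree < (n : WithBot ℕ) :=
    degree_monic_sub_lt (op_monic _ n).1 (op_monic w n).1 (op_monic _ n).2 (op_monic w n).2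
  have h0 : B w R P = 0 := op_orth_lower hw n n le_rfl R hdeg
  have h1 : B (pw w g σ) R (op (pw w g σ) n) = 0 := op_orth_lower hw1 n n le_rfl R hdeg
  have hQ' : op (pw w g σ) n = P + R := by rw [hR]; ring
  rw [hQ', B_add_right hw1] at h1
  have h2 : B (pw w g σ) R P = σ * ∫ x, R.eval x * P.eval x * w x * g x := by
    rw [B_pw hw hg hg1, h0, zero_add]
  have h3 : (1 - σ) * B w R R ≤ B (pw w g σ) R R := by
    rw [B_pw hw hg hg1]
    have h4 : -(B w R R) ≤ ∫ x, R.eval x * R.eval x * w x * g x := by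
      rw [B, ← integral_neg]
      refine integral_mono (hw.integrable₂ R R).neg (integrable_mul_bdd (hw.integrable₂ R R) hg hg1)
        fun x => ?_
      simp only
      have h5 : 0 ≤ R.eval x * R.eval x * w x := mul_nonneg (mul_self_nonneg _) (hw.pos x).le
      have := (abs_le.1 (hg1 x)).1
      nlinarith only [h5, this]
    nlinarith only [h4, hσ0]
  have h1σ : 0 < 1 - σ := by linarith
  have h6 := int_abs_le hw hg hg1 R P ((1 - σ) / σ) (by positivity)
  have h7 : (1 - σ) * B w R R ≤ σ * ((1 - σ) / σ / 2 * B w R R + 1 / (2 * ((1 - σ) / σ)) * B w P P) := by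
    have h8 : -(σ * ∫ x, R.eval x * P.eval x * w x * g x) ≤
        σ * |∫ x, R.eval x * P.eval x * w x * g x| := by
      have := neg_abs_le (∫ x, R.eval x * P.eval x * w x * g x)
      nlinarith only [this, hσ0]
    have h9 := mul_le_mul_of_nonneg_left h6 hσ0.le
    linarith only [h1, h2, h3, h8, h9]
  have h10 : σ * ((1 - σ) / σ / 2 * B w R R + 1 / (2 * ((1 - σ) / σ)) * B w P P) =
      (1 - σ) / 2 * B w R R + σ ^ 2 / (2 * (1 - σ)) * B w P P := by
    field_simp
  rw [h10] at h7
  have h11 : (1 - σ) / 2 * B w R R ≤ (1 - σ) / 2 * ((σ / (1 - σ)) ^ 2 * B w P P) := by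
    have h12 : (1 - σ) / 2 * ((σ / (1 - σ)) ^ 2 * B w P P) = σ ^ 2 / (2 * (1 - σ)) * B w P P := by
      field_simp
    rw [h12]
    linarith only [h7]
  exact le_of_mul_le_mul_left h11 (by positivity)

/-- First order expansion of the coordinates. -/
theorem yn_est (hw : IsWeight w) (hg : Measurable g) (hg1 : ∀ x, |g x| ≤ 1) (σ : ℝ)
    (hσ0 : 0 < σ) (hσ1 : σ < 1) (n : ℕ) :
    |yn w (pw w g σ) n + σ * (an w (n + 1) * ∫ x, (pn w (n + 1)).eval x * (pn w n).eval x * w x * g x)|
      ≤ σ ^ 2 / (1 - σ) * an w (n + 1) := by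
  have hw1 := isWeight_pw hw hg hg1 hσ0 hσ1
  have hh0 := hn_pos hw n
  have hh1 := hn_pos hw (n + 1)
  have h1σ : 0 < 1 - σ := by linarith
  set P := op w (n + 1) with hP
  set R := op (pw w g σ) (n + 1) - P with hR
  have hQ' : op (pw w g σ) (n + 1) = P + R := by rw [hR]; ring
  have h0 : B (pw w g σ) (op w n) (op (pw w g σ) (n + 1)) = 0 :=
    op_orth_lower hw1 (n + 1) (n + 1) le_rfl _ (natDegree_lt_degree w (Nat.lt_succ_self n))
  rw [B_comm, B_pw hw hg hg1] at h0
  have h2 : ∫ x, (op (pw w g σ) (n + 1)).eval x * (op w n).eval x * w x * g x =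
      (∫ x, P.eval x * (op w n).eval x * w x * g x) + ∫ x, R.eval x * (op w n).eval x * w x * g x := by
    rw [← integral_add (integrable_mul_bdd (hw.integrable₂ P (op w n)) hg hg1)
      (integrable_mul_bdd (hw.integrable₂ R (op w n)) hg hg1), hQ']
    congr 1
    funext x
    rw [eval_add]; ring
  have e1 : an w (n + 1) * ∫ x, (pn w (n + 1)).eval x * (pn w n).eval x * w x * g x =
      (∫ x, P.eval x * (op w n).eval x * w x * g x) / hn w n := by
    have e2 : ∀ x, (pn w (n + 1)).eval x * (pn w n).eval x * w x * g x =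
        (1 / √(hn w (n + 1)) * (1 / √(hn w n))) * (P.eval x * (op w n).eval x * w x * g x) := by
      intro x
      rw [pn, pn, eval_mul, eval_mul, eval_C, eval_C]; ring
    simp only [e2]
    rw [integral_const_mul, an_succ hw]
    have s0 := Real.sqrt_pos.2 hh0
    have s1 := Real.sqrt_pos.2 hh1
    have q0 : hn w n = √(hn w n) ^ 2 := (Real.sq_sqrt hh0.le).symm
    generalize ∫ x, P.eval x * (op w n).eval x * w x * g x = I
    rw [div_eq_mul_inv I, q0, Real.sqrt_sq s0.le]
    field_simp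
  rw [e1, yn]
  have h3 : B w (op (pw w g σ) (n + 1)) (op w n) / hn w n +
      σ * ((∫ x, P.eval x * (op w n).eval x * w x * g x) / hn w n) =
      -(σ * ∫ x, R.eval x * (op w n).eval x * w x * g x) / hn w n := by
    have : B w (op (pw w g σ) (n + 1)) (op w n) =
        -(σ * ((∫ x, P.eval x * (op w n).eval x * w x * g x) +
          ∫ x, R.eval x * (op w n).eval x * w x * g x)) := by
      rw [← h2]; linarith only [h0]
    rw [this]
    field_simp
    ring
  rw [h3, abs_div, abs_of_pos hh0, abs_neg, abs_mul, abs_of_pos hσ0, div_le_iff₀ hh0]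
  -- Cauchy-Schwarz
  set s0 := √(hn w n) with hs0
  set s1 := √(hn w (n + 1)) with hs1
  have p0 : 0 < s0 := Real.sqrt_pos.2 hh0
  have p1 : 0 < s1 := Real.sqrt_pos.2 hh1
  have q0 : hn w n = s0 ^ 2 := (Real.sq_sqrt hh0.le).symm
  have q1 : hn w (n + 1) = s1 ^ 2 := (Real.sq_sqrt hh1.le).symm
  have h4 := int_abs_le hw hg hg1 R (op w n) (s0 / (s1 * (σ / (1 - σ)))) (by positivity)
  have h5 := R_bound hw hg hg1 σ hσ0 hσ1 (n + 1)
  rw [← hP, ← hR, q1] at h5
  have h6 : B w (op w n) (op w n) = s0 ^ 2 := q0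
  rw [h6] at h4
  have h7 : s0 / (s1 * (σ / (1 - σ))) / 2 * B w R R ≤
      s0 / (s1 * (σ / (1 - σ))) / 2 * ((σ / (1 - σ)) ^ 2 * s1 ^ 2) :=
    mul_le_mul_of_nonneg_left h5 (by positivity)
  have h8 : s0 / (s1 * (σ / (1 - σ))) / 2 * ((σ / (1 - σ)) ^ 2 * s1 ^ 2) +
      1 / (2 * (s0 / (s1 * (σ / (1 - σ))))) * s0 ^ 2 = σ / (1 - σ) * (s0 * s1) := by
    field_simp
    ring
  have h9 : |∫ x, R.eval x * (op w n).eval x * w x * g x| ≤ σ / (1 - σ) * (s0 * s1) := by
    linarith only [h4, h7, h8]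
  have h10 := mul_le_mul_of_nonneg_left h9 hσ0.le
  rw [q0, an_succ hw]
  refine h10.trans (le_of_eq ?_)
  rw [← hs0, ← hs1]
  field_simp

theorem int_Hn_mul (hw : IsWeight w) (hg : Measurable g) (hg1 : ∀ x, |g x| ≤ 1) (n : ℕ) :
    ∫ x, Hn w n x * g x =
      an w (n + 2) * (∫ x, (pn w (n + 2)).eval x * (pn w (n + 1)).eval x * w x * g x) -
      an w (n + 1) * ∫ x, (pn w (n + 1)).eval x * (pn w n).eval x * w x * g x := by
  rw [← integral_const_mul, ← integral_const_mul, ← integral_sub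
    ((integrable_mul_bdd (hw.integrable₂ (pn w (n + 2)) (pn w (n + 1))) hg hg1).const_mul _)
    ((integrable_mul_bdd (hw.integrable₂ (pn w (n + 1)) (pn w n)) hg hg1).const_mul _)]
  congr 1
  funext x
  rw [Hn]; ring

theorem J_le (hw : IsWeight w) (hg : Measurable g) (hg1 : ∀ x, |g x| ≤ 1) (n : ℕ) :
    |∫ x, (pn w (n + 1)).eval x * (pn w n).eval x * w x * g x| ≤ 1 := by
  have h := int_abs_le hw hg hg1 (pn w (n + 1)) (pn w n) 1 one_pos
  rw [pn_orthonormal hw, pn_orthonormal hw, if_pos rfl, if_pos rfl] at h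
  norm_num at h
  exact h

/-- First order expansion of the diagonal coefficients. -/
theorem bn_est (hw : IsWeight w) (hg : Measurable g) (hg1 : ∀ x, |g x| ≤ 1) (σ : ℝ)
    (hσ0 : 0 < σ) (hσ1 : σ < 1) (n : ℕ) :
    |bn (pw w g σ) (n + 1) - bn w (n + 1) - σ * ∫ x, Hn w n x * g x|
      ≤ σ ^ 2 / (1 - σ) * (an w (n + 1) + an w (n + 2)) := by
  have h1 := yn_est hw hg hg1 σ hσ0 hσ1 n
  have h2 := yn_est hw hg hg1 σ hσ0 hσ1 (n + 1)
  rw [yn_rec hw, int_Hn_mul hw hg hg1]
  have e : n + 1 + 1 = n + 2 := rfl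
  rw [e] at h2
  set y0 := yn w (pw w g σ) n
  set y1 := yn w (pw w g σ) (n + 1)
  set I0 := ∫ x, (pn w (n + 1)).eval x * (pn w n).eval x * w x * g x
  set I1 := ∫ x, (pn w (n + 2)).eval x * (pn w (n + 1)).eval x * w x * g x
  have h3 : y0 - y1 - σ * (an w (n + 2) * I1 - an w (n + 1) * I0) =
      (y0 + σ * (an w (n + 1) * I0)) - (y1 + σ * (an w (n + 2) * I1)) := by ring
  rw [h3]
  refine (abs_sub _ _).trans ?_
  linarith

/-- The perturbed weight cannot have regular diagonal recurrence coefficients as well. -/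
theorem no_limit_b (cs : ℕ → ℝ) (hcs : ∀ᶠ n in atTop, 0 < cs n) (hw : IsWeight w)
    (hg : Measurable g) (hg1 : ∀ x, |g x| ≤ 1) (σ δ : ℝ) (hσ0 : 0 < σ) (hσ1 : σ ≤ 1 / 100)
    (hσδ : 8 * σ ≤ δ) (ℓ₀ m₀ m₁ : ℝ) (hℓ₀ : 0 < ℓ₀)
    (hc : Tendsto (fun n => cs (n + 1) / cs n) atTop (𝓝 1))
    (h0 : Tendsto (fun n => an w n / cs n) atTop (𝓝 ℓ₀))
    (hb0 : Tendsto (fun n => bn w n / cs n) atTop (𝓝 m₀))
    (h1 : Tendsto (fun n => bn (pw w g σ) n / cs n) atTop (𝓝 m₁))
    (hosc : ∀ N : ℕ, ∃ n, N ≤ n ∧ δ * an w (n + 1) ≤ |∫ x, Hn w n x * g x|) : False := by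
  have hσ1' : σ < 1 := by linarith
  have hss : σ ^ 2 / (1 - σ) ≤ 2 * σ ^ 2 := by
    rw [div_le_iff₀ (by linarith)]
    nlinarith only [sq_nonneg σ, hσ1, hσ0]
  have hs2 : σ ^ 2 ≤ 1 / 100 * σ := by nlinarith only [hσ0, hσ1]
  -- ratio asymptotics
  have hra : Tendsto (fun n => an w (n + 1) / an w n) atTop (𝓝 1) := by
    have h3 := ((h0.comp (tendsto_add_atTop_nat 1)).div h0 hℓ₀.ne').mul hc
    rw [div_self hℓ₀.ne', one_mul] at h3
    refine h3.congr' ?_
    filter_upwards [hcs, (tendsto_add_atTop_nat 1).eventually hcs] with n e1 e2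
    have e3 := (an_pos hw n).ne'
    have e4 := e1.ne'
    have e5 := e2.ne'
    simp only [Function.comp, Pi.div_apply]
    field_simp
  have hrj : ∀ j : ℕ, Tendsto (fun n => an w (n + 1 + j) / an w (n + 1)) atTop (𝓝 1) := by
    intro j
    induction j with
    | zero =>
      refine tendsto_const_nhds.congr fun n => ?_
      have := (an_pos hw (n + 1)).ne'
      rw [add_zero, div_self this]
    | succ j ih =>
      have h3 := (hra.comp (tendsto_add_atTop_nat (1 + j))).mul ih
      rw [one_mul] at h3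
      refine h3.congr fun n => ?_
      simp only [Function.comp]
      have e1 : n + (1 + j) = n + 1 + j := by ring
      have e2 : n + (1 + j) + 1 = n + 1 + (j + 1) := by ring
      rw [e2, e1]
      have := (an_pos hw (n + 1 + j)).ne'
      field_simp
  -- the normalized change of the diagonal coefficients
  have hz : Tendsto (fun n => (bn (pw w g σ) n - bn w n) / an w n) atTop (𝓝 ((m₁ - m₀) / ℓ₀)) := by
    have h3 := (h1.sub hb0).div h0 hℓ₀.ne'
    refine h3.congr' ?_
    filter_upwards [hcs] with n e1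
    have e3 := (an_pos hw n).ne'
    have e4 := e1.ne'
    simp only [Pi.div_apply]
    field_simp
  set κ := (m₁ - m₀) / ℓ₀ with hκ
  have hyb : ∀ n, |yn w (pw w g σ) n| ≤ an w (n + 1) := by
    intro n
    have h3 := yn_est hw hg hg1 σ hσ0 hσ1' n
    have h4 := J_le hw hg hg1 n
    set I0 := ∫ x, (pn w (n + 1)).eval x * (pn w n).eval x * w x * g x
    have ha := an_pos hw (n + 1)
    have h5 : |σ * (an w (n + 1) * I0)| ≤ σ * an w (n + 1) := by
      rw [abs_mul, abs_mul, abs_of_pos hσ0, abs_of_pos ha]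
      have := mul_le_mul_of_nonneg_left h4 ha.le
      rw [mul_one] at this
      exact mul_le_mul_of_nonneg_left this hσ0.le
    have h6 : |yn w (pw w g σ) n| ≤ |yn w (pw w g σ) n + σ * (an w (n + 1) * I0)| +
        |σ * (an w (n + 1) * I0)| := by
      have := abs_sub (yn w (pw w g σ) n + σ * (an w (n + 1) * I0)) (σ * (an w (n + 1) * I0))
      rwa [add_sub_cancel_right] at this
    have h7 : σ ^ 2 / (1 - σ) * an w (n + 1) ≤ 1 / 2 * an w (n + 1) :=
      mul_le_mul_of_nonneg_right (by linarith) ha.le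
    nlinarith only [h3, h5, h6, h7, ha, hσ1]
  have hκ0 : κ = 0 := by
    have hK : ∀ K : ℕ, (K : ℝ) * |κ| ≤ 3 := by
      intro K
      have h3 : Tendsto (fun n => ∑ j ∈ Finset.range K,
          (bn (pw w g σ) (n + 1 + j) - bn w (n + 1 + j)) / an w (n + 1)) atTop
          (𝓝 (∑ j ∈ Finset.range K, κ)) := by
        refine tendsto_finsetSum _ fun j _ => ?_
        have h4 := (hz.comp (tendsto_add_atTop_nat (1 + j))).mul (hrj j)
        rw [mul_one] at h4
        refine h4.congr fun n => ?_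
        simp only [Function.comp]
        have e1 : n + (1 + j) = n + 1 + j := by ring
        rw [e1]
        have := (an_pos hw (n + 1 + j)).ne'
        field_simp
      rw [Finset.sum_const, Finset.card_range, nsmul_eq_mul] at h3
      have h5 := h3.abs
      have h6 : ∀ᶠ n in atTop, an w (n + 1 + K) / an w (n + 1) ≤ 2 :=
        (hrj K).eventually (ge_mem_nhds (by norm_num))
      have h7 : |(K : ℝ) * κ| ≤ 3 := by
        refine le_of_tendsto h5 ?_
        filter_upwards [h6] with n hn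
        have ha := an_pos hw (n + 1)
        have e1 : ∑ j ∈ Finset.range K,
            (bn (pw w g σ) (n + 1 + j) - bn w (n + 1 + j)) / an w (n + 1) =
            (yn w (pw w g σ) n - yn w (pw w g σ) (n + K)) / an w (n + 1) := by
          rw [← Finset.sum_div]
          congr 1
          have e2 : ∀ j, bn (pw w g σ) (n + 1 + j) - bn w (n + 1 + j) =
              yn w (pw w g σ) (n + j) - yn w (pw w g σ) (n + (j + 1)) := by
            intro j
            have e3 : n + 1 + j = (n + j) + 1 := by ring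
            rw [e3, yn_rec hw]
            rfl
          simp only [e2]
          rw [Finset.sum_range_sub' (fun j => yn w (pw w g σ) (n + j))]
          rfl
        rw [e1, abs_div, abs_of_pos ha, div_le_iff₀ ha]
        have h8 := hyb n
        have h9 := hyb (n + K)
        have e4 : n + K + 1 = n + 1 + K := by ring
        rw [e4] at h9
        rw [div_le_iff₀ ha] at hn
        have h10 := abs_sub (yn w (pw w g σ) n) (yn w (pw w g σ) (n + K))
        linarith
      rwa [abs_mul, Nat.abs_cast] at h7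
    by_contra hne
    have hpos : 0 < |κ| := abs_pos.2 hne
    obtain ⟨K, hK'⟩ := exists_nat_gt (3 / |κ|)
    rw [div_lt_iff₀ hpos] at hK'
    linarith [hK K]
  rw [hκ0] at hz
  have hδ0 : 0 < δ := by linarith
  have hsmall : ∀ᶠ n in atTop, |(bn (pw w g σ) n - bn w n) / an w n| < σ * δ / 4 := by
    have := hz.abs
    rw [abs_zero] at this
    exact this.eventually (gt_mem_nhds (by positivity))
  have hr2 : ∀ᶠ n in atTop, an w (n + 1 + 1) / an w (n + 1) ≤ 11 / 10 :=
    (hrj 1).eventually (ge_mem_nhds (by norm_num))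
  obtain ⟨N, hN⟩ := eventually_atTop.1 (((tendsto_add_atTop_nat 1).eventually hsmall).and hr2)
  obtain ⟨n, hn, hosc'⟩ := hosc N
  obtain ⟨h5, h6⟩ := hN n hn
  have ha := an_pos hw (n + 1)
  rw [div_le_iff₀ ha] at h6
  rw [abs_div, abs_of_pos ha, div_lt_iff₀ ha] at h5
  have h7 := bn_est hw hg hg1 σ hσ0 hσ1' n
  have e : n + 1 + 1 = n + 2 := rfl
  rw [e] at h6
  have h8 : σ ^ 2 / (1 - σ) * (an w (n + 1) + an w (n + 2)) ≤
      2 * σ ^ 2 * (21 / 10 * an w (n + 1)) :=
    mul_le_mul hss (by linarith) (by linarith [an_pos hw (n + 2)]) (by positivity)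
  set D := bn (pw w g σ) (n + 1) - bn w (n + 1) with hD
  set I := ∫ x, Hn w n x * g x with hI
  have h9 : σ * |I| ≤ |D| + |D - σ * I| := by
    have h10 := abs_sub D (D - σ * I)
    rw [show D - (D - σ * I) = σ * I by ring, abs_mul, abs_of_pos hσ0] at h10
    exact h10
  have h11 := mul_le_mul_of_nonneg_left hosc' hσ0.le
  have h12 : 2 * σ ^ 2 * (21 / 10 * an w (n + 1)) ≤ 21 / 40 * (σ * δ * an w (n + 1)) := by
    have h13 : 2 * σ ^ 2 * (21 / 10) ≤ 21 / 40 * (σ * δ) := by nlinarith only [hσ0, hσδ]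
    have := mul_le_mul_of_nonneg_right h13 ha.le
    linarith only [this]
  have h14 : 0 < σ * δ * an w (n + 1) := by positivity
  linarith only [h5, h7, h8, h9, h11, h12, h14]

end Pool.Agent.Y255.FR
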