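import Pool.Agent.Y255.FR.Cls
import Pool.Agent.Y255.FR.DLow
import Pool.Agent.Y255.FR.LimB
import Pool.Agent.Y255.FR.LimA
import Pool.Agent.Y255.FR.Hump

/-!
The construction: near every potential with regular recurrence coefficients there is a ball of
potentials with irregular recurrence coefficients.
-/

open Polynomial MeasureTheory Filter Topology
open Pool.Agent.Results.MP_e8d659_an.NoLimit
open scoped ContDiff

namespace Pool.Agent.Y255.FR

theorem abs_exp_sub {s r : ℝ} (hr : r ≤ 1 / 4) (hs : |s| ≤ r) : |Real.exp (-2 * s) - 1| ≤ 4 * r := by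
  have h1 : |(-2) * s| ≤ 1 := by
    rw [abs_mul, abs_neg, abs_two]; linarith
  have h2 := Real.abs_exp_sub_one_le h1
  rw [abs_mul, abs_neg, abs_two] at h2
  linarith

/-- The construction of the perturbation. -/
theorem core (Q₀ : ℝ → ℝ) (hQ₀ : Measurable Q₀) (F : Bool → ℕ → ℝ → ℝ)
    (hF : ∀ c n, Integrable (F c n)) (hFm : ∀ c n, Measurable (F c n))
    (hF3 : ∀ c, ∀ᶠ n in atTop, ∫ x, |F c n x| ≤ 3) (δ : ℝ) (hδ : 0 < δ) (hδ1 : δ ≤ 1)
    (h : ∀ c, ∀ M : ℝ, 0 ≤ M → ∀ N : ℕ, ∃ n, N ≤ n ∧ δ ≤ ∫ x in {x : ℝ | M < |x|}, |F c n x|)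
    (ε : ℝ) (hε : 0 < ε) :
    ∃ φ : ℝ → ℝ, ContDiff ℝ ∞ φ ∧ (∀ x, |φ x| ≤ ε) ∧ ∃ σ : ℝ, 0 < σ ∧ σ ≤ 1 / 100 ∧ 64 * σ ≤ δ ∧
      ∃ r : ℝ, 0 < r ∧ ∀ Q : ℝ → ℝ, Measurable Q → (∀ x, |Q x - (Q₀ x + φ x)| ≤ r) →
        ∃ g : ℝ → ℝ, Measurable g ∧ (∀ x, |g x| ≤ 1) ∧ weight Q = pw (weight Q₀) g σ ∧
          ∀ c, ∀ N : ℕ, ∃ n, N ≤ n ∧ δ / 8 ≤ |∫ x, F c n x * g x| := by
  obtain ⟨g, hgc, hg1, hosc⟩ := gliding2 F hF hFm δ hδ h
  set σ := min (min (1 / 100) (δ / 64)) ε with hσ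
  have hσ0 : 0 < σ := by positivity
  have hσ1 : σ ≤ 1 / 100 := (min_le_left _ _).trans (min_le_left _ _)
  have hσδ : σ ≤ δ / 64 := (min_le_left _ _).trans (min_le_right _ _)
  have hσε : σ ≤ ε := min_le_right _ _
  have hpos : ∀ x, 99 / 100 ≤ 1 + σ / 2 * g x ∧ 1 + σ / 2 * g x ≤ 101 / 100 := by
    intro x
    have h1 := abs_le.1 (hg1 x)
    constructor <;> nlinarith only [h1.1, h1.2, hσ0, hσ1]
  set φ : ℝ → ℝ := fun x => -(1 / 2) * Real.log (1 + σ / 2 * g x) with hφ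
  have hφc : ContDiff ℝ ∞ φ := by
    refine contDiff_const.mul ?_
    exact (contDiff_const.add (contDiff_const.mul hgc)).log fun x => by linarith [(hpos x).1]
  have hφb : ∀ x, |φ x| ≤ ε := by
    intro x
    have h1 := abs_le.1 (hg1 x)
    have h2 := hpos x
    have h2' : 0 < 1 + σ / 2 * g x := by linarith [h2.1]
    have h3 : Real.log (1 + σ / 2 * g x) ≤ σ / 2 * g x := by
      have := Real.log_le_sub_one_of_pos h2'
      linarith
    have h4 : 1 - (1 + σ / 2 * g x)⁻¹ ≤ Real.log (1 + σ / 2 * g x) := Real.one_sub_inv_le_log_of_pos h2'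
    have h5 : (1 + σ / 2 * g x)⁻¹ ≤ 1 + σ := by
      rw [inv_le_comm₀ h2' (by linarith)]
      have h6 : (1 + σ)⁻¹ ≤ 1 - σ / 2 := by
        rw [inv_le_iff_one_le_mul₀ (by linarith)]
        nlinarith only [hσ0, hσ1]
      nlinarith only [h6, h1.1, hσ0]
    simp only [hφ]
    rw [abs_le]
    constructor <;> nlinarith only [h3, h4, h5, h1.1, h1.2, hσ0, hσε]
  set r := σ * δ / 192 with hr
  have hr0 : 0 < r := by positivity
  have hr4 : r ≤ 1 / 4 := by
    rw [hr]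
    nlinarith only [hσ0, hσ1, hδ, hδ1]
  refine ⟨φ, hφc, hφb, σ, hσ0, hσ1, by linarith, r, hr0, ?_⟩
  intro Q hQ hQr
  set g' : ℝ → ℝ := fun x => (Real.exp (-2 * (Q x - Q₀ x)) - 1) / σ with hg'
  have hg'm : Measurable g' :=
    ((Real.measurable_exp.comp ((hQ.sub hQ₀).const_mul (-2))).sub_const 1).div_const σ
  have hclose : ∀ x, |g' x - g x / 2| ≤ δ / 24 := by
    intro x
    have h1 : Real.exp (-2 * (Q x - Q₀ x)) =
        (1 + σ / 2 * g x) * Real.exp (-2 * (Q x - (Q₀ x + φ x))) := by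
      have h2 : 0 < 1 + σ / 2 * g x := by linarith [(hpos x).1]
      have h3 : Real.exp (-2 * (Q x - Q₀ x)) =
          Real.exp (-2 * φ x) * Real.exp (-2 * (Q x - (Q₀ x + φ x))) := by
        rw [← Real.exp_add]; congr 1; ring
      have h4 : Real.exp (-2 * φ x) = 1 + σ / 2 * g x := by
        have : -2 * φ x = Real.log (1 + σ / 2 * g x) := by simp only [hφ]; ring
        rw [this, Real.exp_log h2]
      rw [h3, h4]
    have h5 := abs_exp_sub hr4 (hQr x)
    have h6 : g' x - g x / 2 = (1 + σ / 2 * g x) * (Real.exp (-2 * (Q x - (Q₀ x + φ x))) - 1) / σ := by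
      simp only [hg']
      rw [h1]
      field_simp
      ring
    rw [h6, abs_div, abs_of_pos hσ0, div_le_iff₀ hσ0, abs_mul,
      abs_of_pos (by linarith [(hpos x).1] : 0 < 1 + σ / 2 * g x)]
    have h7 : (1 + σ / 2 * g x) * |Real.exp (-2 * (Q x - (Q₀ x + φ x))) - 1| ≤ 2 * (4 * r) :=
      mul_le_mul (by linarith [(hpos x).2]) h5 (abs_nonneg _) (by norm_num)
    refine h7.trans (le_of_eq ?_)
    rw [hr]; ring
  have hg'1 : ∀ x, |g' x| ≤ 1 := by
    intro x
    have h1 := hclose x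
    have h2 : |g x / 2| ≤ 1 / 2 := by
      rw [abs_div, abs_two]; linarith [hg1 x]
    have h3 := abs_add_le (g' x - g x / 2) (g x / 2)
    rw [sub_add_cancel] at h3
    linarith
  refine ⟨g', hg'm, hg'1, ?_, ?_⟩
  · funext x
    simp only [pw, hg', weight]
    have : σ * ((Real.exp (-2 * (Q x - Q₀ x)) - 1) / σ) = Real.exp (-2 * (Q x - Q₀ x)) - 1 := by
      field_simp
    rw [this, add_sub_cancel, ← Real.exp_add]
    congr 1
    ring
  · intro c N
    obtain ⟨N₀, hN₀⟩ := eventually_atTop.1 (hF3 c)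
    obtain ⟨n, hn, hno⟩ := hosc c (max N N₀)
    refine ⟨n, (le_max_left _ _).trans hn, ?_⟩
    have h3 := hN₀ n ((le_max_right _ _).trans hn)
    have i1 : Integrable (fun x => F c n x * g' x) := integrable_mul_bdd (hF c n) hg'm hg'1
    have i2 : Integrable (fun x => F c n x * g x) :=
      integrable_mul_bdd (hF c n) hgc.continuous.measurable hg1
    have h4 : |(∫ x, F c n x * g' x) - 1 / 2 * ∫ x, F c n x * g x| ≤ δ / 24 * 3 := by
      rw [← integral_const_mul, ← integral_sub i1 (i2.const_mul _)]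
      refine abs_integral_le_integral_abs.trans ?_
      have h5 : ∫ x, |F c n x * g' x - 1 / 2 * (F c n x * g x)| ≤ ∫ x, δ / 24 * |F c n x| := by
        refine integral_mono (i1.sub (i2.const_mul _)).abs ((hF c n).abs.const_mul _) fun x => ?_
        simp only
        have h6 : F c n x * g' x - 1 / 2 * (F c n x * g x) = F c n x * (g' x - g x / 2) := by ring
        rw [h6, abs_mul, mul_comm]
        exact mul_le_mul_of_nonneg_right (hclose x) (abs_nonneg _)
      refine h5.trans ?_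
      rw [integral_const_mul]
      exact mul_le_mul_of_nonneg_left h3 (by positivity)
    have h7 : |1 / 2 * ∫ x, F c n x * g x| ≤ |∫ x, F c n x * g' x| +
        |(∫ x, F c n x * g' x) - 1 / 2 * ∫ x, F c n x * g x| := by
      have := abs_sub (∫ x, F c n x * g' x) ((∫ x, F c n x * g' x) - 1 / 2 * ∫ x, F c n x * g x)
      rwa [sub_sub_cancel] at this
    rw [abs_mul, abs_of_pos (by norm_num : (0 : ℝ) < 1 / 2)] at h7
    linarith

variable {w : ℝ → ℝ}

theorem Fn_meas (hw : IsWeight w) (n : ℕ) : Measurable (Fn w n) :=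
  ((((pn w (n + 1)).continuous.measurable).pow_const 2).sub
    (((pn w n).continuous.measurable).pow_const 2)).mul hw.meas

theorem Fn_L1 (hw : IsWeight w) (n : ℕ) : ∫ x, |Fn w n x| ≤ 3 := by
  have h1 := integral_sq_pn hw n
  have h2 := integral_sq_pn hw (n + 1)
  have h3 : ∫ x, |Fn w n x| ≤ ∫ x, ((pn w (n + 1)).eval x ^ 2 * w x + (pn w n).eval x ^ 2 * w x) := by
    refine integral_mono (Fn_integrable hw n).abs ((integrable_sq hw _).add (integrable_sq hw _))
      fun x => ?_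
    simp only
    rw [abs_Fn hw]
    have h4 : |(pn w (n + 1)).eval x ^ 2 - (pn w n).eval x ^ 2| ≤
        (pn w (n + 1)).eval x ^ 2 + (pn w n).eval x ^ 2 := by
      have p1 := sq_nonneg ((pn w (n + 1)).eval x)
      have p2 := sq_nonneg ((pn w n).eval x)
      rw [abs_le]
      constructor <;> linarith
    have := mul_le_mul_of_nonneg_right h4 (hw.pos x).le
    linarith
  rw [integral_add (integrable_sq hw _) (integrable_sq hw _), h1, h2] at h3
  linarith

theorem Hn_L1 (hw : IsWeight w) (n : ℕ) :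
    ∫ x, |Hn w n x| ≤ an w (n + 1) + an w (n + 2) := by
  have h0 := integral_sq_pn hw n
  have h1 := integral_sq_pn hw (n + 1)
  have h2 := integral_sq_pn hw (n + 2)
  have ha1 := an_pos hw (n + 1)
  have ha2 := an_pos hw (n + 2)
  have i0 := integrable_sq hw (pn w n)
  have i1 := integrable_sq hw (pn w (n + 1))
  have i2 := integrable_sq hw (pn w (n + 2))
  have h3 : ∫ x, |Hn w n x| ≤ ∫ x, (an w (n + 2) / 2 * ((pn w (n + 2)).eval x ^ 2 * w x) +
      (an w (n + 2) + an w (n + 1)) / 2 * ((pn w (n + 1)).eval x ^ 2 * w x) +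
      an w (n + 1) / 2 * ((pn w n).eval x ^ 2 * w x)) := by
    refine integral_mono (Hn_integrable hw n).abs (((i2.const_mul _).add (i1.const_mul _)).add
      (i0.const_mul _)) fun x => ?_
    simp only
    rw [abs_Hn hw, abs_mul]
    set u := (pn w n).eval x
    set v := (pn w (n + 1)).eval x
    set s := (pn w (n + 2)).eval x
    have h4 : |an w (n + 2) * s - an w (n + 1) * u| ≤ an w (n + 2) * |s| + an w (n + 1) * |u| := by
      refine (abs_sub _ _).trans (le_of_eq ?_)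
      rw [abs_mul, abs_mul, abs_of_pos ha1, abs_of_pos ha2]
    have h5 : |v| * |an w (n + 2) * s - an w (n + 1) * u| ≤
        |v| * (an w (n + 2) * |s| + an w (n + 1) * |u|) :=
      mul_le_mul_of_nonneg_left h4 (abs_nonneg _)
    have h6 : |v| * |s| ≤ (v ^ 2 + s ^ 2) / 2 := by
      nlinarith only [sq_nonneg (|v| - |s|), sq_abs v, sq_abs s]
    have h7 : |v| * |u| ≤ (v ^ 2 + u ^ 2) / 2 := by
      nlinarith only [sq_nonneg (|v| - |u|), sq_abs v, sq_abs u]
    have h8 : |v| * |an w (n + 2) * s - an w (n + 1) * u| ≤ an w (n + 2) / 2 * s ^ 2 +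
        (an w (n + 2) + an w (n + 1)) / 2 * v ^ 2 + an w (n + 1) / 2 * u ^ 2 := by
      have h9 := mul_le_mul_of_nonneg_left h6 ha2.le
      have h10 := mul_le_mul_of_nonneg_left h7 ha1.le
      linarith only [h5, h9, h10]
    have h11 := mul_le_mul_of_nonneg_right h8 (hw.pos x).le
    linarith only [h11]
  have h12 := integral_add (((i2.const_mul (an w (n + 2) / 2)).add
    (i1.const_mul ((an w (n + 2) + an w (n + 1)) / 2)))) (i0.const_mul (an w (n + 1) / 2))
  simp only [Pi.add_apply] at h12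
  rw [h12, integral_add (i2.const_mul _) (i1.const_mul _), integral_const_mul, integral_const_mul,
    integral_const_mul, h0, h1, h2] at h3
  linarith

/-- Ratio asymptotics from convergence of `a_n / c_n`. -/
theorem ratio_of (cs : ℕ → ℝ) (hcs : ∀ᶠ n in atTop, 0 < cs n) (hct : Tendsto cs atTop atTop)
    (hc : Tendsto (fun n => cs (n + 1) / cs n) atTop (𝓝 1)) (hw : IsWeight w) (ℓ₀ : ℝ)
    (hℓ₀ : 0 < ℓ₀) (h0 : Tendsto (fun n => an w n / cs n) atTop (𝓝 ℓ₀)) :
    Tendsto (fun n => an w (n + 1) / an w n) atTop (𝓝 1) ∧ Tendsto (an w) atTop atTop := by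
  constructor
  · have h3 := ((h0.comp (tendsto_add_atTop_nat 1)).div h0 hℓ₀.ne').mul hc
    rw [div_self hℓ₀.ne', one_mul] at h3
    refine h3.congr' ?_
    filter_upwards [hcs, (tendsto_add_atTop_nat 1).eventually hcs] with n e1 e2
    have e3 := (an_pos hw n).ne'
    have e4 := e1.ne'
    have e5 := e2.ne'
    simp only [Function.comp, Pi.div_apply]
    field_simp
  · have h1 := Tendsto.pos_mul_atTop hℓ₀ h0 hct
    refine h1.congr' ?_
    filter_upwards [hcs] with n e1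
    have e4 := e1.ne'
    field_simp

theorem Dn_osc (hw : IsWeight w)
    (h1 : Tendsto (fun n => an w (n + 1) / an w n) atTop (𝓝 1))
    (h2 : Tendsto (an w) atTop atTop) (M : ℝ) (hM : 0 ≤ M) (N : ℕ) :
    ∃ n, N ≤ n ∧ (1 / 20000 : ℝ) ≤ ∫ x in {x : ℝ | M < |x|}, |Fn w n x| := by
  obtain ⟨n, hn⟩ := ((D_lower_gen hw h1 h2 M hM).and (eventually_ge_atTop N)).exists
  rcases hn.1 with h | h
  · exact ⟨n + 1, by omega, h⟩
  · exact ⟨n + 2, by omega, h⟩

/-- Perturbation destroying the limit of `a_n / c_n` on a ball of potentials. -/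
theorem core_a (cs : ℕ → ℝ) (hcs : ∀ᶠ n in atTop, 0 < cs n) (hct : Tendsto cs atTop atTop)
    (hc : Tendsto (fun n => cs (n + 1) / cs n) atTop (𝓝 1)) (Q₀ : ℝ → ℝ) (hQ₀ : Measurable Q₀)
    (hw : IsWeight (weight Q₀)) (ℓ₀ : ℝ) (hℓ₀ : 0 < ℓ₀)
    (h0 : Tendsto (fun n => an (weight Q₀) n / cs n) atTop (𝓝 ℓ₀)) (ε : ℝ) (hε : 0 < ε) :
    ∃ φ : ℝ → ℝ, ContDiff ℝ ∞ φ ∧ (∀ x, |φ x| ≤ ε) ∧ ∃ r : ℝ, 0 < r ∧
      ∀ Q : ℝ → ℝ, Measurable Q → (∀ x, |Q x - (Q₀ x + φ x)| ≤ r) →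
        ∀ ℓ : ℝ, 0 < ℓ → ¬ Tendsto (fun n => an (weight Q) n / cs n) atTop (𝓝 ℓ) := by
  obtain ⟨r1, r2⟩ := ratio_of cs hcs hct hc hw ℓ₀ hℓ₀ h0
  obtain ⟨φ, hφ, hφε, σ, hσ0, hσ1, hσδ, r, hr0, hr⟩ := core Q₀ hQ₀ (fun _ => Fn (weight Q₀))
    (fun _ => Fn_integrable hw) (fun _ => Fn_meas hw)
    (fun _ => Filter.Eventually.of_forall (Fn_L1 hw)) (1 / 20000) (by norm_num) (by norm_num)
    (fun _ => Dn_osc hw r1 r2) ε hε
  refine ⟨φ, hφ, hφε, r, hr0, fun Q hQ hQr ℓ hℓ hlim => ?_⟩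
  obtain ⟨g, hg, hg1, hwg, hosc⟩ := hr Q hQ hQr
  rw [hwg] at hlim
  exact no_limit_a cs hcs hw hg hg1 σ (1 / 20000 / 8) hσ0 hσ1 (by linarith) ℓ₀ ℓ hℓ₀ hℓ h0 hlim
    (hosc true)

/-- Perturbation destroying both limits on a ball of potentials. -/
theorem core_ab (cs : ℕ → ℝ) (hcs : ∀ᶠ n in atTop, 0 < cs n) (hct : Tendsto cs atTop atTop)
    (hc : Tendsto (fun n => cs (n + 1) / cs n) atTop (𝓝 1)) (Q₀ : ℝ → ℝ) (hQ₀ : Measurable Q₀)
    (hw : IsWeight (weight Q₀)) (ℓ₀ m₀ : ℝ) (hℓ₀ : 0 < ℓ₀)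
    (h0 : Tendsto (fun n => an (weight Q₀) n / cs n) atTop (𝓝 ℓ₀))
    (hb0 : Tendsto (fun n => bn (weight Q₀) n / cs n) atTop (𝓝 m₀)) (ε : ℝ) (hε : 0 < ε) :
    ∃ φ : ℝ → ℝ, ContDiff ℝ ∞ φ ∧ (∀ x, |φ x| ≤ ε) ∧ ∃ r : ℝ, 0 < r ∧
      ∀ Q : ℝ → ℝ, Measurable Q → (∀ x, |Q x - (Q₀ x + φ x)| ≤ r) →
        (∀ ℓ : ℝ, 0 < ℓ → ¬ Tendsto (fun n => an (weight Q) n / cs n) atTop (𝓝 ℓ)) ∧
        ∀ m : ℝ, ¬ Tendsto (fun n => bn (weight Q) n / cs n) atTop (𝓝 m) := by
  set w := weight Q₀ with hwdef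
  obtain ⟨r1, r2⟩ := ratio_of cs hcs hct hc hw ℓ₀ hℓ₀ h0
  have hbd : Tendsto (fun n => (bn w (n + 1) - bn w n) / an w (n + 1)) atTop (𝓝 0) := by
    have hb1 := hb0.comp (tendsto_add_atTop_nat 1)
    have ha1 := h0.comp (tendsto_add_atTop_nat 1)
    have hci := hc.inv₀ one_ne_zero
    rw [inv_one] at hci
    have h3 := (hb1.sub (hb0.mul hci)).div ha1 hℓ₀.ne'
    rw [mul_one, sub_self, zero_div] at h3
    refine h3.congr' ?_
    filter_upwards [hcs, (tendsto_add_atTop_nat 1).eventually hcs] with n e1 e2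
    have e3 := (an_pos hw (n + 1)).ne'
    have e4 := e1.ne'
    have e5 := e2.ne'
    simp only [Function.comp, Pi.div_apply]
    field_simp
  set F : Bool → ℕ → ℝ → ℝ := fun c n x => if c then Fn w n x else
    (1 / an w (n + 1)) * Hn w n x with hF
  have hFt : ∀ n, F true n = Fn w n := fun n => by funext x; simp [hF]
  have hFf : ∀ n, F false n = fun x => (1 / an w (n + 1)) * Hn w n x := fun n => by
    funext x; simp [hF]
  have hFi : ∀ c n, Integrable (F c n) := by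
    intro c n
    cases c
    · rw [hFf]; exact (Hn_integrable hw n).const_mul _
    · rw [hFt]; exact Fn_integrable hw n
  have hFm : ∀ c n, Measurable (F c n) := by
    intro c n
    cases c
    · rw [hFf]; exact (Hn_meas hw n).const_mul _
    · rw [hFt]; exact Fn_meas hw n
  have hF3 : ∀ c, ∀ᶠ n in atTop, ∫ x, |F c n x| ≤ 3 := by
    intro c
    cases c
    · have h4 : ∀ᶠ n in atTop, an w (n + 1 + 1) / an w (n + 1) ≤ 2 :=
        (r1.comp (tendsto_add_atTop_nat 1)).eventually (ge_mem_nhds (by norm_num))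
      filter_upwards [h4] with n hn
      have ha := an_pos hw (n + 1)
      rw [hFf]
      have h5 : ∀ x, |1 / an w (n + 1) * Hn w n x| = 1 / an w (n + 1) * |Hn w n x| := by
        intro x
        rw [abs_mul, abs_of_pos (by positivity)]
      simp only [h5]
      rw [integral_const_mul]
      have h6 := Hn_L1 hw n
      rw [div_le_iff₀ ha] at hn
      have e : n + 1 + 1 = n + 2 := rfl
      rw [e] at hn
      have h7 : 1 / an w (n + 1) * ∫ x, |Hn w n x| ≤ 1 / an w (n + 1) * (3 * an w (n + 1)) :=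
        mul_le_mul_of_nonneg_left (by linarith) (by positivity)
      refine h7.trans (le_of_eq ?_)
      field_simp
    · refine Filter.Eventually.of_forall fun n => ?_
      rw [hFt]
      exact Fn_L1 hw n
  have hosc0 : ∀ c, ∀ M : ℝ, 0 ≤ M → ∀ N : ℕ, ∃ n, N ≤ n ∧
      (1 / 20000 : ℝ) ≤ ∫ x in {x : ℝ | M < |x|}, |F c n x| := by
    intro c M hM N
    cases c
    · have h5 : ∀ n, ∫ x in {x : ℝ | M < |x|}, |F false n x| = 1 / an w (n + 1) * DH w M n := by
        intro n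
        have ha := an_pos hw (n + 1)
        rw [hFf, DH, ← integral_const_mul]
        congr 1
        funext x
        rw [abs_mul, abs_of_pos (by positivity)]
      have h4 : ∀ᶠ n in atTop, an w (n + 2 + 1) / an w (n + 2) ≤ 2 :=
        (r1.comp (tendsto_add_atTop_nat 2)).eventually (ge_mem_nhds (by norm_num))
      obtain ⟨n, ⟨hn1, hn2⟩, hn3⟩ := (((H_lower hw r1 r2 hbd M hM).and h4).and
        (eventually_ge_atTop N)).exists
      have ha2 := an_pos hw (n + 2)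
      rw [div_le_iff₀ ha2] at hn2
      have e : n + 2 + 1 = n + 3 := rfl
      rw [e] at hn2
      have ha3 := an_pos hw (n + 3)
      rcases hn1 with h | h
      · refine ⟨n + 1, by omega, ?_⟩
        rw [h5]
        have e2 : n + 1 + 1 = n + 2 := rfl
        rw [e2, one_div_mul_eq_div, le_div_iff₀ ha2]
        linarith
      · refine ⟨n + 2, by omega, ?_⟩
        rw [h5]
        have e2 : n + 2 + 1 = n + 3 := rfl
        rw [e2, one_div_mul_eq_div, le_div_iff₀ ha3]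
        linarith
    · obtain ⟨n, hn1, hn2⟩ := Dn_osc hw r1 r2 M hM N
      refine ⟨n, hn1, ?_⟩
      rw [hFt]
      exact hn2
  obtain ⟨φ, hφ, hφε, σ, hσ0, hσ1, hσδ, r, hr0, hr⟩ := core Q₀ hQ₀ F hFi hFm hF3
    (1 / 20000) (by norm_num) (by norm_num) hosc0 ε hε
  refine ⟨φ, hφ, hφε, r, hr0, fun Q hQ hQr => ?_⟩
  obtain ⟨g, hg, hg1, hwg, hosc⟩ := hr Q hQ hQr
  constructor
  · intro ℓ hℓ hlim
    rw [hwg] at hlim
    refine no_limit_a cs hcs hw hg hg1 σ (1 / 20000 / 8) hσ0 hσ1 (by linarith) ℓ₀ ℓ hℓ₀ hℓ h0 hlim ?_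
    intro N
    obtain ⟨n, hn1, hn2⟩ := hosc true N
    rw [hFt] at hn2
    exact ⟨n, hn1, hn2⟩
  · intro m hlim
    rw [hwg] at hlim
    refine no_limit_b cs hcs hw hg hg1 σ (1 / 20000 / 8) hσ0 hσ1 (by linarith) ℓ₀ m₀ m hℓ₀ hc h0 hb0
      hlim ?_
    intro N
    obtain ⟨n, hn1, hn2⟩ := hosc false N
    refine ⟨n, hn1, ?_⟩
    have ha := an_pos hw (n + 1)
    have h5 : ∫ x, F false n x * g x = 1 / an w (n + 1) * ∫ x, Hn w n x * g x := by
      rw [hFf, ← integral_const_mul]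
      congr 1
      funext x
      ring
    rw [h5, abs_mul, abs_of_pos (by positivity : 0 < 1 / an w (n + 1)), one_div_mul_eq_div,
      le_div_iff₀ ha] at hn2
    exact hn2

end Pool.Agent.Y255.FR
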