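import Pool.Agent.Y255.FR.Mom

/-!
Lower bound for the first variation of the diagonal recurrence coefficients outside a bounded set.
-/

open Polynomial MeasureTheory Filter Topology
open Pool.Agent.Results.MP_e8d659_an.NoLimit

namespace Pool.Agent.Y255.FR

/-- The pointwise inequality, scaled. -/
theorem outerB_scaled (t d u v s z ρ ρ' θ : ℝ) (hθ : |θ| ≤ 3) (hρ : ρ ^ 2 ≤ 5 / 4)
    (h1 : t * v = ρ * s + u) (h2 : (t - d) * s = ρ' * z + ρ * v) :
    t * (t - θ) * (4 * ρ ^ 2 - t ^ 2) * v ^ 2 ≤ 192 * |v * (ρ * s - u)| +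
      30 * |s * (ρ' * z - ρ * v)| + 30 * |d| * s ^ 2 := by
  set p := v * (ρ * s - u) with hp
  set q := s * (ρ' * z - ρ * v) with hq
  have hK1 : t * v ^ 2 + p = 2 * ρ * v * s := by
    have : t * v ^ 2 = v * (t * v) := by ring
    rw [this, h1, hp]; ring
  have hK2 : (t - d) * s ^ 2 - q = 2 * ρ * v * s := by
    have : (t - d) * s ^ 2 = s * ((t - d) * s) := by ring
    rw [this, h2, hq]; ring
  set e := p + q + d * s ^ 2 with he
  have he' : t * s ^ 2 = t * v ^ 2 + e := by rw [he]; linarith only [hK1, hK2]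
  have heabs : |e| ≤ |p| + |q| + |d| * s ^ 2 := by
    refine (abs_add_le _ _).trans (add_le_add (abs_add_le _ _) (le_of_eq ?_))
    rw [abs_mul, abs_of_nonneg (sq_nonneg s)]
  have hs2 := sq_nonneg s
  have hv2 := sq_nonneg v
  have hdn : 0 ≤ |d| * s ^ 2 := by positivity
  have hpn := abs_nonneg p
  have hqn := abs_nonneg q
  have hen := abs_nonneg e
  rcases le_or_gt |t| 3 with ht | ht
  · -- small t
    have hid : t * (t ^ 2 - 4 * ρ ^ 2) * v ^ 4 =
        4 * ρ ^ 2 * v ^ 2 * e - 2 * t ^ 2 * v ^ 2 * p - t * p ^ 2 := by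
      have h3 : t * (t * v ^ 2 + p) ^ 2 = 4 * ρ ^ 2 * v ^ 2 * (t * s ^ 2) := by
        rw [hK1]; ring
      rw [he'] at h3
      linarith only [h3]
    have ht2 : t ^ 2 ≤ 9 := by
      have := abs_le.1 ht
      nlinarith only [this.1, this.2]
    have hρ0 := sq_nonneg ρ
    have ht0 := sq_nonneg t
    set T := |t * (t ^ 2 - 4 * ρ ^ 2)| * v ^ 2 with hT
    have hT0 : 0 ≤ T := by positivity
    have hcoef : |t * (t ^ 2 - 4 * ρ ^ 2)| ≤ 27 := by
      rw [abs_mul]
      have : |t ^ 2 - 4 * ρ ^ 2| ≤ 9 := by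
        rw [abs_le]; constructor <;> linarith only [ht2, hρ, hρ0, ht0]
      calc |t| * |t ^ 2 - 4 * ρ ^ 2| ≤ 3 * 9 :=
            mul_le_mul ht this (abs_nonneg _) (by norm_num)
        _ = 27 := by norm_num
    have hTb : T ≤ 5 * |e| + 27 * |p| := by
      rcases le_or_gt (v ^ 2) |p| with hc | hc
      · have h3 : T ≤ 27 * v ^ 2 := mul_le_mul_of_nonneg_right hcoef hv2
        linarith only [h3, hc, hen]
      · have hvpos : 0 < v ^ 2 := lt_of_le_of_lt hpn hc
        have h3 : v ^ 2 * T = |t * (t ^ 2 - 4 * ρ ^ 2) * v ^ 4| := by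
          rw [abs_mul (t * (t ^ 2 - 4 * ρ ^ 2)), hT, abs_of_nonneg (by positivity : 0 ≤ v ^ 4)]
          ring
        rw [hid] at h3
        have h4 : |4 * ρ ^ 2 * v ^ 2 * e - 2 * t ^ 2 * v ^ 2 * p - t * p ^ 2| ≤
            5 * v ^ 2 * |e| + 18 * v ^ 2 * |p| + 3 * |p| ^ 2 := by
          refine (abs_sub _ _).trans (add_le_add ((abs_sub _ _).trans (add_le_add ?_ ?_)) ?_)
          · rw [abs_mul, abs_of_nonneg (by positivity : 0 ≤ 4 * ρ ^ 2 * v ^ 2)]
            refine mul_le_mul_of_nonneg_right ?_ hen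
            nlinarith only [hρ, hv2]
          · rw [abs_mul, abs_of_nonneg (by positivity : 0 ≤ 2 * t ^ 2 * v ^ 2)]
            refine mul_le_mul_of_nonneg_right ?_ hpn
            nlinarith only [ht2, hv2]
          · rw [abs_mul, sq_abs, abs_of_nonneg (sq_nonneg p)]
            exact mul_le_mul_of_nonneg_right ht (sq_nonneg p)
        rw [← h3] at h4
        have h5 : 3 * |p| ^ 2 ≤ 3 * v ^ 2 * |p| := by nlinarith only [hc, hpn]
        have h6 : v ^ 2 * T ≤ v ^ 2 * (5 * |e| + 27 * |p|) := by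
          nlinarith only [h4, h5, hpn, hvpos]
        exact le_of_mul_le_mul_left h6 hvpos
    have hGT : t * (t - θ) * (4 * ρ ^ 2 - t ^ 2) * v ^ 2 ≤ 6 * T := by
      have h3 : |t - θ| ≤ 6 := by
        have := abs_sub t θ
        linarith only [this, ht, hθ]
      have h4 : t * (t - θ) * (4 * ρ ^ 2 - t ^ 2) * v ^ 2 ≤
          |t - θ| * T := by
        have h5 : |t - θ| * T = |t * (t - θ) * (4 * ρ ^ 2 - t ^ 2) * v ^ 2| := by
          rw [hT, ← abs_of_nonneg hv2, ← abs_mul, ← abs_mul, abs_of_nonneg hv2]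
          rw [← abs_neg]
          congr 1
          ring
        rw [h5]
        exact le_abs_self _
      exact h4.trans (mul_le_mul_of_nonneg_right h3 hT0)
    linarith only [hGT, hTb, heabs, hpn, hqn, hdn]
  · have h3 : 0 ≤ t * (t - θ) := by
      have h4 : |t * θ| ≤ t ^ 2 := by
        rw [abs_mul, ← sq_abs t]
        nlinarith only [hθ, ht, abs_nonneg t, abs_nonneg θ]
      have h5 := le_abs_self (t * θ)
      nlinarith only [h4, h5]
    have h6 : 0 ≤ t ^ 2 - 4 * ρ ^ 2 := by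
      have h7 : 9 ≤ t ^ 2 := by
        rw [← sq_abs]; nlinarith only [ht]
      linarith only [h7, hρ]
    have h8 : t * (t - θ) * (4 * ρ ^ 2 - t ^ 2) * v ^ 2 =
        -((t * (t - θ)) * (t ^ 2 - 4 * ρ ^ 2) * v ^ 2) := by ring
    rw [h8]
    have h9 : 0 ≤ (t * (t - θ)) * (t ^ 2 - 4 * ρ ^ 2) * v ^ 2 := by positivity
    linarith only [h9, hpn, hqn, hdn]

theorem outerB (a a' a'' y d u v s z θ : ℝ) (ha : 0 < a) (hθ : |θ| ≤ 3)
    (hρ : a' ^ 2 ≤ 5 / 4 * a ^ 2) (h1 : y * v = a' * s + a * u)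
    (h2 : (y - d) * s = a'' * z + a' * v) :
    y * (y - θ * a) * (4 * a' ^ 2 - y ^ 2) * v ^ 2 ≤ a ^ 3 * (192 * |v * (a' * s - a * u)| +
      30 * |s * (a'' * z - a' * v)| + 30 * |d| * s ^ 2) := by
  have h3 := outerB_scaled (y / a) (d / a) u v s z (a' / a) (a'' / a) θ hθ (by
      rw [div_pow, div_le_iff₀ (by positivity)]; exact hρ) (by
      field_simp
      linarith only [h1]) (by
      field_simp
      linarith only [h2])
  have h4 := mul_le_mul_of_nonneg_left h3 (by positivity : 0 ≤ a ^ 4)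
  have e1 : a ^ 4 * (y / a * (y / a - θ) * (4 * (a' / a) ^ 2 - (y / a) ^ 2) * v ^ 2) =
      y * (y - θ * a) * (4 * a' ^ 2 - y ^ 2) * v ^ 2 := by
    field_simp
  have e2 : |v * (a' / a * s - u)| = |v * (a' * s - a * u)| / a := by
    rw [← abs_of_pos ha, ← abs_div, abs_of_pos ha]
    congr 1
    field_simp
  have e3 : |s * (a'' / a * z - a' / a * v)| = |s * (a'' * z - a' * v)| / a := by
    rw [← abs_of_pos ha, ← abs_div, abs_of_pos ha]
    congr 1
    field_simp
  have e4 : |d / a| = |d| / a := by rw [abs_div, abs_of_pos ha]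
  rw [e1, e2, e3, e4] at h4
  refine h4.trans (le_of_eq ?_)
  field_simp

variable {w : ℝ → ℝ}

/-- First variation of `b_{n+1}`. -/
noncomputable def Hn (w : ℝ → ℝ) (n : ℕ) (x : ℝ) : ℝ :=
  (pn w (n + 1)).eval x * (an w (n + 2) * (pn w (n + 2)).eval x -
    an w (n + 1) * (pn w n).eval x) * w x

theorem Hn_integrable (hw : IsWeight w) (n : ℕ) : Integrable (Hn w n) := by
  have h1 := ((hw.integrable₂ (pn w (n + 1)) (pn w (n + 2))).const_mul (an w (n + 2))).sub
    ((hw.integrable₂ (pn w (n + 1)) (pn w n)).const_mul (an w (n + 1)))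
  refine h1.congr (Filter.Eventually.of_forall fun x => ?_)
  simp only [Hn, Pi.sub_apply]
  ring

theorem Hn_meas (hw : IsWeight w) (n : ℕ) : Measurable (Hn w n) :=
  (((pn w (n + 1)).continuous.measurable).mul
    ((((pn w (n + 2)).continuous.measurable).const_mul _).sub
      (((pn w n).continuous.measurable).const_mul _))).mul hw.meas

/-- Mass of the first variation outside `[-M, M]`. -/
noncomputable def DH (w : ℝ → ℝ) (M : ℝ) (n : ℕ) : ℝ := ∫ x in {x : ℝ | M < |x|}, |Hn w n x|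

theorem abs_Hn (hw : IsWeight w) (n : ℕ) (x : ℝ) :
    |Hn w n x| = |(pn w (n + 1)).eval x * (an w (n + 2) * (pn w (n + 2)).eval x -
    an w (n + 1) * (pn w n).eval x)| * w x := by
  rw [Hn, abs_mul _ (w x), abs_of_pos (hw.pos x)]

theorem GB_ineq (hw : IsWeight w) (M : ℝ) (n : ℕ) (θ κ : ℝ) (hθ : |θ| ≤ 3) (hκ : 0 ≤ κ)
    (hρ : an w (n + 3) ^ 2 ≤ 5 / 4 * an w (n + 2) ^ 2)
    (hin : ∀ x, |x| ≤ M → (x - bn w (n + 2)) * (x - bn w (n + 2) - θ * an w (n + 2)) *
      (4 * an w (n + 3) ^ 2 - (x - bn w (n + 2)) ^ 2) ≤ κ) :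
    4 * an w (n + 3) ^ 2 * (an w (n + 3) ^ 2 + an w (n + 2) ^ 2) -
      ((an w (n + 3) * an w (n + 4)) ^ 2 +
      (an w (n + 3) * (bn w (n + 3) - bn w (n + 2))) ^ 2 +
      (an w (n + 3) ^ 2 + an w (n + 2) ^ 2) ^ 2 +
      (an w (n + 2) * (bn w (n + 1) - bn w (n + 2))) ^ 2 +
      (an w (n + 2) * an w (n + 1)) ^ 2) +
      θ * an w (n + 2) * (an w (n + 3) ^ 2 * (bn w (n + 3) - bn w (n + 2)) +
        an w (n + 2) ^ 2 * (bn w (n + 1) - bn w (n + 2))) ≤
    an w (n + 2) ^ 3 * (192 * DH w M (n + 1) + 30 * DH w M (n + 2) +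
      30 * |bn w (n + 3) - bn w (n + 2)|) + κ := by
  have q2 := iM2 hw (n + 1)
  have q4 := iM4 hw n
  have q3 := iM3 hw n
  have q1 := iM1 hw (n + 1)
  have q0 := iM0 hw (n + 2)
  have q0' := iM0 hw (n + 3)
  set a := an w (n + 2) with ha
  set a' := an w (n + 3) with ha'
  set b := bn w (n + 2) with hb
  set d := bn w (n + 3) - b with hd
  have hapos : 0 < a := an_pos hw _
  have ha3 : 0 ≤ a ^ 3 := pow_nonneg hapos.le 3
  set S := {x : ℝ | M < |x|} with hS
  have hSm : MeasurableSet S := measurableSet_tail M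
  have i0 : Integrable (fun x => (pn w (n + 2)).eval x ^ 2 * w x) := integrable_sq hw _
  have i0' : Integrable (fun x => (pn w (n + 3)).eval x ^ 2 * w x) := integrable_sq hw _
  have i1 : Integrable (fun x => (x - b) ^ 1 * (pn w (n + 2)).eval x ^ 2 * w x) := int_p hw _ _ _
  have i2 : Integrable (fun x => (x - b) ^ 2 * (pn w (n + 2)).eval x ^ 2 * w x) := int_p hw _ _ _
  have i3 : Integrable (fun x => (x - b) ^ 3 * (pn w (n + 2)).eval x ^ 2 * w x) := int_p hw _ _ _
  have i4 : Integrable (fun x => (x - b) ^ 4 * (pn w (n + 2)).eval x ^ 2 * w x) := int_p hw _ _ _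
  have j1 : Integrable (S.indicator fun x => |Hn w (n + 1) x|) :=
    (Hn_integrable hw _).abs.indicator hSm
  have j0 : Integrable (S.indicator fun x => |Hn w (n + 2) x|) :=
    (Hn_integrable hw _).abs.indicator hSm
  have d1 : ∫ x, S.indicator (fun x => |Hn w (n + 1) x|) x = DH w M (n + 1) := by
    rw [integral_indicator hSm, DH]
  have d0 : ∫ x, S.indicator (fun x => |Hn w (n + 2) x|) x = DH w M (n + 2) := by
    rw [integral_indicator hSm, DH]
  have hpt : ∀ x, 4 * a' ^ 2 * ((x - b) ^ 2 * (pn w (n + 2)).eval x ^ 2 * w x) -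
      (x - b) ^ 4 * (pn w (n + 2)).eval x ^ 2 * w x +
      θ * a * ((x - b) ^ 3 * (pn w (n + 2)).eval x ^ 2 * w x) -
      4 * θ * a * a' ^ 2 * ((x - b) ^ 1 * (pn w (n + 2)).eval x ^ 2 * w x) ≤
      a ^ 3 * 192 * S.indicator (fun x => |Hn w (n + 1) x|) x +
      a ^ 3 * 30 * S.indicator (fun x => |Hn w (n + 2) x|) x +
      a ^ 3 * (30 * |d|) * ((pn w (n + 3)).eval x ^ 2 * w x) +
      κ * ((pn w (n + 2)).eval x ^ 2 * w x) := by
    intro x
    have hwx := (hw.pos x).le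
    have hrec : (x - b) * (pn w (n + 2)).eval x =
        a' * (pn w (n + 3)).eval x + a * (pn w (n + 1)).eval x := by
      have := congrArg (eval x) (Y_mul_pn hw (n + 1))
      simp only [eval_add, eval_mul, eval_C, eval_X, eval_sub] at this
      exact this
    have hrec2 : ((x - b) - d) * (pn w (n + 3)).eval x =
        an w (n + 4) * (pn w (n + 4)).eval x + a' * (pn w (n + 2)).eval x := by
      have := congrArg (eval x) (Y_mul_pn hw (n + 2))
      simp only [eval_add, eval_mul, eval_C, eval_X, eval_sub] at this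
      rw [hd, show x - b - (bn w (n + 3) - b) = x - bn w (n + 2 + 1) by ring]
      exact this
    set v := (pn w (n + 2)).eval x with hv
    have hlhs : 4 * a' ^ 2 * ((x - b) ^ 2 * v ^ 2 * w x) - (x - b) ^ 4 * v ^ 2 * w x +
        θ * a * ((x - b) ^ 3 * v ^ 2 * w x) - 4 * θ * a * a' ^ 2 * ((x - b) ^ 1 * v ^ 2 * w x) =
        ((x - b) * ((x - b) - θ * a) * (4 * a' ^ 2 - (x - b) ^ 2) * v ^ 2) * w x := by
      ring
    rw [hlhs]
    have hsn : 0 ≤ (pn w (n + 3)).eval x ^ 2 * w x := mul_nonneg (sq_nonneg _) hwx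
    have hvn : 0 ≤ v ^ 2 * w x := mul_nonneg (sq_nonneg _) hwx
    by_cases hx : x ∈ S
    · rw [Set.indicator_of_mem hx, Set.indicator_of_mem hx, abs_Hn hw, abs_Hn hw]
      have key := outerB a a' (an w (n + 4)) (x - b) d ((pn w (n + 1)).eval x) v
        ((pn w (n + 3)).eval x) ((pn w (n + 4)).eval x) θ hapos hθ hρ hrec hrec2
      have h1 := mul_le_mul_of_nonneg_right key hwx
      refine h1.trans ?_
      have h2 : 0 ≤ κ * (v ^ 2 * w x) := mul_nonneg hκ hvn
      have e5 : n + 2 + 1 = n + 3 := rfl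
      have e6 : n + 1 + 1 = n + 2 := rfl
      have e7 : n + 1 + 2 = n + 3 := rfl
      have e8 : n + 2 + 2 = n + 4 := rfl
      rw [e5, e6, e7, e8, ← hv, ← ha', ← ha]
      linarith only [h2]
    · rw [Set.indicator_of_notMem hx, Set.indicator_of_notMem hx]
      have hx' : |x| ≤ M := not_lt.1 hx
      have h1 := hin x hx'
      have h3 := mul_le_mul_of_nonneg_right h1 hvn
      have h4 : 0 ≤ a ^ 3 * (30 * |d|) * ((pn w (n + 3)).eval x ^ 2 * w x) :=
        mul_nonneg (mul_nonneg ha3 (mul_nonneg (by norm_num) (abs_nonneg _))) hsn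
      linarith only [h3, h4]
  have hint := integral_mono ((((i2.const_mul (4 * a' ^ 2)).sub i4).add (i3.const_mul (θ * a))).sub
      (i1.const_mul (4 * θ * a * a' ^ 2)))
    ((((j1.const_mul (a ^ 3 * 192)).add (j0.const_mul (a ^ 3 * 30))).add
      (i0'.const_mul (a ^ 3 * (30 * |d|)))).add (i0.const_mul κ)) hpt
  rw [integral_sub' (((i2.const_mul (4 * a' ^ 2)).sub i4).add (i3.const_mul (θ * a)))
      (i1.const_mul (4 * θ * a * a' ^ 2)),
    integral_add' ((i2.const_mul (4 * a' ^ 2)).sub i4) (i3.const_mul (θ * a)),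
    integral_sub' (i2.const_mul (4 * a' ^ 2)) i4,
    integral_add' (((j1.const_mul (a ^ 3 * 192)).add (j0.const_mul (a ^ 3 * 30))).add
      (i0'.const_mul (a ^ 3 * (30 * |d|)))) (i0.const_mul κ),
    integral_add' ((j1.const_mul (a ^ 3 * 192)).add (j0.const_mul (a ^ 3 * 30)))
      (i0'.const_mul (a ^ 3 * (30 * |d|))),
    integral_add' (j1.const_mul (a ^ 3 * 192)) (j0.const_mul (a ^ 3 * 30)),
    integral_const_mul, integral_const_mul, integral_const_mul, integral_const_mul,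
    integral_const_mul, integral_const_mul, integral_const_mul, q0, q0', q1, q2, q3, q4, d1, d0]
    at hint
  linarith only [hint]

theorem num_contraB (r3 r4 r1 p q θ D1 D2 m : ℝ) (h3 : |r3 - 1| ≤ 1 / 10000)
    (h4 : |r4 - 1| ≤ 1 / 10000) (h1 : |r1 - 1| ≤ 1 / 10000) (hp : |p| ≤ 1 / 10000)
    (hq : |q| ≤ 1 / 10000)
    (hθ : |θ| ≤ 3) (hD1 : D1 ≤ 1 / 200) (hD2 : D2 ≤ 1 / 200) (hm : m ≤ 1 / 10000)
    (h : 4 * r3 ^ 2 * (r3 ^ 2 + 1) - ((r3 * r4) ^ 2 + (r3 * p) ^ 2 + (r3 ^ 2 + 1) ^ 2 + q ^ 2 +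
      r1 ^ 2) + θ * (r3 ^ 2 * p + q) ≤ 192 * D1 + 30 * D2 + 30 * |p| + 80 * m) : False := by
  have a3 := abs_le.1 h3
  have a4 := abs_le.1 h4
  have a1 := abs_le.1 h1
  have ap := abs_le.1 hp
  have aq := abs_le.1 hq
  have b3 : r3 ^ 2 ≤ 10003 / 10000 := by nlinarith only [a3.1, a3.2]
  have b3' : 9997 / 10000 ≤ r3 ^ 2 := by nlinarith only [a3.1, a3.2]
  have b4 : r4 ^ 2 ≤ 10003 / 10000 := by nlinarith only [a4.1, a4.2]
  have b1 : r1 ^ 2 ≤ 10003 / 10000 := by nlinarith only [a1.1, a1.2]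
  have bp : p ^ 2 ≤ 1 / 100 := by nlinarith only [ap.1, ap.2]
  have bq : q ^ 2 ≤ 1 / 100 := by nlinarith only [aq.1, aq.2]
  have c0 : 7990 / 1000 ≤ 4 * r3 ^ 2 * (r3 ^ 2 + 1) := by nlinarith only [b3']
  have c1 : (r3 * r4) ^ 2 ≤ 10007 / 10000 := by
    rw [mul_pow]
    nlinarith only [b3, b4, b3', sq_nonneg r4]
  have c2 : (r3 * p) ^ 2 ≤ 11 / 1000 := by
    rw [mul_pow]
    nlinarith only [b3, bp, b3', sq_nonneg p]
  have c3 : (r3 ^ 2 + 1) ^ 2 ≤ 40013 / 10000 := by nlinarith only [b3, b3']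
  have c5 : |r3 ^ 2 * p + q| ≤ 3 / 10000 := by
    refine (abs_add_le _ _).trans ?_
    rw [abs_mul, abs_of_nonneg (sq_nonneg r3)]
    nlinarith only [b3, hp, hq, abs_nonneg p, b3']
  have c6 : -(9 / 10000) ≤ θ * (r3 ^ 2 * p + q) := by
    have h5 := neg_abs_le (θ * (r3 ^ 2 * p + q))
    rw [abs_mul] at h5
    have h6 : |θ| * |r3 ^ 2 * p + q| ≤ 3 * (3 / 10000) :=
      mul_le_mul hθ c5 (abs_nonneg _) (by norm_num)
    linarith only [h5, h6]
  linarith only [h, c0, c1, c2, c3, c6, b1, bq, hD1, hD2, hm, hp]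

/-- Lower bound for the first variation of the diagonal coefficients outside a bounded set. -/
theorem H_lower (hw : IsWeight w)
    (h1 : Tendsto (fun n => an w (n + 1) / an w n) atTop (𝓝 1))
    (h2 : Tendsto (an w) atTop atTop)
    (hb : Tendsto (fun n => (bn w (n + 1) - bn w n) / an w (n + 1)) atTop (𝓝 0))
    (M : ℝ) (hM : 0 ≤ M) :
    ∀ᶠ n in atTop, an w (n + 2) / 200 ≤ DH w M (n + 1) ∨ an w (n + 2) / 200 ≤ DH w M (n + 2) := by
  have r3 : Tendsto (fun n => an w (n + 3) / an w (n + 2)) atTop (𝓝 1) :=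
    h1.comp (tendsto_add_atTop_nat 2)
  have r3' : Tendsto (fun n => an w (n + 4) / an w (n + 3)) atTop (𝓝 1) :=
    h1.comp (tendsto_add_atTop_nat 3)
  have r4 : Tendsto (fun n => an w (n + 4) / an w (n + 2)) atTop (𝓝 1) := by
    have := r3'.mul r3
    rw [mul_one] at this
    refine this.congr fun n => ?_
    have := (an_pos hw (n + 3)).ne'
    have := (an_pos hw (n + 2)).ne'
    field_simp
  have r1 : Tendsto (fun n => an w (n + 1) / an w (n + 2)) atTop (𝓝 1) := by
    have := (h1.comp (tendsto_add_atTop_nat 1)).inv₀ one_ne_zero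
    rw [inv_one] at this
    refine this.congr fun n => ?_
    simp only [Function.comp]
    rw [inv_div]
  have rq : Tendsto (fun n => (bn w (n + 1) - bn w (n + 2)) / an w (n + 2)) atTop (𝓝 0) := by
    have := (hb.comp (tendsto_add_atTop_nat 1)).neg
    rw [neg_zero] at this
    refine this.congr fun n => ?_
    simp only [Function.comp]
    rw [← neg_div, neg_sub]
  have rp : Tendsto (fun n => (bn w (n + 3) - bn w (n + 2)) / an w (n + 2)) atTop (𝓝 0) := by
    have := (hb.comp (tendsto_add_atTop_nat 2)).mul r3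
    rw [zero_mul] at this
    refine this.congr fun n => ?_
    simp only [Function.comp]
    have h3 := (an_pos hw (n + 3)).ne'
    have h4 := (an_pos hw (n + 2)).ne'
    have e5 : n + 2 + 1 = n + 3 := rfl
    rw [e5]
    field_simp
  have hball : ∀ u : ℕ → ℝ, Tendsto u atTop (𝓝 1) → ∀ᶠ n in atTop, |u n - 1| ≤ 1 / 10000 := by
    intro u hu
    have h3 := (hu.sub_const 1).abs
    rw [sub_self, abs_zero] at h3
    exact h3.eventually (ge_mem_nhds (by norm_num))
  have hball0 : ∀ u : ℕ → ℝ, Tendsto u atTop (𝓝 0) → ∀ᶠ n in atTop, |u n| ≤ 1 / 10000 := by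
    intro u hu
    have h3 := hu.abs
    rw [abs_zero] at h3
    exact h3.eventually (ge_mem_nhds (by norm_num))
  have hlarge : ∀ᶠ n in atTop, M * 10000 ≤ an w (n + 2) :=
    (h2.comp (tendsto_add_atTop_nat 2)).eventually (eventually_ge_atTop _)
  filter_upwards [hball _ r3, hball _ r4, hball _ r1, hlarge, hball0 _ rp, hball0 _ rq]
    with n e3 e4 e1 hMa ep eq
  by_contra hcon
  rw [not_or, not_le, not_le] at hcon
  obtain ⟨hD1, hD2⟩ := hcon
  have hG := GB_ineq hw M n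
  have hapos : 0 < an w (n + 2) := an_pos hw _
  have g3 : an w (n + 3) = an w (n + 3) / an w (n + 2) * an w (n + 2) := by field_simp
  have g4 : an w (n + 4) = an w (n + 4) / an w (n + 2) * an w (n + 2) := by field_simp
  have g1 : an w (n + 1) = an w (n + 1) / an w (n + 2) * an w (n + 2) := by field_simp
  have gp : bn w (n + 3) - bn w (n + 2) = (bn w (n + 3) - bn w (n + 2)) / an w (n + 2) *
    an w (n + 2) := by field_simp
  have gq : bn w (n + 1) - bn w (n + 2) = (bn w (n + 1) - bn w (n + 2)) / an w (n + 2) *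
    an w (n + 2) := by field_simp
  generalize an w (n + 3) / an w (n + 2) = ρ3 at *
  generalize an w (n + 4) / an w (n + 2) = ρ4 at *
  generalize an w (n + 1) / an w (n + 2) = ρ1 at *
  generalize (bn w (n + 3) - bn w (n + 2)) / an w (n + 2) = p at *
  generalize (bn w (n + 1) - bn w (n + 2)) / an w (n + 2) = q at *
  rw [gp, gq, g3, g4, g1] at hG
  generalize an w (n + 2) = a at *
  generalize bn w (n + 2) = b at *
  generalize DH w M (n + 1) = D1 at *
  generalize DH w M (n + 2) = D2 at *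
  have a3 := abs_le.1 e3
  have s3 : ρ3 ^ 2 ≤ 10003 / 10000 := by nlinarith only [a3.1, a3.2]
  have s3a : (ρ3 * a) ^ 2 ≤ 10003 / 10000 * a ^ 2 := by
    rw [mul_pow]
    exact mul_le_mul_of_nonneg_right s3 (sq_nonneg a)
  obtain ⟨θ, hθ, hin⟩ : ∃ θ : ℝ, |θ| ≤ 3 ∧ ∀ x, |x| ≤ M → (x - b) * (x - b - θ * a) *
      (4 * (ρ3 * a) ^ 2 - (x - b) ^ 2) ≤ 80 * M * a ^ 3 := by
    have hκ : 0 ≤ 80 * M * a ^ 3 := by positivity
    rcases le_or_gt (|b|) (3 * a) with hc | hc
    · refine ⟨-(b / a), ?_, ?_⟩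
      · rw [abs_neg, abs_div, abs_of_pos hapos, div_le_iff₀ hapos]
        exact hc
      · intro x hx
        have h5 : x - b - -(b / a) * a = x := by field_simp; ring
        rw [h5]
        have h6 : |x - b| ≤ 4 * a := by
          have := abs_sub x b
          linarith only [this, hc, hx, hMa, hM, hapos]
        have h7 : |4 * (ρ3 * a) ^ 2 - (x - b) ^ 2| ≤ 20 * a ^ 2 := by
          have h8 := abs_le.1 h6
          rw [abs_le]
          constructor
          · nlinarith only [h8.1, h8.2, sq_nonneg (ρ3 * a)]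
          · nlinarith only [sq_nonneg (x - b), sq_nonneg a, s3a]
        have h9 : |(x - b) * x * (4 * (ρ3 * a) ^ 2 - (x - b) ^ 2)| ≤ (4 * a * M) * (20 * a ^ 2) := by
          rw [abs_mul, abs_mul]
          exact mul_le_mul (mul_le_mul h6 hx (abs_nonneg _) (by positivity)) h7 (abs_nonneg _)
            (by positivity)
        have h10 := le_abs_self ((x - b) * x * (4 * (ρ3 * a) ^ 2 - (x - b) ^ 2))
        linarith only [h9, h10]
    · refine ⟨0, by norm_num, ?_⟩
      intro x hx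
      have h5 : 4 * (ρ3 * a) ^ 2 ≤ (x - b) ^ 2 := by
        have h6 : |b| ≤ |x - b| + |x| := by
          have := abs_sub (x - b) x
          have e : x - b - x = -b := by ring
          rw [e, abs_neg] at this
          exact this
        have h7 : 5 / 2 * a ≤ |x - b| := by linarith only [h6, hc, hx, hMa, hM, hapos]
        have h8 : (5 / 2 * a) ^ 2 ≤ |x - b| ^ 2 := pow_le_pow_left₀ (by positivity) h7 2
        rw [sq_abs] at h8
        nlinarith only [h8, s3a, sq_nonneg a]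
      have h8 : (x - b) * (x - b - 0 * a) * (4 * (ρ3 * a) ^ 2 - (x - b) ^ 2) =
          -((x - b) ^ 2 * ((x - b) ^ 2 - 4 * (ρ3 * a) ^ 2)) := by ring
      rw [h8]
      have h9 : 0 ≤ (x - b) ^ 2 * ((x - b) ^ 2 - 4 * (ρ3 * a) ^ 2) :=
        mul_nonneg (sq_nonneg _) (sub_nonneg.2 h5)
      linarith only [h9, hκ]
  have hG' := hG θ (80 * M * a ^ 3) hθ (by positivity) (by nlinarith only [s3a, sq_nonneg a]) hin
  have ha4 : 0 < a ^ 4 := by positivity
  have hm' : M / a ≤ 1 / 10000 := by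
    rw [div_le_iff₀ hapos]; linarith only [hMa]
  have hκ' : 80 * M * a ^ 3 = 80 * (M / a) * a ^ 4 := by field_simp
  rw [hκ'] at hG'
  generalize M / a = m at *
  have hpa : |p * a| = |p| * a := by rw [abs_mul, abs_of_pos hapos]
  rw [hpa] at hG'
  have hD1' : D1 / a ≤ 1 / 200 := by
    rw [div_le_iff₀ hapos]; linarith only [hD1]
  have hD2' : D2 / a ≤ 1 / 200 := by
    rw [div_le_iff₀ hapos]; linarith only [hD2]
  have hD1a : D1 = D1 / a * a := by field_simp
  have hD2a : D2 = D2 / a * a := by field_simp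
  rw [hD1a, hD2a] at hG'
  generalize D1 / a = D1' at *
  generalize D2 / a = D2' at *
  have hfin : a ^ 4 * (4 * ρ3 ^ 2 * (ρ3 ^ 2 + 1) - ((ρ3 * ρ4) ^ 2 + (ρ3 * p) ^ 2 + (ρ3 ^ 2 + 1) ^ 2 +
      q ^ 2 + ρ1 ^ 2) + θ * (ρ3 ^ 2 * p + q)) ≤
      a ^ 4 * (192 * D1' + 30 * D2' + 30 * |p| + 80 * m) := by
    linarith only [hG']
  exact num_contraB ρ3 ρ4 ρ1 p q θ D1' D2' m e3 e4 e1 ep eq hθ hD1' hD2' hm'
    (le_of_mul_le_mul_left hfin ha4)

end Pool.Agent.Y255.FR
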