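import Pool.Agent.Results.MP_e8d659_an.NoLimit

/-!
Moments of the densities `p_n² w` about `b_n`, for weights that need not be even.
-/

open Polynomial MeasureTheory Filter Topology
open Pool.Agent.Results.MP_e8d659_an.NoLimit

namespace Pool.Agent.Y255.FR

variable {w : ℝ → ℝ}

/-- The recurrence, centred at `b_n`. -/
theorem Y_mul_pn (hw : IsWeight w) (n : ℕ) : (X - C (bn w (n + 1))) * pn w (n + 1) =
    C (an w (n + 2)) * pn w (n + 2) + C (an w (n + 1)) * pn w n := by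
  rw [sub_mul, X_mul_pn hw]; ring

theorem M1 (hw : IsWeight w) (n : ℕ) :
    B w ((X - C (bn w (n + 1))) * pn w (n + 1)) (pn w (n + 1)) = 0 := by
  rw [Y_mul_pn hw]
  simp only [B_add_left hw, B_C_mul_left, pn_orthonormal hw]
  have h1 : ¬ (n + 2 = n + 1) := by omega
  have h2 : ¬ (n = n + 1) := by omega
  simp only [h1, h2, if_false]
  ring

theorem M2 (hw : IsWeight w) (n : ℕ) :
    B w ((X - C (bn w (n + 1))) * pn w (n + 1)) ((X - C (bn w (n + 1))) * pn w (n + 1)) =
      an w (n + 2) ^ 2 + an w (n + 1) ^ 2 := by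
  rw [Y_mul_pn hw]
  simp only [B_add_left hw, B_add_right hw, B_C_mul_left, B_C_mul_right, pn_orthonormal hw]
  have h1 : ¬ (n + 2 = n) := by omega
  have h2 : ¬ (n = n + 2) := by omega
  simp only [h1, h2, if_true, if_false]
  ring

theorem YY_mul_pn (hw : IsWeight w) (n : ℕ) :
    (X - C (bn w (n + 2))) * ((X - C (bn w (n + 2))) * pn w (n + 2)) =
      C (an w (n + 3) * an w (n + 4)) * pn w (n + 4) +
      C (an w (n + 3) * (bn w (n + 3) - bn w (n + 2))) * pn w (n + 3) +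
      C (an w (n + 3) ^ 2 + an w (n + 2) ^ 2) * pn w (n + 2) +
      C (an w (n + 2) * (bn w (n + 1) - bn w (n + 2))) * pn w (n + 1) +
      C (an w (n + 2) * an w (n + 1)) * pn w n := by
  rw [Y_mul_pn hw (n + 1)]
  have e1 : (X - C (bn w (n + 2))) * (C (an w (n + 1 + 2)) * pn w (n + 1 + 2) +
      C (an w (n + 1 + 1)) * pn w (n + 1)) =
      C (an w (n + 3)) * ((X - C (bn w (n + 2 + 1))) * pn w (n + 2 + 1) +
        C (bn w (n + 3) - bn w (n + 2)) * pn w (n + 3)) +
      C (an w (n + 2)) * ((X - C (bn w (n + 1))) * pn w (n + 1) +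
        C (bn w (n + 1) - bn w (n + 2)) * pn w (n + 1)) := by
    simp only [map_sub]
    ring
  rw [e1, Y_mul_pn hw, Y_mul_pn hw]
  simp only [map_add, map_mul, map_pow, map_sub]
  ring

theorem M3 (hw : IsWeight w) (n : ℕ) :
    B w ((X - C (bn w (n + 2))) * pn w (n + 2))
      ((X - C (bn w (n + 2))) * ((X - C (bn w (n + 2))) * pn w (n + 2))) =
      an w (n + 3) ^ 2 * (bn w (n + 3) - bn w (n + 2)) +
        an w (n + 2) ^ 2 * (bn w (n + 1) - bn w (n + 2)) := by
  rw [YY_mul_pn hw, Y_mul_pn hw]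
  simp only [B_add_left hw, B_add_right hw, B_C_mul_left, B_C_mul_right, pn_orthonormal hw]
  have h1 : ¬ (n + 1 + 2 = n + 4) := by omega
  have h2 : (n + 1 + 2 = n + 3) := by omega
  have h3 : ¬ (n + 1 + 2 = n + 2) := by omega
  have h4 : ¬ (n + 1 + 2 = n + 1) := by omega
  have h5 : ¬ (n + 1 + 2 = n) := by omega
  have h6 : ¬ (n + 1 = n + 4) := by omega
  have h7 : ¬ (n + 1 = n + 3) := by omega
  have h8 : ¬ (n + 1 = n + 2) := by omega
  have h9 : ¬ (n + 1 = n) := by omega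
  simp only [h1, h2, h4, h5, h6, h7, h8, h9, if_true, if_false]
  have h10 : ¬ (n + 3 = n + 2) := by omega
  have h11 : ¬ (n + 3 = n + 4) := by omega
  have h12 : ¬ (n + 3 = n + 1) := by omega
  have h13 : ¬ (n + 3 = n) := by omega
  simp only [h10, h11, h12, h13, if_false]
  ring

theorem M4 (hw : IsWeight w) (n : ℕ) :
    B w ((X - C (bn w (n + 2))) * ((X - C (bn w (n + 2))) * pn w (n + 2)))
      ((X - C (bn w (n + 2))) * ((X - C (bn w (n + 2))) * pn w (n + 2))) =
      (an w (n + 3) * an w (n + 4)) ^ 2 +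
      (an w (n + 3) * (bn w (n + 3) - bn w (n + 2))) ^ 2 +
      (an w (n + 3) ^ 2 + an w (n + 2) ^ 2) ^ 2 +
      (an w (n + 2) * (bn w (n + 1) - bn w (n + 2))) ^ 2 +
      (an w (n + 2) * an w (n + 1)) ^ 2 := by
  rw [YY_mul_pn hw]
  simp only [B_add_left hw, B_add_right hw, B_C_mul_left, B_C_mul_right, pn_orthonormal hw]
  have h01 : ¬ (n + 4 = n + 3) := by omega
  have h02 : ¬ (n + 4 = n + 2) := by omega
  have h03 : ¬ (n + 4 = n + 1) := by omega
  have h04 : ¬ (n + 4 = n) := by omega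
  have h10 : ¬ (n + 3 = n + 4) := by omega
  have h12 : ¬ (n + 3 = n + 2) := by omega
  have h13 : ¬ (n + 3 = n + 1) := by omega
  have h14 : ¬ (n + 3 = n) := by omega
  have h20 : ¬ (n + 2 = n + 4) := by omega
  have h21 : ¬ (n + 2 = n + 3) := by omega
  have h23 : ¬ (n + 2 = n + 1) := by omega
  have h24 : ¬ (n + 2 = n) := by omega
  have h30 : ¬ (n + 1 = n + 4) := by omega
  have h31 : ¬ (n + 1 = n + 3) := by omega
  have h32 : ¬ (n + 1 = n + 2) := by omega
  have h34 : ¬ (n + 1 = n) := by omega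
  have h40 : ¬ (n = n + 4) := by omega
  have h41 : ¬ (n = n + 3) := by omega
  have h42 : ¬ (n = n + 2) := by omega
  have h43 : ¬ (n = n + 1) := by omega
  simp only [h01, h02, h03, h04, h10, h12, h13, h14, h20, h21, h23, h24, h30, h31, h32, h34, h40,
    h41, h42, h43, if_true, if_false]
  ring

/-- Integral forms. -/
theorem iM0 (hw : IsWeight w) (n : ℕ) : ∫ x, (pn w n).eval x ^ 2 * w x = 1 := integral_sq_pn hw n

theorem int_pw (hw : IsWeight w) (q : ℝ[X]) (n : ℕ) :
    Integrable (fun x => q.eval x * (pn w n).eval x ^ 2 * w x) := by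
  have := hw.integrable₂ (q * pn w n) (pn w n)
  refine this.congr (Filter.Eventually.of_forall fun x => ?_)
  simp only [eval_mul]; ring

theorem int_p (hw : IsWeight w) (b : ℝ) (k n : ℕ) :
    Integrable (fun x => (x - b) ^ k * (pn w n).eval x ^ 2 * w x) := by
  have := int_pw hw ((X - C b) ^ k) n
  refine this.congr (Filter.Eventually.of_forall fun x => ?_)
  simp only [eval_pow, eval_sub, eval_X, eval_C]

theorem iM1 (hw : IsWeight w) (n : ℕ) :
    ∫ x, (x - bn w (n + 1)) ^ 1 * (pn w (n + 1)).eval x ^ 2 * w x = 0 := by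
  rw [← M1 hw n, B]
  congr 1
  funext x
  simp only [eval_mul, eval_sub, eval_X, eval_C]; ring

theorem iM2 (hw : IsWeight w) (n : ℕ) :
    ∫ x, (x - bn w (n + 1)) ^ 2 * (pn w (n + 1)).eval x ^ 2 * w x =
      an w (n + 2) ^ 2 + an w (n + 1) ^ 2 := by
  rw [← M2 hw n, B]
  congr 1
  funext x
  simp only [eval_mul, eval_sub, eval_X, eval_C]; ring

theorem iM3 (hw : IsWeight w) (n : ℕ) :
    ∫ x, (x - bn w (n + 2)) ^ 3 * (pn w (n + 2)).eval x ^ 2 * w x =
      an w (n + 3) ^ 2 * (bn w (n + 3) - bn w (n + 2)) +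
        an w (n + 2) ^ 2 * (bn w (n + 1) - bn w (n + 2)) := by
  rw [← M3 hw n, B]
  congr 1
  funext x
  simp only [eval_mul, eval_sub, eval_X, eval_C]; ring

theorem iM4 (hw : IsWeight w) (n : ℕ) :
    ∫ x, (x - bn w (n + 2)) ^ 4 * (pn w (n + 2)).eval x ^ 2 * w x =
      (an w (n + 3) * an w (n + 4)) ^ 2 +
      (an w (n + 3) * (bn w (n + 3) - bn w (n + 2))) ^ 2 +
      (an w (n + 3) ^ 2 + an w (n + 2) ^ 2) ^ 2 +
      (an w (n + 2) * (bn w (n + 1) - bn w (n + 2))) ^ 2 +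
      (an w (n + 2) * an w (n + 1)) ^ 2 := by
  rw [← M4 hw n, B]
  congr 1
  funext x
  simp only [eval_mul, eval_sub, eval_X, eval_C]; ring

end Pool.Agent.Y255.FR
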