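import Pool.Agent.Results.MP_e8d659_an.NoLimit

/-!
Slowly varying functions: the uniform convergence theorem and its consequences.
-/

open Polynomial MeasureTheory Filter Topology
open Pool.Agent.Results.MP_e8d659_an.NoLimit

namespace Pool.Agent.Y255.FR

/-- The uniform convergence theorem, additive form. -/
theorem uct_add (f : ℝ → ℝ) (hf : Measurable f)
    (h : ∀ u : ℝ, Tendsto (fun y => f (y + u) - f y) atTop (𝓝 0)) (ε : ℝ) (hε : 0 < ε) :
    ∃ Y : ℝ, ∀ y, Y ≤ y → ∀ u, 0 ≤ u → u ≤ 1 → |f (y + u) - f y| ≤ ε := by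
  by_contra hcon
  push Not at hcon
  choose! y hy u hu0 hu1 hbad using fun n : ℕ => hcon (n : ℝ)
  have hyt : Tendsto y atTop atTop := tendsto_atTop_mono hy tendsto_natCast_atTop_atTop
  have hyut : Tendsto (fun n => y n + u n) atTop atTop :=
    tendsto_atTop_mono (fun n => by linarith [hy n, hu0 n]) tendsto_natCast_atTop_atTop
  -- the sets
  have key : ∀ z : ℕ → ℝ, Tendsto z atTop atTop →
      Tendsto (fun n => volume {v : ℝ | v ∈ Set.Icc (0 : ℝ) 2 ∧ ∀ m, n ≤ m →
        |f (z m + v) - f (z m)| ≤ ε / 2}) atTop (𝓝 (volume (Set.Icc (0 : ℝ) 2))) := by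
    intro z hz
    have hmono : Monotone fun n => {v : ℝ | v ∈ Set.Icc (0 : ℝ) 2 ∧ ∀ m, n ≤ m →
        |f (z m + v) - f (z m)| ≤ ε / 2} := by
      intro i j hij v hv
      exact ⟨hv.1, fun m hm => hv.2 m (hij.trans hm)⟩
    have hU : (⋃ n, {v : ℝ | v ∈ Set.Icc (0 : ℝ) 2 ∧ ∀ m, n ≤ m →
        |f (z m + v) - f (z m)| ≤ ε / 2}) = Set.Icc (0 : ℝ) 2 := by
      ext v
      simp only [Set.mem_iUnion, Set.mem_ofPred_eq]
      constructor
      · rintro ⟨n, hn, -⟩; exact hn
      · intro hv
        have h1 := ((h v).comp hz).abs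
        rw [abs_zero] at h1
        obtain ⟨n, hn⟩ := eventually_atTop.1 (h1.eventually (ge_mem_nhds (by positivity : 0 < ε / 2)))
        exact ⟨n, hv, fun m hm => hn m hm⟩
    have := tendsto_measure_iUnion_atTop (μ := volume) hmono
    rwa [hU] at this
  have hvol : volume (Set.Icc (0 : ℝ) 2) = 2 := by
    rw [Real.volume_Icc]; norm_num
  have k1 := key y hyt
  have k2 := key (fun n => y n + u n) hyut
  rw [hvol] at k1 k2
  have hlt : (3 / 2 : ENNReal) < 2 := by
    rw [ENNReal.div_lt_iff (by norm_num) (by norm_num)]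
    norm_num
  obtain ⟨n, hn1, hn2⟩ := ((k1.eventually (lt_mem_nhds hlt)).and
    (k2.eventually (lt_mem_nhds hlt))).exists
  set V := {v : ℝ | v ∈ Set.Icc (0 : ℝ) 2 ∧ ∀ m, n ≤ m → |f (y m + v) - f (y m)| ≤ ε / 2} with hV
  set W := {v : ℝ | v ∈ Set.Icc (0 : ℝ) 2 ∧ ∀ m, n ≤ m →
    |f (y m + u m + v) - f (y m + u m)| ≤ ε / 2} with hW
  have hmeasgen : ∀ z : ℕ → ℝ, MeasurableSet {v : ℝ | v ∈ Set.Icc (0 : ℝ) 2 ∧ ∀ m, n ≤ m →
      |f (z m + v) - f (z m)| ≤ ε / 2} := by
    intro z
    have : {v : ℝ | v ∈ Set.Icc (0 : ℝ) 2 ∧ ∀ m, n ≤ m → |f (z m + v) - f (z m)| ≤ ε / 2} =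
        Set.Icc (0 : ℝ) 2 ∩
        ⋂ m : ℕ, ⋂ _ : n ≤ m, {v : ℝ | |f (z m + v) - f (z m)| ≤ ε / 2} := by
      ext v; simp
    rw [this]
    refine measurableSet_Icc.inter ?_
    refine MeasurableSet.iInter fun m => MeasurableSet.iInter fun _ => ?_
    exact measurableSet_le (((hf.comp (measurable_const.add measurable_id)).sub_const _).norm)
      measurable_const
  have hWm : MeasurableSet W := hmeasgen (fun m => y m + u m)
  have hVm : MeasurableSet V := hmeasgen y
  -- translate of W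
  set W' := (fun v => v - u n) ⁻¹' W with hW'
  have hW'v : volume W' = volume W := by
    have := measure_preimage_add_right (volume : Measure ℝ) (-(u n)) W
    rw [hW']
    simpa only [sub_eq_add_neg] using this
  have hW'm : MeasurableSet W' := hWm.preimage (measurable_id.sub_const _)
  have hsub : V ∪ W' ⊆ Set.Icc (0 : ℝ) 3 := by
    rintro v (hv | hv)
    · exact ⟨hv.1.1, by linarith [hv.1.2]⟩
    · have h1 : v - u n ∈ Set.Icc (0 : ℝ) 2 := hv.1
      exact ⟨by linarith [h1.1, hu0 n], by linarith [h1.2, hu1 n]⟩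
  have hne : (V ∩ W').Nonempty := by
    by_contra hemp
    rw [Set.not_nonempty_iff_eq_empty] at hemp
    have h1 : volume (V ∪ W') = volume V + volume W' :=
      measure_union (Set.disjoint_iff_inter_eq_empty.2 hemp) hW'm
    have h2 : volume (V ∪ W') ≤ 3 := by
      refine (measure_mono hsub).trans (le_of_eq ?_)
      rw [Real.volume_Icc]; norm_num
    rw [h1, hW'v] at h2
    have h3 : (3 : ENNReal) < volume V + volume W := by
      calc (3 : ENNReal) = 3 / 2 + 3 / 2 := (ENNReal.add_halves 3).symm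
        _ < volume V + volume W := ENNReal.add_lt_add hn1 hn2
    exact absurd h2 (not_le.2 h3)
  obtain ⟨v, hv, hv'⟩ := hne
  have h1 := hv.2 n le_rfl
  have h2 : |f (y n + u n + (v - u n)) - f (y n + u n)| ≤ ε / 2 := hv'.2 n le_rfl
  have e1 : y n + u n + (v - u n) = y n + v := by ring
  rw [e1] at h2
  have h3 := hbad n
  have h4 : |f (y n + u n) - f (y n)| ≤ |f (y n + v) - f (y n)| + |f (y n + v) - f (y n + u n)| := by
    have := abs_sub (f (y n + v) - f (y n)) (f (y n + v) - f (y n + u n))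
    rwa [show f (y n + v) - f (y n) - (f (y n + v) - f (y n + u n)) = f (y n + u n) - f (y n) by ring]
      at this
  linarith

/-- Linear lower bound. -/
theorem growth_add (f : ℝ → ℝ) (ε : ℝ) (hε : 0 ≤ ε) (Y : ℝ)
    (h : ∀ y, Y ≤ y → ∀ u, 0 ≤ u → u ≤ 1 → |f (y + u) - f y| ≤ ε) :
    ∀ y, Y ≤ y → f Y - ε * (y - Y + 1) ≤ f y := by
  have h1 : ∀ k : ℕ, f Y - ε * k ≤ f (Y + k) := by
    intro k
    induction k with
    | zero => simp
    | succ k ih =>
      have h2 := h (Y + k) (by linarith [Nat.cast_nonneg (α := ℝ) k]) 1 zero_le_one le_rfl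
      have h3 := (abs_le.1 h2).1
      push_cast
      rw [add_assoc] at h3
      linarith
  intro y hy
  set k := ⌊y - Y⌋₊ with hk
  have h2 : (k : ℝ) ≤ y - Y := Nat.floor_le (by linarith)
  have h3 : y - Y < k + 1 := Nat.lt_floor_add_one _
  have h4 := h (Y + k) (by linarith [Nat.cast_nonneg (α := ℝ) k]) (y - (Y + k)) (by linarith)
    (by linarith)
  rw [show Y + k + (y - (Y + k)) = y by ring] at h4
  have h5 := (abs_le.1 h4).1
  have h6 := h1 k
  have h7 : ε * k ≤ ε * (y - Y) := mul_le_mul_of_nonneg_left h2 hε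
  linarith

/-- The additive form of a slowly varying function. -/
noncomputable def lf (L : ℝ → ℝ) (y : ℝ) : ℝ := Real.log (L (Real.exp y))

theorem lf_meas {L : ℝ → ℝ} (hL : SlowlyVarying L) : Measurable (lf L) :=
  Real.measurable_log.comp (hL.1.comp Real.measurable_exp)

theorem lf_lim {L : ℝ → ℝ} (hL : SlowlyVarying L) (u : ℝ) :
    Tendsto (fun y => lf L (y + u) - lf L y) atTop (𝓝 0) := by
  have h1 := (hL.2.2 (Real.exp u) (Real.exp_pos u)).comp Real.tendsto_exp_atTop
  have h2 := (Real.continuousAt_log one_ne_zero).tendsto.comp h1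
  rw [Real.log_one] at h2
  refine h2.congr fun y => ?_
  simp only [Function.comp, lf]
  rw [Real.log_div (hL.2.1 _ (by positivity)).ne' (hL.2.1 _ (by positivity)).ne', Real.exp_add,
    mul_comm]

/-- `y + log L(e^y)` grows at least linearly. -/
theorem lf_growth {L : ℝ → ℝ} (hL : SlowlyVarying L) :
    ∃ C : ℝ, ∀ᶠ y in atTop, y / 2 - C ≤ y + lf L y := by
  obtain ⟨Y, hY⟩ := uct_add (lf L) (lf_meas hL) (lf_lim hL) (1 / 2) (by norm_num)
  have h1 := growth_add (lf L) (1 / 2) (by norm_num) Y hY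
  refine ⟨-(lf L Y) + 1 / 2 * (-Y + 1), ?_⟩
  filter_upwards [eventually_ge_atTop Y] with y hy
  have := h1 y hy
  linarith

theorem mul_L_tendsto {L : ℝ → ℝ} (hL : SlowlyVarying L) :
    Tendsto (fun x => x * L x) atTop atTop := by
  obtain ⟨C, hC⟩ := lf_growth hL
  have h1 : Tendsto (fun y : ℝ => y + lf L y) atTop atTop := by
    refine tendsto_atTop_mono' _ hC ?_
    exact tendsto_atTop_add_const_right _ _ (tendsto_id.atTop_div_const (by norm_num))
  have h2 := (Real.tendsto_exp_atTop.comp h1).comp Real.tendsto_log_atTop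
  refine h2.congr' ?_
  filter_upwards [eventually_gt_atTop 0] with x hx
  simp only [Function.comp, lf]
  rw [Real.exp_add, Real.exp_log hx, Real.exp_log (hL.2.1 x hx)]

/-- Positivity of the normalizing sequence. -/
theorem cseq_pos {Ls : ℝ → ℝ} (hL : SlowlyVarying Ls) (α : ℝ) :
    ∀ᶠ n : ℕ in atTop, 0 < cseq α Ls n := by
  filter_upwards [eventually_gt_atTop 0] with n hn
  have h1 : (0 : ℝ) < n := by exact_mod_cast hn
  have h2 : (0 : ℝ) < (n : ℝ) ^ (1 / α) := Real.rpow_pos_of_pos h1 _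
  exact mul_pos h2 (hL.2.1 _ h2)

theorem cseq_tendsto {Ls : ℝ → ℝ} (hL : SlowlyVarying Ls) (α : ℝ) (hα : 0 < α) :
    Tendsto (cseq α Ls) atTop atTop := by
  have h1 : Tendsto (fun n : ℕ => (n : ℝ) ^ (1 / α)) atTop atTop :=
    (tendsto_rpow_atTop (by positivity)).comp tendsto_natCast_atTop_atTop
  exact (mul_L_tendsto hL).comp h1

theorem cseq_ratio {Ls : ℝ → ℝ} (hL : SlowlyVarying Ls) (α : ℝ) (hα : 0 < α) :
    Tendsto (fun n => cseq α Ls (n + 1) / cseq α Ls n) atTop (𝓝 1) := by
  have hlog : Tendsto (fun n : ℕ => Real.log (cseq α Ls (n + 1) / cseq α Ls n)) atTop (𝓝 0) := by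
    -- the increments of log n
    have hu : Tendsto (fun n : ℕ => (1 / α) * (Real.log ((n : ℝ) + 1) - Real.log n)) atTop
        (𝓝 0) := by
      have h1 : Tendsto (fun n : ℕ => Real.log (((n : ℝ) + 1) / n)) atTop (𝓝 0) := by
        have h2 : Tendsto (fun n : ℕ => ((n : ℝ) + 1) / (n : ℝ)) atTop (𝓝 1) := by
          have := tendsto_one_div_atTop_nhds_zero_nat (𝕜 := ℝ)
          have h2 := this.const_add 1
          rw [add_zero] at h2
          refine h2.congr' ?_
          filter_upwards [eventually_gt_atTop 0] with n hn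
          have : (n : ℝ) ≠ 0 := by positivity
          field_simp
        have h3 := (Real.continuousAt_log one_ne_zero).tendsto.comp h2
        rwa [Real.log_one] at h3
      have h4 := h1.const_mul (1 / α)
      rw [mul_zero] at h4
      refine h4.congr' ?_
      filter_upwards [eventually_gt_atTop 0] with n hn
      have hn' : (0 : ℝ) < n := by exact_mod_cast hn
      rw [Real.log_div (by positivity) hn'.ne']
    have hd : Tendsto (fun n : ℕ => lf Ls ((1 / α) * Real.log ((n : ℝ) + 1)) -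
        lf Ls ((1 / α) * Real.log n)) atTop (𝓝 0) := by
      rw [Metric.tendsto_nhds]
      intro ε hε
      obtain ⟨Y, hY⟩ := uct_add (lf Ls) (lf_meas hL) (lf_lim hL) (ε / 2) (by positivity)
      have h1 : Tendsto (fun n : ℕ => (1 / α) * Real.log (n : ℝ)) atTop atTop :=
        (Real.tendsto_log_atTop.comp tendsto_natCast_atTop_atTop).const_mul_atTop (by positivity)
      filter_upwards [h1.eventually (eventually_ge_atTop Y), hu.eventually (ge_mem_nhds one_pos),
        eventually_gt_atTop 0] with n e1 e2 e3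
      have hn' : (0 : ℝ) < n := by exact_mod_cast e3
      have h5 := hY _ e1 ((1 / α) * (Real.log ((n : ℝ) + 1) - Real.log n)) (by
        have : Real.log (n : ℝ) ≤ Real.log ((n : ℝ) + 1) := Real.log_le_log hn' (by linarith)
        have h6 : 0 ≤ Real.log ((n : ℝ) + 1) - Real.log n := by linarith
        positivity) e2
      rw [show 1 / α * Real.log (n : ℝ) + 1 / α * (Real.log ((n : ℝ) + 1) - Real.log n) =
        1 / α * Real.log ((n : ℝ) + 1) by ring] at h5
      rw [Real.dist_eq, sub_zero]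
      linarith
    have hsum := hu.add hd
    rw [add_zero] at hsum
    refine hsum.congr' ?_
    filter_upwards [eventually_gt_atTop 0] with n hn
    have hn' : (0 : ℝ) < n := by exact_mod_cast hn
    have p1 : (0 : ℝ) < (n : ℝ) ^ (1 / α) := Real.rpow_pos_of_pos hn' _
    have p2 : (0 : ℝ) < ((n : ℝ) + 1) ^ (1 / α) := Real.rpow_pos_of_pos (by positivity) _
    have q1 := hL.2.1 _ p1
    have q2 := hL.2.1 _ p2
    have r1 : Real.exp (1 / α * Real.log (n : ℝ)) = (n : ℝ) ^ (1 / α) := by
      rw [Real.rpow_def_of_pos hn', mul_comm]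
    have r2 : Real.exp (1 / α * Real.log ((n : ℝ) + 1)) = ((n : ℝ) + 1) ^ (1 / α) := by
      rw [Real.rpow_def_of_pos (by positivity), mul_comm]
    rw [cseq, cseq, lf, lf, r1, r2]
    push_cast
    rw [Real.log_div (by positivity) (by positivity), Real.log_mul p2.ne' q2.ne',
      Real.log_mul p1.ne' q1.ne', Real.log_rpow hn', Real.log_rpow (by positivity)]
    ring
  have h1 := (Real.continuous_exp.tendsto 0).comp hlog
  rw [Real.exp_zero] at h1
  refine h1.congr' ?_
  filter_upwards [cseq_pos hL α, (tendsto_add_atTop_nat 1).eventually (cseq_pos hL α)]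
    with n e1 e2
  simp only [Function.comp]
  exact Real.exp_log (div_pos e2 e1)

end Pool.Agent.Y255.FR
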