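import Pool.Agent.Y255.FR.Mom

/-!
If the densities of consecutive orthonormal polynomials are close outside a bounded set, then
consecutive diagonal recurrence coefficients are close.
-/

open Polynomial MeasureTheory Filter Topology
open Pool.Agent.Results.MP_e8d659_an.NoLimit

namespace Pool.Agent.Y255.FR

variable {w : ℝ → ℝ}

/-- Truncation. -/
noncomputable def clamp (lo hi x : ℝ) : ℝ := max lo (min x hi)

theorem clamp_meas (lo hi : ℝ) : Measurable (clamp lo hi) :=
  measurable_const.max (measurable_id.min measurable_const)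

theorem clamp_lip (lo hi x : ℝ) : |clamp lo hi x - clamp lo hi 0| ≤ |x| := by
  unfold clamp
  have h1 := abs_max_sub_max_le_abs (min x hi) (min 0 hi) lo
  have h2 := abs_min_sub_min_le_max x hi 0 hi
  rw [sub_self, abs_zero, sub_zero, max_eq_left (abs_nonneg x)] at h2
  rw [max_comm lo, max_comm lo]
  exact h1.trans h2

theorem clamp_range {lo hi : ℝ} (h : lo ≤ hi) (x : ℝ) : |clamp lo hi x - clamp lo hi 0| ≤ hi - lo := by
  have h1 : ∀ y, lo ≤ clamp lo hi y ∧ clamp lo hi y ≤ hi := fun y =>
    ⟨le_max_left _ _, max_le h (min_le_right _ _)⟩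
  have h2 := h1 x
  have h3 := h1 0
  rw [abs_le]
  constructor <;> linarith [h2.1, h2.2, h3.1, h3.2]

theorem clamp_tail {lo hi b R x : ℝ} (hR : 0 < R) (hlo : lo + R ≤ b) (hhi : b + R ≤ hi) :
    |x - clamp lo hi x| ≤ (x - b) ^ 2 / R := by
  unfold clamp
  rcases le_total x hi with h1 | h1
  · rw [min_eq_left h1]
    rcases le_total lo x with h2 | h2
    · rw [max_eq_right h2, sub_self, abs_zero]; positivity
    · rw [max_eq_left h2, abs_of_nonpos (by linarith), le_div_iff₀ hR]
      nlinarith
  · rw [min_eq_right h1, max_eq_right (by linarith), abs_of_nonneg (by linarith), le_div_iff₀ hR]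
    nlinarith

theorem iX (hw : IsWeight w) (n : ℕ) :
    ∫ x, x * (pn w (n + 1)).eval x ^ 2 * w x = bn w (n + 1) := by
  have h1 := iM1 hw n
  have h2 := iM0 hw (n + 1)
  have i1 : Integrable (fun x => x * (pn w (n + 1)).eval x ^ 2 * w x) := by
    have := int_p hw 0 1 (n + 1)
    simpa using this
  have i2 : Integrable (fun x => (pn w (n + 1)).eval x ^ 2 * w x) := integrable_sq hw _
  have h3 : ∫ x, (x - bn w (n + 1)) ^ 1 * (pn w (n + 1)).eval x ^ 2 * w x =
      (∫ x, x * (pn w (n + 1)).eval x ^ 2 * w x) -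
        bn w (n + 1) * ∫ x, (pn w (n + 1)).eval x ^ 2 * w x := by
    rw [← integral_const_mul, ← integral_sub i1 (i2.const_mul _)]
    congr 1
    funext x
    ring
  rw [h1, h2] at h3
  linarith

/-- Closeness of consecutive diagonal coefficients. -/
theorem bdiff (hw : IsWeight w) (M : ℝ) (hM : 0 ≤ M) (n : ℕ) (R : ℝ) (hR : 0 < R) :
    |bn w (n + 2) - bn w (n + 1)| ≤
      ((an w (n + 3) ^ 2 + an w (n + 2) ^ 2) + (an w (n + 2) ^ 2 + an w (n + 1) ^ 2)) / R + 2 * M +
        (|bn w (n + 2) - bn w (n + 1)| + 2 * R) * Dn w M (n + 1) := by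
  set b := bn w (n + 1) with hb
  set b' := bn w (n + 2) with hb'
  set Δ := |b' - b| with hΔ
  set lo := min b b' - R with hlo
  set hi := max b b' + R with hhi
  set S := {x : ℝ | M < |x|} with hS
  have hSm : MeasurableSet S := measurableSet_tail M
  have hlohi : hi - lo = Δ + 2 * R := by
    rw [hhi, hlo, hΔ]
    rcases le_total b b' with h | h
    · rw [max_eq_right h, min_eq_left h, abs_of_nonneg (by linarith)]; ring
    · rw [max_eq_left h, min_eq_right h, abs_of_nonpos (by linarith)]; ring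
  have hΔ0 : 0 ≤ Δ := abs_nonneg _
  have hle : lo ≤ hi := by linarith
  set ψ := clamp lo hi with hψ
  have i1 : Integrable (fun x => (x - b') ^ 2 * (pn w (n + 2)).eval x ^ 2 * w x) := int_p hw _ _ _
  have i2 : Integrable (fun x => (x - b) ^ 2 * (pn w (n + 1)).eval x ^ 2 * w x) := int_p hw _ _ _
  have i3 : Integrable (fun x => (pn w (n + 2)).eval x ^ 2 * w x) := integrable_sq hw _
  have i4 : Integrable (fun x => (pn w (n + 1)).eval x ^ 2 * w x) := integrable_sq hw _
  have i5 : Integrable (S.indicator fun x => |Fn w (n + 1) x|) :=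
    (Fn_integrable hw _).abs.indicator hSm
  have i6 : Integrable (Fn w (n + 1)) := Fn_integrable hw _
  have i7 : Integrable (fun x => x * Fn w (n + 1) x) := by
    have h1 := int_p hw 0 1 (n + 2)
    have h2 := int_p hw 0 1 (n + 1)
    refine (h1.sub h2).congr (Filter.Eventually.of_forall fun x => ?_)
    simp only [Fn, Pi.sub_apply]; ring
  have e1 : ∫ x, (x - b') ^ 2 * (pn w (n + 2)).eval x ^ 2 * w x =
      an w (n + 3) ^ 2 + an w (n + 2) ^ 2 := iM2 hw (n + 1)
  have e2 : ∫ x, (x - b) ^ 2 * (pn w (n + 1)).eval x ^ 2 * w x =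
      an w (n + 2) ^ 2 + an w (n + 1) ^ 2 := iM2 hw n
  have e3 : ∫ x, (pn w (n + 2)).eval x ^ 2 * w x = 1 := iM0 hw _
  have e4 : ∫ x, (pn w (n + 1)).eval x ^ 2 * w x = 1 := iM0 hw _
  have e5 : ∫ x, S.indicator (fun x => |Fn w (n + 1) x|) x = Dn w M (n + 1) := by
    rw [integral_indicator hSm, Dn]
  have e6 : ∫ x, Fn w (n + 1) x = 0 := by
    have : (fun x => Fn w (n + 1) x) = fun x => (pn w (n + 2)).eval x ^ 2 * w x -
        (pn w (n + 1)).eval x ^ 2 * w x := by
      funext x; rw [Fn]; ring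
    rw [this, integral_sub i3 i4, e3, e4, sub_self]
  have e7 : ∫ x, x * Fn w (n + 1) x = b' - b := by
    have : (fun x => x * Fn w (n + 1) x) = fun x => x * (pn w (n + 2)).eval x ^ 2 * w x -
        x * (pn w (n + 1)).eval x ^ 2 * w x := by
      funext x; rw [Fn]; ring
    rw [this, integral_sub, iX hw, iX hw]
    · have := int_p hw 0 1 (n + 2); simpa using this
    · have := int_p hw 0 1 (n + 1); simpa using this
  -- pointwise bound
  have hpt : ∀ x, |x * Fn w (n + 1) x - ψ 0 * Fn w (n + 1) x| ≤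
      1 / R * ((x - b') ^ 2 * (pn w (n + 2)).eval x ^ 2 * w x) +
      1 / R * ((x - b) ^ 2 * (pn w (n + 1)).eval x ^ 2 * w x) +
      M * ((pn w (n + 2)).eval x ^ 2 * w x) + M * ((pn w (n + 1)).eval x ^ 2 * w x) +
      (Δ + 2 * R) * S.indicator (fun x => |Fn w (n + 1) x|) x := by
    intro x
    have hwx := hw.pos x
    set s := (pn w (n + 2)).eval x with hs
    set v := (pn w (n + 1)).eval x with hv
    have hF : Fn w (n + 1) x = (s ^ 2 - v ^ 2) * w x := rfl
    have h1 : x * Fn w (n + 1) x - ψ 0 * Fn w (n + 1) x =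
        ((x - ψ x) * s ^ 2 - (x - ψ x) * v ^ 2) * w x + (ψ x - ψ 0) * Fn w (n + 1) x := by
      rw [hF]; ring
    have t1 : |x - ψ x| ≤ (x - b') ^ 2 / R :=
      clamp_tail hR (by rw [hlo]; linarith [min_le_right b b']) (by rw [hhi]; linarith [le_max_right b b'])
    have t2 : |x - ψ x| ≤ (x - b) ^ 2 / R :=
      clamp_tail hR (by rw [hlo]; linarith [min_le_left b b']) (by rw [hhi]; linarith [le_max_left b b'])
    have h2 : |((x - ψ x) * s ^ 2 - (x - ψ x) * v ^ 2) * w x| ≤
        1 / R * ((x - b') ^ 2 * s ^ 2 * w x) + 1 / R * ((x - b) ^ 2 * v ^ 2 * w x) := by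
      rw [abs_mul, abs_of_pos hwx]
      have h3 : |(x - ψ x) * s ^ 2 - (x - ψ x) * v ^ 2| ≤
          (x - b') ^ 2 / R * s ^ 2 + (x - b) ^ 2 / R * v ^ 2 := by
        refine (abs_sub _ _).trans (add_le_add ?_ ?_)
        · rw [abs_mul, abs_of_nonneg (sq_nonneg s)]
          exact mul_le_mul_of_nonneg_right t1 (sq_nonneg s)
        · rw [abs_mul, abs_of_nonneg (sq_nonneg v)]
          exact mul_le_mul_of_nonneg_right t2 (sq_nonneg v)
      have h4 := mul_le_mul_of_nonneg_right h3 hwx.le
      refine h4.trans (le_of_eq ?_)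
      ring
    have h5 : |(ψ x - ψ 0) * Fn w (n + 1) x| ≤ M * (s ^ 2 * w x) + M * (v ^ 2 * w x) +
        (Δ + 2 * R) * S.indicator (fun x => |Fn w (n + 1) x|) x := by
      rw [abs_mul]
      by_cases hx : x ∈ S
      · rw [Set.indicator_of_mem hx]
        have h6 : |ψ x - ψ 0| ≤ Δ + 2 * R := (clamp_range hle x).trans hlohi.le
        have h7 := mul_le_mul_of_nonneg_right h6 (abs_nonneg (Fn w (n + 1) x))
        have h8 : 0 ≤ M * (s ^ 2 * w x) := by positivity
        have h9 : 0 ≤ M * (v ^ 2 * w x) := by positivity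
        linarith only [h7, h8, h9]
      · rw [Set.indicator_of_notMem hx]
        have hx' : |x| ≤ M := not_lt.1 hx
        have h6 : |ψ x - ψ 0| ≤ M := (clamp_lip _ _ x).trans hx'
        have h7 := mul_le_mul_of_nonneg_right h6 (abs_nonneg (Fn w (n + 1) x))
        have h8 : |Fn w (n + 1) x| ≤ s ^ 2 * w x + v ^ 2 * w x := by
          rw [hF, abs_mul, abs_of_pos hwx]
          have h81 : |s ^ 2 - v ^ 2| ≤ s ^ 2 + v ^ 2 := by
            have p1 := sq_nonneg s
            have p2 := sq_nonneg v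
            rw [abs_le]
            constructor <;> linarith only [p1, p2]
          have h82 := mul_le_mul_of_nonneg_right h81 hwx.le
          linarith only [h82]
        have h9 := mul_le_mul_of_nonneg_left h8 hM
        linarith only [h7, h9]
    rw [h1]
    refine (abs_add_le _ _).trans ?_
    linarith only [h2, h5]
  have hint : |∫ x, (x * Fn w (n + 1) x - ψ 0 * Fn w (n + 1) x)| ≤
      ∫ x, (1 / R * ((x - b') ^ 2 * (pn w (n + 2)).eval x ^ 2 * w x) +
      1 / R * ((x - b) ^ 2 * (pn w (n + 1)).eval x ^ 2 * w x) +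
      M * ((pn w (n + 2)).eval x ^ 2 * w x) + M * ((pn w (n + 1)).eval x ^ 2 * w x) +
      (Δ + 2 * R) * S.indicator (fun x => |Fn w (n + 1) x|) x) := by
    refine abs_integral_le_integral_abs.trans ?_
    refine integral_mono (i7.sub (i6.const_mul _)).abs
      (((((i1.const_mul _).add (i2.const_mul _)).add (i3.const_mul _)).add
        (i4.const_mul _)).add (i5.const_mul _)) hpt
  rw [integral_sub i7 (i6.const_mul _), integral_const_mul, e6, e7, mul_zero, sub_zero] at hint
  have hrhs := integral_add (((((i1.const_mul (1 / R)).add (i2.const_mul (1 / R))).add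
    (i3.const_mul M)).add (i4.const_mul M))) (i5.const_mul (Δ + 2 * R))
  simp only [Pi.add_apply] at hrhs
  rw [hrhs] at hint
  have hr2 := integral_add ((((i1.const_mul (1 / R)).add (i2.const_mul (1 / R))).add
    (i3.const_mul M))) (i4.const_mul M)
  simp only [Pi.add_apply] at hr2
  rw [hr2] at hint
  have hr3 := integral_add (((i1.const_mul (1 / R)).add (i2.const_mul (1 / R)))) (i3.const_mul M)
  simp only [Pi.add_apply] at hr3
  rw [hr3] at hint
  rw [integral_add (i1.const_mul (1 / R)) (i2.const_mul (1 / R)), integral_const_mul,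
    integral_const_mul, integral_const_mul, integral_const_mul, integral_const_mul, e1, e2, e3, e4,
    e5] at hint
  refine hint.trans (le_of_eq ?_)
  ring

end Pool.Agent.Y255.FR
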