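import Pool.Agent.Y255.FR.StepA

/-!
The main integral inequality for the densities of three consecutive orthonormal polynomials.
-/

open Polynomial MeasureTheory Filter Topology
open Pool.Agent.Results.MP_e8d659_an.NoLimit

namespace Pool.Agent.Y255.FR

theorem outer_scaled (t u v S θ : ℝ) (hθ : |θ| ≤ 3) (h : t * v = S + u) :
    t * (t - θ) * (4 - t ^ 2) * v ^ 2 ≤
      136 * (|S ^ 2 - v ^ 2| + |u ^ 2 - v ^ 2|) + t ^ 2 * v ^ 2 / 4 := by
  set Z := |S ^ 2 - v ^ 2| + |u ^ 2 - v ^ 2| with hZ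
  have hZ0 : 0 ≤ Z := by positivity
  set F := S ^ 2 - u ^ 2 with hF
  set A := 2 * (S ^ 2 - v ^ 2) + 2 * (u ^ 2 - v ^ 2) with hA
  have a1 := abs_le.1 (le_refl |S ^ 2 - v ^ 2|)
  have a2 := abs_le.1 (le_refl |u ^ 2 - v ^ 2|)
  have hFZ : |F| ≤ Z := by
    rw [hF, hZ, abs_le]
    constructor <;> linarith only [a1.1, a1.2, a2.1, a2.2]
  have hAZ : |A| ≤ 2 * Z := by
    rw [hA, hZ, abs_le]
    constructor <;> linarith only [a1.1, a1.2, a2.1, a2.2]
  have hid : F ^ 2 = t ^ 2 * v ^ 2 * ((4 - t ^ 2) * v ^ 2 + A) := by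
    have e : t ^ 2 * v ^ 2 = (S + u) ^ 2 := by rw [← h]; ring
    have e2 : t ^ 2 * v ^ 2 * ((4 - t ^ 2) * v ^ 2 + A) =
        (t ^ 2 * v ^ 2) * (4 * v ^ 2 - t ^ 2 * v ^ 2 + A) := by ring
    rw [e2, e, hF, hA]; ring
  have hF2 : F ^ 2 ≤ Z ^ 2 := by
    have := abs_le.1 hFZ
    nlinarith only [this.1, this.2]
  set Y := t ^ 2 * v ^ 2 with hY
  have hY0 : 0 ≤ Y := by positivity
  rcases le_or_gt (t ^ 2) 4 with hc | hc
  · set r := √(4 - t ^ 2) with hr
    have hr0 : 0 ≤ r := Real.sqrt_nonneg _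
    have hr2 : r ^ 2 = 4 - t ^ 2 := Real.sq_sqrt (by linarith)
    set P := |t| * r * v ^ 2 with hP
    have hP0 : 0 ≤ P := by positivity
    have hP2 : P ^ 2 = F ^ 2 - A * Y := by
      have : P ^ 2 = |t| ^ 2 * r ^ 2 * v ^ 4 := by rw [hP]; ring
      rw [this, sq_abs, hr2, hid, hY]; ring
    set W := 17 * Z + Y / 32 with hW
    have hW0 : 0 ≤ W := by positivity
    have hPW : P ≤ W := by
      have h1 : -(A * Y) ≤ 2 * Z * Y := by
        have := (abs_le.1 hAZ).1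
        nlinarith only [this, hY0]
      have h2 : P ^ 2 ≤ W ^ 2 := by
        have h3 : 2 * Z * Y ≤ (16 * Z + Y / 32) ^ 2 := by
          nlinarith only [sq_nonneg (16 * Z - Y / 32)]
        have h4 : Z ^ 2 + (16 * Z + Y / 32) ^ 2 ≤ W ^ 2 := by
          have h5 : 0 ≤ Z * (16 * Z + Y / 32) := by positivity
          have h6 : W ^ 2 = Z ^ 2 + (16 * Z + Y / 32) ^ 2 + 2 * (Z * (16 * Z + Y / 32)) := by
            rw [hW]; ring
          linarith only [h5, h6]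
        rw [hP2]
        linarith only [h1, h3, h4, hF2]
      exact abs_le_of_sq_le_sq' h2 hW0 |>.2
    have ht0 : 0 ≤ |t| := abs_nonneg t
    have htr : |t| * r ≤ 2 := by
      nlinarith only [sq_nonneg (|t| - r), sq_abs t, hr2]
    have hr3 : r ≤ 2 := by nlinarith only [hr2, sq_nonneg t, hr0]
    have h7 : t * (t - θ) * (4 - t ^ 2) * v ^ 2 = |t| * r * P - θ * t * r ^ 2 * v ^ 2 := by
      rw [← hr2, hP]
      have : |t| * r * (|t| * r * v ^ 2) = |t| ^ 2 * r ^ 2 * v ^ 2 := by ring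
      rw [this, sq_abs]
      ring
    have h8 : |t| * r * P ≤ 2 * P := mul_le_mul_of_nonneg_right htr hP0
    have h9 : -(θ * t * r ^ 2 * v ^ 2) ≤ 6 * P := by
      have h10 : |θ * t * r ^ 2 * v ^ 2| = |θ| * (r * P) := by
        rw [hP, abs_mul, abs_mul, abs_mul, abs_of_nonneg (sq_nonneg r), abs_of_nonneg (sq_nonneg v)]
        ring
      have h11 := neg_abs_le (θ * t * r ^ 2 * v ^ 2)
      have h12 : |θ| * (r * P) ≤ 3 * (2 * P) :=
        mul_le_mul hθ (mul_le_mul_of_nonneg_right hr3 hP0) (by positivity) (by norm_num)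
      linarith only [h10, h11, h12]
    rw [h7]
    linarith only [h8, h9, hPW, hW]
  · rcases eq_or_ne v 0 with hv | hv
    · have h1 : t * (t - θ) * (4 - t ^ 2) * v ^ 2 = 0 := by rw [hv]; ring
      rw [h1]
      positivity
    · have hYpos : 0 < Y := by
        rw [hY]
        have : 0 < t ^ 2 := by linarith
        positivity
      have h1 : 0 ≤ (4 - t ^ 2) * v ^ 2 + A := by
        by_contra hcon
        rw [not_le] at hcon
        have := mul_neg_of_pos_of_neg hYpos hcon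
        have h2 := sq_nonneg F
        linarith only [this, h2, hid]
      have h2 : (t ^ 2 - 4) * v ^ 2 ≤ 2 * Z := by
        have := (abs_le.1 hAZ).2
        linarith only [this, h1]
      have h3 : 0 ≤ (t ^ 2 - 4) * v ^ 2 := mul_nonneg (by linarith) (sq_nonneg v)
      have h4 : θ * t - t ^ 2 ≤ 9 / 4 := by
        have h5 := sq_nonneg (t - θ / 2)
        have h6 : θ ^ 2 ≤ 9 := by
          have := abs_le.1 hθ
          nlinarith only [this.1, this.2]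
        nlinarith only [h5, h6]
      have h5 : t * (t - θ) * (4 - t ^ 2) * v ^ 2 = (θ * t - t ^ 2) * ((t ^ 2 - 4) * v ^ 2) := by ring
      rw [h5]
      have h6 : (θ * t - t ^ 2) * ((t ^ 2 - 4) * v ^ 2) ≤ 9 / 4 * ((t ^ 2 - 4) * v ^ 2) :=
        mul_le_mul_of_nonneg_right h4 h3
      linarith only [h6, h2, hZ0, hY0]

theorem outer_ineq (a a' y u v s θ : ℝ) (ha : 0 < a) (hθ : |θ| ≤ 3) (h : y * v = a' * s + a * u) :
    y * (y - θ * a) * (4 * a ^ 2 - y ^ 2) * v ^ 2 ≤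
      136 * a ^ 2 * (a' ^ 2 * |s ^ 2 - v ^ 2| + a ^ 2 * |v ^ 2 - u ^ 2| + |a' ^ 2 - a ^ 2| * v ^ 2) +
        a ^ 2 / 4 * (y ^ 2 * v ^ 2) := by
  have ha2 : 0 < a ^ 2 := by positivity
  have h1 := outer_scaled (y / a) u v (a' * s / a) θ hθ (by
    field_simp
    linarith only [h])
  have h2 := mul_le_mul_of_nonneg_left h1 (by positivity : 0 ≤ a ^ 4)
  have e1 : a ^ 4 * (y / a * (y / a - θ) * (4 - (y / a) ^ 2) * v ^ 2) =
      y * (y - θ * a) * (4 * a ^ 2 - y ^ 2) * v ^ 2 := by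
    field_simp
  have e2 : a ^ 4 * (136 * (|(a' * s / a) ^ 2 - v ^ 2| + |u ^ 2 - v ^ 2|) + (y / a) ^ 2 * v ^ 2 / 4) =
      136 * a ^ 2 * (|a' ^ 2 * s ^ 2 - a ^ 2 * v ^ 2| + a ^ 2 * |v ^ 2 - u ^ 2|) +
        a ^ 2 / 4 * (y ^ 2 * v ^ 2) := by
    have e3 : |(a' * s / a) ^ 2 - v ^ 2| = |a' ^ 2 * s ^ 2 - a ^ 2 * v ^ 2| / a ^ 2 := by
      rw [← abs_of_pos ha2, ← abs_div, abs_of_pos ha2]
      congr 1
      field_simp
    rw [e3, abs_sub_comm (u ^ 2)]
    field_simp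
  rw [e1, e2] at h2
  refine h2.trans ?_
  have h3 : |a' ^ 2 * s ^ 2 - a ^ 2 * v ^ 2| ≤ a' ^ 2 * |s ^ 2 - v ^ 2| + |a' ^ 2 - a ^ 2| * v ^ 2 := by
    have : a' ^ 2 * s ^ 2 - a ^ 2 * v ^ 2 = a' ^ 2 * (s ^ 2 - v ^ 2) + (a' ^ 2 - a ^ 2) * v ^ 2 := by
      ring
    rw [this]
    refine (abs_add_le _ _).trans (add_le_add ?_ ?_)
    · rw [abs_mul, abs_of_nonneg (sq_nonneg a')]
    · rw [abs_mul, abs_of_nonneg (sq_nonneg v)]
  have h4 : 136 * a ^ 2 * (|a' ^ 2 * s ^ 2 - a ^ 2 * v ^ 2| + a ^ 2 * |v ^ 2 - u ^ 2|) ≤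
      136 * a ^ 2 * ((a' ^ 2 * |s ^ 2 - v ^ 2| + |a' ^ 2 - a ^ 2| * v ^ 2) + a ^ 2 * |v ^ 2 - u ^ 2|) := by
    gcongr
  linarith only [h4]

variable {w : ℝ → ℝ}

/-- The integrated inequality. -/
theorem G_ineq (hw : IsWeight w) (M : ℝ) (n : ℕ) (θ κ : ℝ) (hθ : |θ| ≤ 3) (hκ : 0 ≤ κ)
    (hin : ∀ x, |x| ≤ M → (x - bn w (n + 2)) * (x - bn w (n + 2) - θ * an w (n + 2)) *
      (4 * an w (n + 2) ^ 2 - (x - bn w (n + 2)) ^ 2) ≤ κ) :
    4 * an w (n + 2) ^ 2 * (an w (n + 3) ^ 2 + an w (n + 2) ^ 2) -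
      ((an w (n + 3) * an w (n + 4)) ^ 2 +
      (an w (n + 3) * (bn w (n + 3) - bn w (n + 2))) ^ 2 +
      (an w (n + 3) ^ 2 + an w (n + 2) ^ 2) ^ 2 +
      (an w (n + 2) * (bn w (n + 1) - bn w (n + 2))) ^ 2 +
      (an w (n + 2) * an w (n + 1)) ^ 2) +
      θ * an w (n + 2) * (an w (n + 3) ^ 2 * (bn w (n + 3) - bn w (n + 2)) +
        an w (n + 2) ^ 2 * (bn w (n + 1) - bn w (n + 2))) ≤
    136 * an w (n + 2) ^ 2 * (an w (n + 3) ^ 2 * Dn w M (n + 2) + an w (n + 2) ^ 2 * Dn w M (n + 1) +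
      |an w (n + 3) ^ 2 - an w (n + 2) ^ 2|) + κ +
      an w (n + 2) ^ 2 / 4 * (an w (n + 3) ^ 2 + an w (n + 2) ^ 2) := by
  have q2 := iM2 hw (n + 1)
  have q4 := iM4 hw n
  have q3 := iM3 hw n
  have q1 := iM1 hw (n + 1)
  have q0 := iM0 hw (n + 2)
  set a := an w (n + 2) with ha
  set a' := an w (n + 3) with ha'
  set b := bn w (n + 2) with hb
  have hapos : 0 < a := an_pos hw _
  set S := {x : ℝ | M < |x|} with hS
  have hSm : MeasurableSet S := measurableSet_tail M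
  have i0 : Integrable (fun x => (pn w (n + 2)).eval x ^ 2 * w x) := integrable_sq hw _
  have i1 : Integrable (fun x => (x - b) ^ 1 * (pn w (n + 2)).eval x ^ 2 * w x) := int_p hw _ _ _
  have i2 : Integrable (fun x => (x - b) ^ 2 * (pn w (n + 2)).eval x ^ 2 * w x) := int_p hw _ _ _
  have i3 : Integrable (fun x => (x - b) ^ 3 * (pn w (n + 2)).eval x ^ 2 * w x) := int_p hw _ _ _
  have i4 : Integrable (fun x => (x - b) ^ 4 * (pn w (n + 2)).eval x ^ 2 * w x) := int_p hw _ _ _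
  have j1 : Integrable (S.indicator fun x => |Fn w (n + 2) x|) :=
    (Fn_integrable hw _).abs.indicator hSm
  have j0 : Integrable (S.indicator fun x => |Fn w (n + 1) x|) :=
    (Fn_integrable hw _).abs.indicator hSm
  have d1 : ∫ x, S.indicator (fun x => |Fn w (n + 2) x|) x = Dn w M (n + 2) := by
    rw [integral_indicator hSm, Dn]
  have d0 : ∫ x, S.indicator (fun x => |Fn w (n + 1) x|) x = Dn w M (n + 1) := by
    rw [integral_indicator hSm, Dn]
  have hpt : ∀ x, 4 * a ^ 2 * ((x - b) ^ 2 * (pn w (n + 2)).eval x ^ 2 * w x) -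
      (x - b) ^ 4 * (pn w (n + 2)).eval x ^ 2 * w x +
      θ * a * ((x - b) ^ 3 * (pn w (n + 2)).eval x ^ 2 * w x) -
      4 * θ * a ^ 3 * ((x - b) ^ 1 * (pn w (n + 2)).eval x ^ 2 * w x) ≤
      136 * a ^ 2 * a' ^ 2 * S.indicator (fun x => |Fn w (n + 2) x|) x +
      136 * a ^ 2 * a ^ 2 * S.indicator (fun x => |Fn w (n + 1) x|) x +
      (136 * a ^ 2 * |a' ^ 2 - a ^ 2| + κ) * ((pn w (n + 2)).eval x ^ 2 * w x) +
      a ^ 2 / 4 * ((x - b) ^ 2 * (pn w (n + 2)).eval x ^ 2 * w x) := by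
    intro x
    have hwx := (hw.pos x).le
    have hrec : (x - b) * (pn w (n + 2)).eval x =
        a' * (pn w (n + 3)).eval x + a * (pn w (n + 1)).eval x := by
      have := congrArg (eval x) (Y_mul_pn hw (n + 1))
      simp only [eval_add, eval_mul, eval_C, eval_X, eval_sub] at this
      exact this
    set v := (pn w (n + 2)).eval x with hv
    have hlhs : 4 * a ^ 2 * ((x - b) ^ 2 * v ^ 2 * w x) - (x - b) ^ 4 * v ^ 2 * w x +
        θ * a * ((x - b) ^ 3 * v ^ 2 * w x) - 4 * θ * a ^ 3 * ((x - b) ^ 1 * v ^ 2 * w x) =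
        ((x - b) * ((x - b) - θ * a) * (4 * a ^ 2 - (x - b) ^ 2) * v ^ 2) * w x := by
      ring
    rw [hlhs]
    by_cases hx : x ∈ S
    · rw [Set.indicator_of_mem hx, Set.indicator_of_mem hx, abs_Fn hw, abs_Fn hw]
      have key := outer_ineq a a' (x - b) ((pn w (n + 1)).eval x) v ((pn w (n + 3)).eval x) θ hapos hθ
        hrec
      have h1 := mul_le_mul_of_nonneg_right key hwx
      refine h1.trans ?_
      have h2 : 0 ≤ κ * (v ^ 2 * w x) := mul_nonneg hκ (mul_nonneg (sq_nonneg v) hwx)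
      have e5 : n + 2 + 1 = n + 3 := rfl
      have e6 : n + 1 + 1 = n + 2 := rfl
      rw [e5, e6, ← hv]
      linarith only [h2]
    · rw [Set.indicator_of_notMem hx, Set.indicator_of_notMem hx]
      have hx' : |x| ≤ M := not_lt.1 hx
      have h1 := hin x hx'
      have h2 : 0 ≤ v ^ 2 * w x := mul_nonneg (sq_nonneg v) hwx
      have h3 := mul_le_mul_of_nonneg_right h1 h2
      have h4 : 0 ≤ 136 * a ^ 2 * |a' ^ 2 - a ^ 2| * (v ^ 2 * w x) :=
        mul_nonneg (mul_nonneg (mul_nonneg (by norm_num) (sq_nonneg a)) (abs_nonneg _)) h2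
      have h5 : 0 ≤ a ^ 2 / 4 * ((x - b) ^ 2 * v ^ 2 * w x) :=
        mul_nonneg (div_nonneg (sq_nonneg a) (by norm_num))
          (mul_nonneg (mul_nonneg (sq_nonneg _) (sq_nonneg _)) hwx)
      linarith only [h3, h4, h5]
  have hint := integral_mono ((((i2.const_mul (4 * a ^ 2)).sub i4).add (i3.const_mul (θ * a))).sub
      (i1.const_mul (4 * θ * a ^ 3)))
    ((((j1.const_mul (136 * a ^ 2 * a' ^ 2)).add (j0.const_mul (136 * a ^ 2 * a ^ 2))).add
      (i0.const_mul (136 * a ^ 2 * |a' ^ 2 - a ^ 2| + κ))).add (i2.const_mul (a ^ 2 / 4))) hpt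
  rw [integral_sub' (((i2.const_mul (4 * a ^ 2)).sub i4).add (i3.const_mul (θ * a)))
      (i1.const_mul (4 * θ * a ^ 3)),
    integral_add' ((i2.const_mul (4 * a ^ 2)).sub i4) (i3.const_mul (θ * a)),
    integral_sub' (i2.const_mul (4 * a ^ 2)) i4,
    integral_add' (((j1.const_mul (136 * a ^ 2 * a' ^ 2)).add (j0.const_mul (136 * a ^ 2 * a ^ 2))).add
      (i0.const_mul (136 * a ^ 2 * |a' ^ 2 - a ^ 2| + κ))) (i2.const_mul (a ^ 2 / 4)),
    integral_add' ((j1.const_mul (136 * a ^ 2 * a' ^ 2)).add (j0.const_mul (136 * a ^ 2 * a ^ 2)))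
      (i0.const_mul (136 * a ^ 2 * |a' ^ 2 - a ^ 2| + κ)),
    integral_add' (j1.const_mul (136 * a ^ 2 * a' ^ 2)) (j0.const_mul (136 * a ^ 2 * a ^ 2)),
    integral_const_mul, integral_const_mul, integral_const_mul, integral_const_mul,
    integral_const_mul, integral_const_mul, integral_const_mul, q0, q1, q2, q3, q4, d1, d0] at hint
  linarith only [hint]

end Pool.Agent.Y255.FR
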